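import Mathlib
import Pool.Agent.Work.MP_859ada_lc.Defs
import Pool.Agent.Work.PT.Serial

/-! Bundle of small proof modules (one section per former module). -/

section

/-!
# MP_859ada_lc: elementary facts on roots of polynomials and continuous functions
-/

set_option autoImplicit false

namespace Pool.Agent.Work.MP_859ada_lc

open Polynomial Set

/-- If no root of `q` is near `x`, then `q x` is not much smaller than `q c`. -/
theorem le_norm_eval_of_roots {q : ℂ[X]} {x c : ℂ} {ρ D : ℝ} (hρ : 0 < ρ) (hD : ‖x - c‖ ≤ D)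
    (hq : ∀ ζ, q.eval ζ = 0 → ρ ≤ ‖x - ζ‖) {E : ℕ} (hE : q.natDegree ≤ E) :
    ‖q.eval c‖ * (ρ / (ρ + D)) ^ E ≤ ‖q.eval x‖ := by
  have hD0 : 0 ≤ D := (norm_nonneg _).trans hD
  have hr0 : 0 < ρ / (ρ + D) := by positivity
  have hr1 : ρ / (ρ + D) ≤ 1 := by
    rw [div_le_one (by positivity)]; linarith
  by_cases h0 : q = 0
  · rw [h0]; simp
  have key : ∀ s : Multiset ℂ, (∀ ζ ∈ s, ρ ≤ ‖x - ζ‖) →
      ‖(s.map (fun ζ => c - ζ)).prod‖ * (ρ / (ρ + D)) ^ (Multiset.card s) ≤
        ‖(s.map (fun ζ => x - ζ)).prod‖ := by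
    intro s
    induction s using Multiset.induction_on with
    | empty => intro _; simp
    | cons ζ s ih =>
      intro h
      have h1 := ih (fun ζ' hζ' => h ζ' (Multiset.mem_cons_of_mem hζ'))
      have h2 := h ζ (Multiset.mem_cons_self ζ s)
      rw [Multiset.map_cons, Multiset.prod_cons, Multiset.map_cons, Multiset.prod_cons,
        Multiset.card_cons, norm_mul, norm_mul, pow_succ]
      have h3 : ‖c - ζ‖ * (ρ / (ρ + D)) ≤ ‖x - ζ‖ := by
        have h4 : ‖c - ζ‖ ≤ D + ‖x - ζ‖ := by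
          have : c - ζ = -(x - c) + (x - ζ) := by ring
          rw [this]
          refine (norm_add_le _ _).trans ?_
          rw [norm_neg]
          linarith
        rw [mul_div_assoc', div_le_iff₀ (by positivity)]
        nlinarith
      calc ‖c - ζ‖ * ‖(s.map (fun ζ => c - ζ)).prod‖ *
            ((ρ / (ρ + D)) ^ (Multiset.card s) * (ρ / (ρ + D)))
          = (‖c - ζ‖ * (ρ / (ρ + D))) *
            (‖(s.map (fun ζ => c - ζ)).prod‖ * (ρ / (ρ + D)) ^ (Multiset.card s)) := by ring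
        _ ≤ ‖x - ζ‖ * ‖(s.map (fun ζ => x - ζ)).prod‖ := by
            apply mul_le_mul h3 h1 (by positivity) (norm_nonneg _)
  have hs : q.Splits := IsAlgClosed.splits q
  have he : ∀ z, q.eval z = q.leadingCoeff * (q.roots.map (fun ζ => z - ζ)).prod := by
    intro z
    conv_lhs => rw [hs.eq_prod_roots]
    rw [eval_mul, eval_C, eval_multiset_prod, Multiset.map_map]
    simp
  have h1 := key q.roots (fun ζ hζ => hq ζ ((mem_roots h0).1 hζ))
  rw [he c, he x, norm_mul, norm_mul]
  calc ‖q.leadingCoeff‖ * ‖(q.roots.map (fun ζ => c - ζ)).prod‖ * (ρ / (ρ + D)) ^ E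
      ≤ ‖q.leadingCoeff‖ * ‖(q.roots.map (fun ζ => c - ζ)).prod‖ *
        (ρ / (ρ + D)) ^ (Multiset.card q.roots) := by
        apply mul_le_mul_of_nonneg_left _ (by positivity)
        exact pow_le_pow_of_le_one hr0.le hr1 ((card_roots' q).trans hE)
    _ = ‖q.leadingCoeff‖ * (‖(q.roots.map (fun ζ => c - ζ)).prod‖ *
        (ρ / (ρ + D)) ^ (Multiset.card q.roots)) := by ring
    _ ≤ ‖q.leadingCoeff‖ * ‖(q.roots.map (fun ζ => x - ζ)).prod‖ :=
        mul_le_mul_of_nonneg_left h1 (norm_nonneg _)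

/-- There is a point near `u` which is not near any root. -/
theorem exists_far_point {q : ℂ[X]} (h0 : q ≠ 0) {E : ℕ} (hE : q.natDegree ≤ E) (u : ℝ) {r : ℝ}
    (hr : 0 < r) : ∃ v : ℝ, u ≤ v ∧ v ≤ u + r ∧
      ∀ ζ, q.eval ζ = 0 → r / (2 * E + 2) ≤ ‖(v : ℂ) - ζ‖ := by
  classical
  by_contra hcon
  push Not at hcon
  obtain ⟨ρ, hρ⟩ : ∃ ρ : ℝ, ρ = r / (2 * E + 2) := ⟨_, rfl⟩
  have hρ0 : 0 < ρ := by rw [hρ]; positivity
  have hr' : r = ρ * (2 * E + 2) := by rw [hρ]; field_simp
  have h1 : ∀ i : Fin (E + 1), ∃ ζ : ℂ, q.eval ζ = 0 ∧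
      ‖((u + (2 * (i : ℕ) + 1) * ρ : ℝ) : ℂ) - ζ‖ < ρ := by
    intro i
    have hi : ((i : ℕ) : ℝ) ≤ E := by exact_mod_cast Nat.lt_succ_iff.1 i.2
    obtain ⟨ζ, h2, h3⟩ := hcon (u + (2 * (i : ℕ) + 1) * ρ) (by
      have : 0 ≤ (2 * ((i : ℕ) : ℝ) + 1) * ρ := by positivity
      linarith) (by rw [hr']; nlinarith)
    exact ⟨ζ, h2, by rw [hρ]; rw [hρ] at h3; exact h3⟩
  choose ζ h2 h3 using h1
  have hinj : Function.Injective ζ := by
    intro i j hij
    by_contra hne
    have h4 := h3 i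
    have h5 := h3 j
    rw [hij] at h4
    have h6 : ‖((u + (2 * (i : ℕ) + 1) * ρ : ℝ) : ℂ) - ((u + (2 * (j : ℕ) + 1) * ρ : ℝ) : ℂ)‖
        < 2 * ρ := by
      have e : ((u + (2 * (i : ℕ) + 1) * ρ : ℝ) : ℂ) - ((u + (2 * (j : ℕ) + 1) * ρ : ℝ) : ℂ) =
        (((u + (2 * (i : ℕ) + 1) * ρ : ℝ) : ℂ) - ζ j) -
          (((u + (2 * (j : ℕ) + 1) * ρ : ℝ) : ℂ) - ζ j) := by ring
      rw [e]
      exact (norm_sub_le _ _).trans_lt (by linarith)
    rw [← Complex.ofReal_sub, Complex.norm_real, Real.norm_eq_abs] at h6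
    have h7 : u + (2 * ((i : ℕ) : ℝ) + 1) * ρ - (u + (2 * ((j : ℕ) : ℝ) + 1) * ρ) =
        2 * ρ * (((i : ℕ) : ℝ) - ((j : ℕ) : ℝ)) := by ring
    rw [h7, abs_mul, abs_of_pos (by positivity)] at h6
    have h8 : (1 : ℝ) ≤ |((i : ℕ) : ℝ) - ((j : ℕ) : ℝ)| := by
      have h9 : ((i : ℕ) : ℤ) - ((j : ℕ) : ℤ) ≠ 0 := by
        intro h10
        apply hne
        apply Fin.ext
        omega
      have h10 := Int.one_le_abs h9
      have h11 : ((|((i : ℕ) : ℤ) - ((j : ℕ) : ℤ)| : ℤ) : ℝ) = |((i : ℕ) : ℝ) - ((j : ℕ) : ℝ)| := by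
        push_cast; rfl
      rw [← h11]
      exact_mod_cast h10
    nlinarith
  have h4 : (Finset.univ.image ζ).card ≤ q.roots.toFinset.card := by
    apply Finset.card_le_card
    intro z hz
    rw [Finset.mem_image] at hz
    obtain ⟨i, -, rfl⟩ := hz
    rw [Multiset.mem_toFinset, mem_roots h0]
    exact h2 i
  rw [Finset.card_image_of_injective _ hinj, Finset.card_univ, Fintype.card_fin] at h4
  have h5 := (Multiset.toFinset_card_le q.roots).trans (card_roots' q)
  omega

/-- A nonzero polynomial of degree at most `E` does not vanish at all the numbers `0, ..., E`. -/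
theorem exists_nat_ne {R : Type*} [CommRing R] [IsDomain R] [CharZero R] {q : R[X]} (h0 : q ≠ 0)
    {E : ℕ} (hE : q.natDegree ≤ E) : ∃ c : ℕ, c ≤ E ∧ q.eval (c : R) ≠ 0 := by
  classical
  by_contra hcon
  push Not at hcon
  have h4 : ((Finset.range (E + 1)).image (fun c : ℕ => (c : R))).card ≤
      q.roots.toFinset.card := by
    apply Finset.card_le_card
    intro z hz
    rw [Finset.mem_image] at hz
    obtain ⟨i, hi, rfl⟩ := hz
    rw [Multiset.mem_toFinset, mem_roots h0]
    exact hcon i (by rw [Finset.mem_range] at hi; omega)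
  rw [Finset.card_image_of_injective _ Nat.cast_injective, Finset.card_range] at h4
  have h5 := (Multiset.toFinset_card_le q.roots).trans (card_roots' q)
  omega

/-- A sharpened form of the intermediate value theorem. -/
theorem ivt_between {f : ℝ → ℝ} (hf : ContinuousOn f (Icc 0 1)) {α β : ℝ} (hαβ : α ≤ β)
    (h0 : f 0 ≤ α) (h1 : β ≤ f 1) :
    ∃ s u : ℝ, 0 ≤ s ∧ s ≤ u ∧ u ≤ 1 ∧ f s = α ∧ f u = β ∧
      ∀ t ∈ Icc s u, α ≤ f t ∧ f t ≤ β := by
  -- the last point where `f ≤ α`
  obtain ⟨s, ⟨hs1, hs2⟩, hs3⟩ : ∃ s, s ∈ (Icc (0 : ℝ) 1 ∩ f ⁻¹' Iic α) ∧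
      ∀ t ∈ (Icc (0 : ℝ) 1 ∩ f ⁻¹' Iic α), t ≤ s := by
    have hc : IsCompact (Icc (0 : ℝ) 1 ∩ f ⁻¹' Iic α) :=
      isCompact_Icc.of_isClosed_subset (hf.preimage_isClosed_of_isClosed isClosed_Icc isClosed_Iic)
        inter_subset_left
    obtain ⟨s, hs, hs'⟩ := hc.exists_isGreatest ⟨0, ⟨le_rfl, zero_le_one⟩, h0⟩
    exact ⟨s, hs, fun t ht => hs' ht⟩
  have hfs : f s = α := by
    refine le_antisymm hs2 ?_
    by_contra hlt
    push Not at hlt
    have hc := hf.mono (Icc_subset_Icc_left hs1.1)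
    have h2 : α ∈ Icc (f s) (f 1) := ⟨hlt.le, hαβ.trans h1⟩
    obtain ⟨w, hw, hw2⟩ := intermediate_value_Icc hs1.2 hc h2
    have hw3 := hs3 w ⟨⟨hs1.1.trans hw.1, hw.2⟩, by simp [hw2]⟩
    have : w = s := le_antisymm hw3 hw.1
    rw [this] at hw2
    linarith
  have hge : ∀ t ∈ Icc s 1, α ≤ f t := by
    intro t ht
    by_contra hlt
    push Not at hlt
    have := hs3 t ⟨⟨hs1.1.trans ht.1, ht.2⟩, hlt.le⟩
    have : t = s := le_antisymm this ht.1
    rw [this, hfs] at hlt
    exact lt_irrefl _ hlt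
  have hf' := hf.mono (Icc_subset_Icc_left hs1.1)
  obtain ⟨u, ⟨hu1, hu2⟩, hu3⟩ : ∃ u, u ∈ (Icc s 1 ∩ f ⁻¹' Ici β) ∧
      ∀ t ∈ (Icc s 1 ∩ f ⁻¹' Ici β), u ≤ t := by
    have hc : IsCompact (Icc s 1 ∩ f ⁻¹' Ici β) :=
      isCompact_Icc.of_isClosed_subset (hf'.preimage_isClosed_of_isClosed isClosed_Icc isClosed_Ici)
        inter_subset_left
    obtain ⟨u, hu, hu'⟩ := hc.exists_isLeast ⟨1, ⟨hs1.2, le_rfl⟩, h1⟩
    exact ⟨u, hu, fun t ht => hu' ht⟩
  have hfu : f u = β := by
    refine le_antisymm ?_ hu2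
    by_contra hlt
    push Not at hlt
    have hc := hf'.mono (Icc_subset_Icc_right hu1.2)
    have h2 : β ∈ Icc (f s) (f u) := ⟨by rw [hfs]; exact hαβ, hlt.le⟩
    obtain ⟨w, hw, hw2⟩ := intermediate_value_Icc hu1.1 hc h2
    have hw3 := hu3 w ⟨⟨hw.1, hw.2.trans hu1.2⟩, by simp [hw2]⟩
    have : w = u := le_antisymm hw.2 hw3
    rw [this] at hw2
    linarith
  refine ⟨s, u, hs1.1, hu1.1, hu1.2, hfs, hfu, fun t ht => ⟨hge t ⟨ht.1, ht.2.trans hu1.2⟩, ?_⟩⟩
  by_contra hlt
  push Not at hlt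
  have := hu3 t ⟨⟨ht.1, ht.2.trans hu1.2⟩, hlt.le⟩
  have : t = u := le_antisymm ht.2 this
  rw [this, hfu] at hlt
  exact lt_irrefl _ hlt

end Pool.Agent.Work.MP_859ada_lc

end

section

/-!
# MP_859ada_lc: basic facts on straight-line programs
-/

set_option autoImplicit false

namespace Pool.Agent.Work.MP_859ada_lc

open Polynomial

section basic

variable {A B : Type*} [CommRing A] [CommRing B]

theorem vals_nil (x : ℕ → A) : vals x [] = [] := rfl

theorem vals_concat (x : ℕ → A) (p : List Gate) (g : Gate) :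
    vals x (p ++ [g]) = vals x p ++ [g.val x (vals x p)] := by
  simp [vals, List.foldl_append]

theorem value_concat (x : ℕ → A) (p : List Gate) (g : Gate) :
    value x (p ++ [g]) = g.val x (vals x p) := by
  simp [value, vals_concat]

theorem length_vals (x : ℕ → A) (p : List Gate) : (vals x p).length = p.length := by
  induction p using List.reverseRecOn with
  | nil => rfl
  | append_singleton p g ih => rw [vals_concat]; simp [ih]

/-- Prefixes. -/
theorem vals_append (x : ℕ → A) (p q : List Gate) :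
    ∃ l, vals x (p ++ q) = vals x p ++ l ∧ l.length = q.length := by
  induction q using List.reverseRecOn with
  | nil => exact ⟨[], by simp, rfl⟩
  | append_singleton q g ih =>
    obtain ⟨l, hl, h2⟩ := ih
    refine ⟨l ++ [g.val x (vals x (p ++ q))], ?_, by simp [h2]⟩
    rw [← List.append_assoc, vals_concat, hl, List.append_assoc]

theorem vals_getD_append (x : ℕ → A) (p q : List Gate) {k : ℕ} (hk : k < p.length) :
    (vals x (p ++ q)).getD k 0 = (vals x p).getD k 0 := by
  obtain ⟨l, hl, -⟩ := vals_append x p q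
  rw [hl, List.getD_append _ _ _ _ (by rwa [length_vals])]

/-- Ring homomorphisms. -/
theorem vals_map (φ : A →+* B) (x : ℕ → A) (p : List Gate) :
    vals (fun k => φ (x k)) p = (vals x p).map φ := by
  induction p using List.reverseRecOn with
  | nil => rfl
  | append_singleton p g ih =>
    rw [vals_concat, vals_concat, ih, List.map_append]
    congr 1
    simp only [List.map_cons, List.map_nil, List.cons.injEq, and_true]
    have h0 : ∀ i, ((vals x p).map φ).getD i 0 = φ ((vals x p).getD i 0) := by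
      intro i
      rw [← map_zero φ, List.getD_map]
    cases g <;> simp only [Gate.val, h0, map_one, map_add, map_sub, map_mul]

theorem value_map (φ : A →+* B) (x : ℕ → A) (p : List Gate) :
    value (fun k => φ (x k)) p = φ (value x p) := by
  unfold value
  rw [vals_map]
  rcases List.eq_nil_or_concat (vals x p) with h | ⟨l, a, h⟩
  · rw [h]; simp
  · rw [h]; simp

/-- The main induction principle. -/
theorem vals_induction {x : ℕ → A} (P : ℕ → A → Prop) (h0 : P 0 0) (h1 : P 0 1)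
    (hx : ∀ i, P 0 (x i)) (hmono : ∀ k a, P k a → P (k + 1) a)
    (hadd : ∀ k a b, P k a → P k b → P (k + 1) (a + b))
    (hsub : ∀ k a b, P k a → P k b → P (k + 1) (a - b))
    (hmul : ∀ k a b, P k a → P k b → P (k + 1) (a * b)) (p : List Gate) :
    ∀ i, P p.length ((vals x p).getD i 0) := by
  have hm0 : ∀ k a, P 0 a → P k a := by
    intro k a h
    induction k with
    | zero => exact h
    | succ k ih => exact hmono _ _ ih
  induction p using List.reverseRecOn with
  | nil => intro i; simpa [vals_nil] using h0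
  | append_singleton p g ih =>
    intro i
    rw [vals_concat, List.length_append, List.length_singleton]
    rcases lt_trichotomy i (vals x p).length with h | h | h
    · rw [List.getD_append _ _ _ _ h]
      exact hmono _ _ (ih i)
    · rw [h, List.getD_append_right _ _ _ _ le_rfl]
      simp only [Nat.sub_self, List.getD_cons_zero]
      cases g with
      | one => exact hm0 _ _ h1
      | var k => exact hm0 _ _ (hx k)
      | add a b => exact hadd _ _ _ (ih a) (ih b)
      | sub a b => exact hsub _ _ _ (ih a) (ih b)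
      | mul a b => exact hmul _ _ _ (ih a) (ih b)
    · rw [List.getD_eq_default _ _ (by simp; omega)]
      exact hm0 _ _ h0

theorem value_eq_getD (x : ℕ → A) (p : List Gate) :
    value x p = (vals x p).getD (p.length - 1) 0 := by
  rcases List.eq_nil_or_concat p with h | ⟨q, g, h⟩
  · rw [h]; rfl
  · rw [h, List.concat_eq_append, value_concat, vals_concat, List.getD_append_right _ _ _ _
      (by simp [length_vals])]
    simp [length_vals]

theorem value_induction {x : ℕ → A} (P : ℕ → A → Prop) (h0 : P 0 0) (h1 : P 0 1)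
    (hx : ∀ i, P 0 (x i)) (hmono : ∀ k a, P k a → P (k + 1) a)
    (hadd : ∀ k a b, P k a → P k b → P (k + 1) (a + b))
    (hsub : ∀ k a b, P k a → P k b → P (k + 1) (a - b))
    (hmul : ∀ k a b, P k a → P k b → P (k + 1) (a * b)) {p : List Gate} {n : ℕ}
    (hn : p.length ≤ n) : P n (value x p) := by
  rw [value_eq_getD]
  obtain ⟨d, rfl⟩ := Nat.exists_eq_add_of_le hn
  have := vals_induction P h0 h1 hx hmono hadd hsub hmul p (p.length - 1)
  clear hn
  induction d with
  | zero => exact this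
  | succ d ih => exact hmono _ _ ih

/-- If `v k` satisfies the equation of the gate `k` for every `k`, then the gate `k` has the value
`v k`. -/
theorem vals_eq_of_model {n : ℕ} {x : ℕ → A} {p : List Gate} (hp : WF n p) (v : ℕ → A)
    (hv : ∀ k (h : k < p.length), v k = match p[k] with
      | .one => 1
      | .var i => x i
      | .add i j => v i + v j
      | .sub i j => v i - v j
      | .mul i j => v i * v j) :
    ∀ k, k < p.length → (vals x p).getD k 0 = v k := by
  induction p using List.reverseRecOn with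
  | nil => intro k hk; simp at hk
  | append_singleton p g ih =>
    have hp' : WF n p := by
      intro k hk
      have := hp k (by simp; omega)
      rwa [List.getElem_append_left hk] at this
    have ih' := ih hp' (by
      intro k hk
      have := hv k (by simp; omega)
      rwa [List.getElem_append_left hk] at this)
    intro k hk
    rw [List.length_append, List.length_singleton] at hk
    rw [vals_concat]
    rcases Nat.lt_or_ge k p.length with h | h
    · rw [List.getD_append _ _ _ _ (by rwa [length_vals])]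
      exact ih' k h
    · have hk' : k = p.length := by omega
      subst hk'
      rw [List.getD_append_right _ _ _ _ (by rw [length_vals])]
      have h1 := hv p.length (by simp)
      have h2 := hp p.length (by simp)
      simp only [List.getElem_append_right le_rfl, Nat.sub_self, List.getElem_cons_zero] at h1 h2
      rw [h1, length_vals, Nat.sub_self, List.getD_cons_zero]
      cases g with
      | one => rfl
      | var i => rfl
      | add i j => simp only [Gate.val]; rw [ih' i h2.1, ih' j h2.2]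
      | sub i j => simp only [Gate.val]; rw [ih' i h2.1, ih' j h2.2]
      | mul i j => simp only [Gate.val]; rw [ih' i h2.1, ih' j h2.2]

/-- Only the variables which occur matter. -/
theorem vals_congr {x x' : ℕ → A} {p : List Gate} (h : ∀ k, Gate.var k ∈ p → x k = x' k) :
    vals x p = vals x' p := by
  induction p using List.reverseRecOn with
  | nil => rfl
  | append_singleton p g ih =>
    rw [vals_concat, vals_concat, ih (fun k hk => h k (by simp [hk]))]
    congr 2
    cases g with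
    | var k => exact h k (by simp)
    | _ => rfl

theorem value_congr {x x' : ℕ → A} {p : List Gate} (h : ∀ k, Gate.var k ∈ p → x k = x' k) :
    value x p = value x' p := by
  unfold value; rw [vals_congr h]

theorem polyAt_eval (y : ℕ → A) (j : ℕ) (p : List Gate) (z : A) :
    (polyAt y j p).eval z = value (fun k => if k < j then y k else if k = j then z else 0) p := by
  have h := value_map (Polynomial.evalRingHom z)
    (fun k => if k < j then C (y k) else if k = j then X else 0) p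
  rw [polyAt, ← Polynomial.coe_evalRingHom, ← h]
  congr 1
  funext k
  split_ifs <;> simp

theorem polyAt_map (φ : A →+* B) (y : ℕ → A) (j : ℕ) (p : List Gate) :
    (polyAt y j p).map φ = polyAt (fun k => φ (y k)) j p := by
  have h := value_map (Polynomial.mapRingHom φ)
    (fun k => if k < j then C (y k) else if k = j then X else 0) p
  rw [polyAt, ← Polynomial.coe_mapRingHom, ← h, polyAt]
  congr 1
  funext k
  split_ifs <;> simp

end basic

end Pool.Agent.Work.MP_859ada_lc

end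

section

/-!
# MP_859ada_lc: bounds for the values of straight-line programs
-/

set_option autoImplicit false

namespace Pool.Agent.Work.MP_859ada_lc

open Polynomial

/-- The doubly exponential numbers. -/
def Bg (k : ℕ) : ℝ := 2 ^ (2 ^ k)

theorem Bg_pos (k : ℕ) : 0 < Bg k := by unfold Bg; positivity

theorem one_le_Bg (k : ℕ) : 1 ≤ Bg k := one_le_pow₀ (by norm_num)

theorem two_le_Bg (k : ℕ) : 2 ≤ Bg k := by
  unfold Bg
  calc (2 : ℝ) = 2 ^ 1 := by norm_num
    _ ≤ 2 ^ (2 ^ k) := pow_le_pow_right₀ (by norm_num) Nat.one_le_two_pow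

theorem Bg_succ (k : ℕ) : Bg (k + 1) = Bg k ^ 2 := by
  unfold Bg; rw [← pow_mul, pow_succ]

theorem Bg_mono {i j : ℕ} (h : i ≤ j) : Bg i ≤ Bg j :=
  pow_le_pow_right₀ (by norm_num) (Nat.pow_le_pow_right (by norm_num) h)

theorem Bg_pow (k l : ℕ) : Bg k ^ (2 ^ l) = Bg (k + l) := by
  unfold Bg; rw [← pow_mul, pow_add]

theorem Bg_mul_le {i j k : ℕ} (hi : i + 1 ≤ k) (hj : j + 1 ≤ k) : Bg i * Bg j ≤ Bg k := by
  obtain ⟨k, rfl⟩ : ∃ k', k = k' + 1 := ⟨k - 1, by omega⟩
  rw [Bg_succ, sq]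
  exact mul_le_mul (Bg_mono (by omega)) (Bg_mono (by omega)) (Bg_pos _).le (Bg_pos _).le

theorem two_pow_le_Bg (k : ℕ) : (2 : ℝ) ^ k ≤ Bg k :=
  pow_le_pow_right₀ (by norm_num) (Nat.lt_two_pow_self).le

section norm

variable {𝕜 : Type*} [NormedField 𝕜]

/-- Size of the values. -/
theorem norm_value_le {M : ℝ} (hM : 2 ≤ M) {x : ℕ → 𝕜} (hx : ∀ i, ‖x i‖ ≤ M) {p : List Gate}
    {n : ℕ} (hn : p.length ≤ n) : ‖value x p‖ ≤ M ^ (2 ^ n) := by
  have key : ∀ k : ℕ, 1 ≤ M ^ (2 ^ k) := fun k => one_le_pow₀ (by linarith)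
  have key2 : ∀ k : ℕ, 2 ≤ M ^ (2 ^ k) := fun k => by
    calc (2 : ℝ) ≤ M := hM
      _ = M ^ 1 := (pow_one _).symm
      _ ≤ M ^ (2 ^ k) := pow_le_pow_right₀ (by linarith) Nat.one_le_two_pow
  have hs : ∀ k : ℕ, M ^ (2 ^ (k + 1)) = M ^ (2 ^ k) * M ^ (2 ^ k) := fun k => by
    rw [← pow_add]; congr 1; ring
  refine value_induction (fun k a => ‖a‖ ≤ M ^ (2 ^ k)) ?_ ?_ ?_ ?_ ?_ ?_ ?_ hn
  · simp; linarith
  · simp; linarith
  · intro i; simpa using hx i
  · intro k a h
    rw [hs]
    nlinarith [key k, h]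
  · intro k a b ha hb
    rw [hs]
    nlinarith [key2 k, norm_add_le a b, ha, hb]
  · intro k a b ha hb
    rw [hs]
    nlinarith [key2 k, norm_sub_le a b, ha, hb]
  · intro k a b ha hb
    rw [hs, norm_mul]
    exact mul_le_mul ha hb (norm_nonneg _) (by linarith [key k])

/-- Lipschitz bound. -/
theorem norm_value_sub_le {M d : ℝ} (hM : 2 ≤ M) (hd : 0 ≤ d) {x y : ℕ → 𝕜}
    (hx : ∀ i, ‖x i‖ ≤ M) (hy : ∀ i, ‖y i‖ ≤ M) (hxy : ∀ i, ‖x i - y i‖ ≤ d) {p : List Gate}
    {n : ℕ} (hn : p.length ≤ n) : ‖value x p - value y p‖ ≤ d * M ^ (2 ^ (n + 1)) := by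
  have key : ∀ k : ℕ, 1 ≤ M ^ (2 ^ k) := fun k => one_le_pow₀ (by linarith)
  have key2 : ∀ k : ℕ, 2 ≤ M ^ (2 ^ k) := fun k => by
    calc (2 : ℝ) ≤ M := hM
      _ = M ^ 1 := (pow_one _).symm
      _ ≤ M ^ (2 ^ k) := pow_le_pow_right₀ (by linarith) Nat.one_le_two_pow
  have hs : ∀ k : ℕ, M ^ (2 ^ (k + 1)) = M ^ (2 ^ k) * M ^ (2 ^ k) := fun k => by
    rw [← pow_add]; congr 1; ring
  have h1 := value_map (RingHom.fst 𝕜 𝕜) (fun i => (x i, y i)) p
  have h2 := value_map (RingHom.snd 𝕜 𝕜) (fun i => (x i, y i)) p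
  simp only [RingHom.coe_fst, RingHom.coe_snd] at h1 h2
  rw [h1, h2]
  refine (value_induction (x := fun i => (x i, y i))
    (fun k (a : 𝕜 × 𝕜) => ‖a.1‖ ≤ M ^ (2 ^ k) ∧ ‖a.2‖ ≤ M ^ (2 ^ k) ∧
      ‖a.1 - a.2‖ ≤ d * M ^ (2 ^ (k + 1))) ?_ ?_ ?_ ?_ ?_ ?_ ?_ hn).2.2
  · simp; exact ⟨by linarith, by positivity⟩
  · simp; exact ⟨by linarith, by positivity⟩
  · intro i
    refine ⟨by simpa using hx i, by simpa using hy i, ?_⟩
    refine (hxy i).trans ?_
    nlinarith [key (0 + 1)]
  · rintro k ⟨a, a'⟩ ⟨h1, h2, h3⟩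
    dsimp only at h1 h2 h3 ⊢
    refine ⟨?_, ?_, ?_⟩
    · rw [hs]; nlinarith [key k]
    · rw [hs]; nlinarith [key k]
    · rw [hs (k + 1)]
      have h4 : 0 ≤ d * M ^ (2 ^ (k + 1)) := mul_nonneg hd (by linarith [key (k + 1)])
      nlinarith [key (k + 1)]
  · rintro k ⟨a, a'⟩ ⟨b, b'⟩ ⟨h1, h2, h3⟩ ⟨g1, g2, g3⟩
    dsimp only [Prod.mk_add_mk] at h1 h2 h3 g1 g2 g3 ⊢
    refine ⟨?_, ?_, ?_⟩
    · rw [hs]; nlinarith [key2 k, norm_add_le a b]
    · rw [hs]; nlinarith [key2 k, norm_add_le a' b']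
    · have e : a + b - (a' + b') = (a - a') + (b - b') := by ring
      rw [e, hs (k + 1)]
      have h4 : 0 ≤ d * M ^ (2 ^ (k + 1)) := mul_nonneg hd (by linarith [key (k + 1)])
      nlinarith [key2 (k + 1), norm_add_le (a - a') (b - b')]
  · rintro k ⟨a, a'⟩ ⟨b, b'⟩ ⟨h1, h2, h3⟩ ⟨g1, g2, g3⟩
    dsimp only [Prod.mk_sub_mk] at h1 h2 h3 g1 g2 g3 ⊢
    refine ⟨?_, ?_, ?_⟩
    · rw [hs]; nlinarith [key2 k, norm_sub_le a b]
    · rw [hs]; nlinarith [key2 k, norm_sub_le a' b']
    · have e : a - b - (a' - b') = (a - a') - (b - b') := by ring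
      rw [e, hs (k + 1)]
      have h4 : 0 ≤ d * M ^ (2 ^ (k + 1)) := mul_nonneg hd (by linarith [key (k + 1)])
      nlinarith [key2 (k + 1), norm_sub_le (a - a') (b - b')]
  · rintro k ⟨a, a'⟩ ⟨b, b'⟩ ⟨h1, h2, h3⟩ ⟨g1, g2, g3⟩
    dsimp only [Prod.mk_mul_mk] at h1 h2 h3 g1 g2 g3 ⊢
    have hk := key k
    refine ⟨?_, ?_, ?_⟩
    · rw [hs, norm_mul]; exact mul_le_mul h1 g1 (norm_nonneg _) (by linarith)
    · rw [hs, norm_mul]; exact mul_le_mul h2 g2 (norm_nonneg _) (by linarith)
    · have e : a * b - a' * b' = a * (b - b') + (a - a') * b' := by ring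
      rw [e, hs (k + 1)]
      have h4 : ‖a * (b - b')‖ ≤ M ^ (2 ^ k) * (d * M ^ (2 ^ (k + 1))) := by
        rw [norm_mul]; exact mul_le_mul h1 g3 (norm_nonneg _) (by linarith)
      have h5 : ‖(a - a') * b'‖ ≤ (d * M ^ (2 ^ (k + 1))) * M ^ (2 ^ k) := by
        rw [norm_mul]
        exact mul_le_mul h3 g2 (norm_nonneg _) (mul_nonneg hd (by linarith [key (k + 1)]))
      have h6 : 2 * M ^ (2 ^ k) ≤ M ^ (2 ^ (k + 1)) := by
        rw [hs]; nlinarith [key2 k]
      have h7 : 0 ≤ d * M ^ (2 ^ (k + 1)) := mul_nonneg hd (by linarith [key (k + 1)])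
      calc ‖a * (b - b') + (a - a') * b'‖ ≤ ‖a * (b - b')‖ + ‖(a - a') * b'‖ := norm_add_le _ _
        _ ≤ (2 * M ^ (2 ^ k)) * (d * M ^ (2 ^ (k + 1))) := by linarith
        _ ≤ M ^ (2 ^ (k + 1)) * (d * M ^ (2 ^ (k + 1))) := mul_le_mul_of_nonneg_right h6 h7
        _ = d * (M ^ (2 ^ (k + 1)) * M ^ (2 ^ (k + 1))) := by ring

end norm

/-- Degrees. -/
theorem natDegree_polyAt_le {A : Type*} [CommRing A] (y : ℕ → A) (j : ℕ) {p : List Gate} {n : ℕ}
    (hn : p.length ≤ n) : (polyAt y j p).natDegree ≤ 2 ^ n := by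
  have hs : ∀ k : ℕ, 2 ^ (k + 1) = 2 ^ k + 2 ^ k := fun k => by ring
  have h1 : ∀ k : ℕ, 1 ≤ 2 ^ k := fun k => Nat.one_le_two_pow
  refine value_induction (fun k (a : A[X]) => a.natDegree ≤ 2 ^ k) ?_ ?_ ?_ ?_ ?_ ?_ ?_ hn
  · simp
  · simp
  · intro i
    split_ifs
    · simp
    · exact natDegree_X_le
    · simp
  · intro k a h; rw [hs]; omega
  · intro k a b ha hb
    have := natDegree_add_le a b
    rw [hs]; have := h1 k; omega
  · intro k a b ha hb
    have := natDegree_sub_le a b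
    rw [hs]; have := h1 k; omega
  · intro k a b ha hb
    have := natDegree_mul_le (p := a) (q := b)
    rw [hs]; omega

end Pool.Agent.Work.MP_859ada_lc

end

section

/-!
# MP_859ada_lc: layout of straight-line programs

`AllAt P b p`: the gates of the list `p`, placed at the positions `b, b + 1, ...`, satisfy `P`.
-/

set_option autoImplicit false

namespace Pool.Agent.Work.MP_859ada_lc

/-- The gates of `p`, placed at the positions `b, b + 1, ...`, satisfy `P`. -/
def AllAt (P : ℕ → Gate → Prop) (b : ℕ) (p : List Gate) : Prop :=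
  ∀ k (h : k < p.length), P (b + k) p[k]

section allat

variable {P : ℕ → Gate → Prop}

theorem allAt_nil (b : ℕ) : AllAt P b [] ↔ True := by simp [AllAt]

theorem allAt_cons (b : ℕ) (g : Gate) (p : List Gate) :
    AllAt P b (g :: p) ↔ P b g ∧ AllAt P (b + 1) p := by
  constructor
  · intro h
    refine ⟨h 0 (by simp), fun k hk => ?_⟩
    have := h (k + 1) (by simpa using hk)
    rwa [List.getElem_cons_succ, show b + (k + 1) = b + 1 + k by ring] at this
  · rintro ⟨h0, h1⟩ k hk
    cases k with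
    | zero => simpa using h0
    | succ k =>
      have := h1 k (by simpa using hk)
      rwa [List.getElem_cons_succ, show b + (k + 1) = b + 1 + k by ring]

theorem allAt_append (b : ℕ) (p q : List Gate) :
    AllAt P b (p ++ q) ↔ AllAt P b p ∧ AllAt P (b + p.length) q := by
  induction p generalizing b with
  | nil => simp [allAt_nil]
  | cons g p ih =>
    rw [List.cons_append, allAt_cons, allAt_cons, ih, List.length_cons, and_assoc,
      show b + 1 + p.length = b + (p.length + 1) by ring]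

theorem allAt_map_range (b N : ℕ) (g : ℕ → Gate) :
    AllAt P b ((List.range N).map g) ↔ ∀ k < N, P (b + k) (g k) := by
  unfold AllAt
  simp

theorem allAt_replicate (b N : ℕ) (g : Gate) :
    AllAt P b (List.replicate N g) ↔ ∀ k < N, P (b + k) g := by
  unfold AllAt
  simp

theorem length_flatMap_range {N W : ℕ} {B : ℕ → List Gate} (hB : ∀ j < N, (B j).length = W) :
    ((List.range N).flatMap B).length = N * W := by
  induction N with
  | zero => simp
  | succ N ih =>
    rw [List.range_succ, List.flatMap_append, List.length_append, ih (fun j hj => hB j (by omega))]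
    simp [hB N (by omega)]
    ring

theorem allAt_flatMap_range (b : ℕ) {N W : ℕ} {B : ℕ → List Gate}
    (hB : ∀ j < N, (B j).length = W) :
    AllAt P b ((List.range N).flatMap B) ↔ ∀ j < N, AllAt P (b + j * W) (B j) := by
  induction N with
  | zero => simp [allAt_nil]
  | succ N ih =>
    rw [List.range_succ, List.flatMap_append, allAt_append, ih (fun j hj => hB j (by omega)),
      length_flatMap_range (fun j hj => hB j (by omega))]
    simp only [List.flatMap_cons, List.flatMap_nil, List.append_nil]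
    constructor
    · rintro ⟨h1, h2⟩ j hj
      rcases Nat.lt_succ_iff_lt_or_eq.1 hj with hj | rfl
      · exact h1 j hj
      · exact h2
    · intro h
      exact ⟨fun j hj => h j (by omega), h N (by omega)⟩

end allat

theorem Gate.Ok.mono {n k k' : ℕ} {g : Gate} (h : g.Ok n k) (hk : k ≤ k') : g.Ok n k' := by
  cases g with
  | one => trivial
  | var i => exact h
  | add i j => exact ⟨lt_of_lt_of_le h.1 hk, lt_of_lt_of_le h.2 hk⟩
  | sub i j => exact ⟨lt_of_lt_of_le h.1 hk, lt_of_lt_of_le h.2 hk⟩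
  | mul i j => exact ⟨lt_of_lt_of_le h.1 hk, lt_of_lt_of_le h.2 hk⟩

theorem wf_iff {n : ℕ} {p : List Gate} : WF n p ↔ AllAt (fun k g => g.Ok n k) 0 p := by
  unfold WF AllAt
  simp only [Nat.zero_add]

variable {A : Type*} [CommRing A]

/-- The value of a gate, in terms of the values `v` of all gates. -/
def Gate.eqv (x v : ℕ → A) : Gate → A
  | .one => 1
  | .var i => x i
  | .add i j => v i + v j
  | .sub i j => v i - v j
  | .mul i j => v i * v j

/-- The actual values satisfy the equations. -/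
theorem models_self {n : ℕ} {p : List Gate} (hp : WF n p) (x : ℕ → A) :
    AllAt (fun k g => (vals x p).getD k 0 = g.eqv x (fun i => (vals x p).getD i 0)) 0 p := by
  induction p using List.reverseRecOn with
  | nil => exact (allAt_nil 0).2 trivial
  | append_singleton p g ih =>
    have hp' : WF n p := by
      intro k hk
      have := hp k (by simp; omega)
      rwa [List.getElem_append_left hk] at this
    have ih' := ih hp'
    have hlt : ∀ k, k < p.length → (vals x (p ++ [g])).getD k 0 = (vals x p).getD k 0 :=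
      fun k hk => vals_getD_append x p [g] hk
    rw [allAt_append]
    constructor
    · intro k hk
      have h1 := ih' k hk
      have h2 := hp' k hk
      rw [Nat.zero_add] at h1 ⊢
      rw [hlt k hk, h1]
      generalize p[k] = g' at h2
      cases g' with
      | one => rfl
      | var i => rfl
      | add i j => simp only [Gate.eqv]; rw [hlt i (h2.1.trans hk), hlt j (h2.2.trans hk)]
      | sub i j => simp only [Gate.eqv]; rw [hlt i (h2.1.trans hk), hlt j (h2.2.trans hk)]
      | mul i j => simp only [Gate.eqv]; rw [hlt i (h2.1.trans hk), hlt j (h2.2.trans hk)]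
    · rw [allAt_cons]
      refine ⟨?_, (allAt_nil _).2 trivial⟩
      have h2 := hp p.length (by simp)
      simp only [List.getElem_append_right le_rfl, Nat.sub_self, List.getElem_cons_zero] at h2
      rw [Nat.zero_add]
      have h3 : (vals x (p ++ [g])).getD p.length 0 = g.val x (vals x p) := by
        rw [vals_concat, List.getD_append_right _ _ _ _ (by rw [length_vals]), length_vals,
          Nat.sub_self, List.getD_cons_zero]
      rw [h3]
      cases g with
      | one => rfl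
      | var i => rfl
      | add i j => simp only [Gate.eqv, Gate.val]; rw [hlt i h2.1, hlt j h2.2]
      | sub i j => simp only [Gate.eqv, Gate.val]; rw [hlt i h2.1, hlt j h2.2]
      | mul i j => simp only [Gate.eqv, Gate.val]; rw [hlt i h2.1, hlt j h2.2]

/-- The values of arbitrary programs: recursion. -/
theorem vals_getD_take (x : ℕ → A) (p : List Gate) (k i : ℕ) :
    (vals x (p.take k)).getD i 0 = if i < k then (vals x p).getD i 0 else 0 := by
  split_ifs with h
  · rcases Nat.lt_or_ge i p.length with h1 | h1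
    · conv_rhs => rw [← List.take_append_drop k p]
      rw [vals_getD_append x _ _ (by rw [List.length_take]; omega)]
    · rw [List.getD_eq_default _ _ (by rw [length_vals, List.length_take]; omega),
        List.getD_eq_default _ _ (by rw [length_vals]; omega)]
  · rw [List.getD_eq_default _ _ (by rw [length_vals, List.length_take]; omega)]

theorem vals_getD_eq (x : ℕ → A) (p : List Gate) {k : ℕ} (hk : k < p.length) :
    (vals x p).getD k 0 = (p[k]).val x (vals x (p.take k)) := by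
  have h1 : p = p.take k ++ [p[k]] ++ p.drop (k + 1) := by
    simp
  have h2 : (vals x p).getD k 0 = (vals x (p.take k ++ [p[k]])).getD k 0 := by
    conv_lhs => rw [h1]
    exact vals_getD_append x _ _ (by simp; omega)
  rw [h2, vals_concat, List.getD_append_right _ _ _ _ (by rw [length_vals, List.length_take]; omega),
    length_vals, List.length_take, show k - min k p.length = 0 by omega, List.getD_cons_zero]

/-- Renaming of references: out of range references are sent to the zero gate. -/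
def ref (z b k i : ℕ) : ℕ := if i < k then b + i else z

/-- The copy of the gate `g` of position `k` in a copy of the program which starts at `b`. -/
def cg (z b k : ℕ) (r : ℕ → Gate) : Gate → Gate
  | .one => .one
  | .var i => r i
  | .add i j => .add (ref z b k i) (ref z b k j)
  | .sub i j => .sub (ref z b k i) (ref z b k j)
  | .mul i j => .mul (ref z b k i) (ref z b k j)

/-- A copy of the program `q`, in `n` gates, starting at the position `b`; the variable `i` is
replaced by the gate `r i`, and `z` is the position of a zero gate. -/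
def copyB (n z b : ℕ) (r : ℕ → Gate) (q : List Gate) : List Gate :=
  List.replicate (n - q.length) (.sub z z) ++
    (List.range q.length).map (fun k => cg z (b + (n - q.length)) k r (q.getD k .one))

theorem length_copyB {n z b : ℕ} {r : ℕ → Gate} {q : List Gate} (h : q.length ≤ n) :
    (copyB n z b r q).length = n := by
  unfold copyB
  simp
  omega

theorem ok_ref {z b k i : ℕ} (hz : z < b) : ref z b k i < b + k := by
  unfold ref; split_ifs <;> omega

theorem copyB_ok {N n z b : ℕ} {r : ℕ → Gate} {q : List Gate} (hz : z < b)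
    (hr : ∀ i, (r i).Ok N b) : AllAt (fun k g => g.Ok N k) b (copyB n z b r q) := by
  unfold copyB
  rw [allAt_append, allAt_replicate, allAt_map_range, List.length_replicate]
  refine ⟨fun k _ => ⟨by omega, by omega⟩, fun k _ => ?_⟩
  have h1 : ∀ i, ref z (b + (n - q.length)) k i < b + (n - q.length) + k := fun i =>
    ok_ref (by omega)
  cases q.getD k .one with
  | one => trivial
  | var i => exact (hr i).mono (by omega)
  | add i j => exact ⟨h1 i, h1 j⟩
  | sub i j => exact ⟨h1 i, h1 j⟩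
  | mul i j => exact ⟨h1 i, h1 j⟩

theorem copyB_value {n z b : ℕ} {r : ℕ → Gate} {q : List Gate} {x v x' : ℕ → A}
    (h : AllAt (fun k g => v k = g.eqv x v) b (copyB n z b r q)) (hz : v z = 0)
    (hq : q.length ≤ n) (hn : 1 ≤ n) (hr : ∀ i, (r i).eqv x v = x' i) :
    v (b + n - 1) = value x' q := by
  unfold copyB at h
  rw [allAt_append, allAt_replicate, allAt_map_range, List.length_replicate] at h
  obtain ⟨h1, h2⟩ := h
  obtain ⟨b', hb'⟩ : ∃ b', b' = b + (n - q.length) := ⟨_, rfl⟩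
  rw [← hb'] at h2
  have key : ∀ k < q.length, v (b' + k) = (vals x' q).getD k 0 := by
    intro k
    induction k using Nat.strong_induction_on with
    | _ k ih =>
      intro hk
      rw [h2 k hk, vals_getD_eq x' q hk, List.getD_eq_getElem _ _ hk]
      have href : ∀ i, v (ref z b' k i) = (vals x' (q.take k)).getD i 0 := by
        intro i
        rw [vals_getD_take]
        unfold ref
        split_ifs with hi
        · exact ih i hi (by omega)
        · exact hz
      cases q[k] with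
      | one => rfl
      | var i => exact hr i
      | add i j => simp only [cg, Gate.eqv, Gate.val, href]
      | sub i j => simp only [cg, Gate.eqv, Gate.val, href]
      | mul i j => simp only [cg, Gate.eqv, Gate.val, href]
  rw [value_eq_getD]
  rcases Nat.eq_zero_or_pos q.length with h0 | h0
  · have h3 := h1 (n - 1) (by omega)
    rw [show b + n - 1 = b + (n - 1) by omega, h3]
    simp only [Gate.eqv, sub_self]
    rw [List.getD_eq_default _ _ (by rw [length_vals]; omega)]
  · rw [← key (q.length - 1) (by omega)]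
    congr 1
    omega

/-- The doubly exponential constants: after `one` (at `0`) and `zero` (at `1`), the number
`2 ^ (2 ^ k)` is at the position `2 + k`, for `k ≤ J`. -/
def preB (J : ℕ) : List Gate :=
  [.one, .sub 0 0, .add 0 0] ++ (List.range J).map (fun k => .mul (2 + k) (2 + k))

theorem length_preB (J : ℕ) : (preB J).length = 3 + J := by
  unfold preB; simp; omega

theorem preB_ok (N J : ℕ) : AllAt (fun k g => g.Ok N k) 0 (preB J) := by
  unfold preB
  rw [allAt_append, allAt_map_range, allAt_cons, allAt_cons, allAt_cons, allAt_nil]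
  simp only [List.length_cons, List.length_nil, Gate.Ok]
  refine ⟨⟨trivial, ⟨by omega, by omega⟩, ⟨by omega, by omega⟩, trivial⟩,
    fun k _ => ⟨by omega, by omega⟩⟩

theorem preB_value {J : ℕ} {x v : ℕ → A} (h : AllAt (fun k g => v k = g.eqv x v) 0 (preB J)) :
    v 0 = 1 ∧ v 1 = 0 ∧ ∀ k ≤ J, v (2 + k) = 2 ^ (2 ^ k) := by
  unfold preB at h
  rw [allAt_append, allAt_map_range, allAt_cons, allAt_cons, allAt_cons, allAt_nil] at h
  obtain ⟨⟨h0, h1, h2, -⟩, h3⟩ := h
  simp only [Gate.eqv, sub_self, Nat.zero_add, List.length_cons, List.length_nil] at h0 h1 h2 h3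
  refine ⟨h0, h1, fun k => ?_⟩
  induction k with
  | zero => intro _; rw [Nat.add_zero]; rw [show (2 : ℕ) = 1 + 1 by rfl, h2, h0]; norm_num
  | succ k ih =>
    intro hk
    have h4 := h3 k (by omega)
    rw [show 2 + (k + 1) = 1 + 1 + 1 + k by ring, h4, ih (by omega), pow_succ 2 k, pow_mul, sq]

end Pool.Agent.Work.MP_859ada_lc

end

section

/-!
# MP_859ada_lc: number theory (Liouville bounds)
-/

set_option autoImplicit false

namespace Pool.Agent.Work.MP_859ada_lc

open Polynomial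

/-! ### Sums of absolute values of the coefficients -/

/-- The sum of the absolute values of the coefficients. -/
noncomputable def l1 (q : ℂ[X]) : ℝ := ∑ i ∈ q.support, ‖q.coeff i‖

theorem l1_eq (q : ℂ[X]) {n : ℕ} (hn : q.natDegree < n) :
    l1 q = ∑ i ∈ Finset.range n, ‖q.coeff i‖ := by
  unfold l1
  refine Finset.sum_subset ?_ ?_
  · intro i hi
    rw [Finset.mem_range]
    exact (le_natDegree_of_mem_supp i hi).trans_lt hn
  · intro i _ hi
    rw [notMem_support_iff] at hi
    rw [hi, norm_zero]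

theorem l1_nonneg (q : ℂ[X]) : 0 ≤ l1 q := Finset.sum_nonneg fun _ _ => norm_nonneg _

theorem coeff_le_l1 (q : ℂ[X]) (i : ℕ) : ‖q.coeff i‖ ≤ l1 q := by
  by_cases hi : i ∈ q.support
  · exact Finset.single_le_sum (f := fun i => ‖q.coeff i‖) (fun _ _ => norm_nonneg _) hi
  · rw [notMem_support_iff] at hi
    rw [hi, norm_zero]
    exact l1_nonneg q

theorem l1_zero : l1 0 = 0 := by simp [l1]

theorem l1_one : l1 1 = 1 := by
  rw [l1_eq 1 (n := 1) (by simp)]
  simp

theorem l1_C_le (a : ℂ) : l1 (C a) = ‖a‖ := by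
  rw [l1_eq (C a) (n := 1) (by simp)]
  simp

theorem l1_X : l1 X = 1 := by
  rw [l1_eq X (n := 2) (by simp)]
  simp [Finset.sum_range_succ, coeff_X]

theorem l1_add_le (p q : ℂ[X]) : l1 (p + q) ≤ l1 p + l1 q := by
  have h1 := natDegree_add_le p q
  set n := max p.natDegree q.natDegree + 1 with hn
  rw [l1_eq (p + q) (n := n) (by omega), l1_eq p (n := n) (by omega),
    l1_eq q (n := n) (by omega), ← Finset.sum_add_distrib]
  exact Finset.sum_le_sum fun i _ => by rw [coeff_add]; exact norm_add_le _ _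

theorem l1_sub_le (p q : ℂ[X]) : l1 (p - q) ≤ l1 p + l1 q := by
  have h1 := natDegree_sub_le p q
  set n := max p.natDegree q.natDegree + 1 with hn
  rw [l1_eq (p - q) (n := n) (by omega), l1_eq p (n := n) (by omega),
    l1_eq q (n := n) (by omega), ← Finset.sum_add_distrib]
  exact Finset.sum_le_sum fun i _ => by rw [coeff_sub]; exact norm_sub_le _ _

/-- The polynomial with the absolute values as coefficients. -/
noncomputable def absP (p : ℂ[X]) : ℝ[X] :=
  ∑ i ∈ Finset.range (p.natDegree + 1), monomial i ‖p.coeff i‖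

theorem coeff_absP (p : ℂ[X]) (i : ℕ) : (absP p).coeff i = ‖p.coeff i‖ := by
  unfold absP
  rw [finsetSum_coeff]
  simp only [coeff_monomial]
  rw [Finset.sum_ite_eq' (Finset.range (p.natDegree + 1)) i (fun j => ‖p.coeff j‖)]
  split_ifs with h
  · rfl
  · rw [coeff_eq_zero_of_natDegree_lt (by simpa using h), norm_zero]

theorem eval_absP (p : ℂ[X]) : (absP p).eval 1 = l1 p := by
  unfold absP
  rw [eval_finsetSum, l1_eq p (n := p.natDegree + 1) (by omega)]
  simp

theorem natDegree_absP (p : ℂ[X]) : (absP p).natDegree ≤ p.natDegree := by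
  rw [natDegree_le_iff_coeff_eq_zero]
  intro i hi
  rw [coeff_absP, coeff_eq_zero_of_natDegree_lt hi, norm_zero]

theorem l1_mul_le (p q : ℂ[X]) : l1 (p * q) ≤ l1 p * l1 q := by
  have h1 := natDegree_mul_le (p := p) (q := q)
  have h2 := natDegree_mul_le (p := absP p) (q := absP q)
  have h3 := natDegree_absP p
  have h4 := natDegree_absP q
  rw [l1_eq (p * q) (n := p.natDegree + q.natDegree + 1) (by omega), ← eval_absP p,
    ← eval_absP q, ← eval_mul,
    eval_eq_sum_range' (n := p.natDegree + q.natDegree + 1) (by omega)]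
  refine Finset.sum_le_sum fun i _ => ?_
  rw [one_pow, mul_one, coeff_mul, coeff_mul]
  refine (norm_sum_le _ _).trans (Finset.sum_le_sum fun x _ => ?_)
  rw [norm_mul, coeff_absP, coeff_absP]

theorem l1_value_le {M : ℝ} (hM : 2 ≤ M) {u : ℕ → ℂ[X]} (hu : ∀ i, l1 (u i) ≤ M) {p : List Gate}
    {n : ℕ} (hn : p.length ≤ n) : l1 (value u p) ≤ M ^ (2 ^ n) := by
  have key : ∀ k : ℕ, 1 ≤ M ^ (2 ^ k) := fun k => one_le_pow₀ (by linarith)
  have key2 : ∀ k : ℕ, 2 ≤ M ^ (2 ^ k) := fun k => by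
    calc (2 : ℝ) ≤ M := hM
      _ = M ^ 1 := (pow_one _).symm
      _ ≤ M ^ (2 ^ k) := pow_le_pow_right₀ (by linarith) Nat.one_le_two_pow
  have hs : ∀ k : ℕ, M ^ (2 ^ (k + 1)) = M ^ (2 ^ k) * M ^ (2 ^ k) := fun k => by
    rw [← pow_add]; congr 1; ring
  refine value_induction (fun k a => l1 a ≤ M ^ (2 ^ k)) ?_ ?_ ?_ ?_ ?_ ?_ ?_ hn
  · rw [l1_zero]; linarith [key 0]
  · rw [l1_one]; exact key 0
  · intro i; simpa using hu i
  · intro k a h
    rw [hs]
    nlinarith [key k, h]
  · intro k a b ha hb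
    rw [hs]
    nlinarith [key2 k, l1_add_le a b, ha, hb]
  · intro k a b ha hb
    rw [hs]
    nlinarith [key2 k, l1_sub_le a b, ha, hb]
  · intro k a b ha hb
    rw [hs]
    exact (l1_mul_le a b).trans (mul_le_mul ha hb (l1_nonneg _) (by linarith [key k]))

/-- Cauchy's bound. -/
theorem norm_root_le {q : ℂ[X]} (hq : q ≠ 0) {z : ℂ} (hz : q.eval z = 0) {S : ℝ}
    (hS : ∀ i, ‖q.coeff i‖ ≤ S) : ‖z‖ ≤ S / ‖q.leadingCoeff‖ + 1 := by
  have h := (IsRoot.norm_lt_cauchyBound hq (show q.IsRoot z from hz)).le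
  have hl : 0 < ‖q.leadingCoeff‖ := norm_pos_iff.2 (leadingCoeff_ne_zero.2 hq)
  have h2 : (‖z‖ : ℝ) ≤ (cauchyBound q : ℝ) := by exact_mod_cast h
  refine h2.trans ?_
  unfold cauchyBound
  push_cast
  have h3 : ((Finset.range q.natDegree).sup (fun i => ‖q.coeff i‖₊) : NNReal) ≤
      ⟨S, (norm_nonneg _).trans (hS 0)⟩ := by
    refine Finset.sup_le fun i _ => ?_
    exact hS i
  have h4 : (((Finset.range q.natDegree).sup (fun i => ‖q.coeff i‖₊) : NNReal) : ℝ) ≤ S := h3
  gcongr

/-! ### Norms -/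

section norm

variable {K : Type*} [Field K] [Algebra ℚ K] [FiniteDimensional ℚ K]

theorem one_le_prod_embeddings {γ : K} (hγ : IsIntegral ℤ γ) (h0 : γ ≠ 0) :
    ∃ n : ℤ, n ≠ 0 ∧ (n : ℂ) = ∏ σ : K →ₐ[ℚ] ℂ, σ γ := by
  have h1 : IsIntegral ℤ (Algebra.norm ℚ γ) := Algebra.isIntegral_norm ℚ hγ
  obtain ⟨n, hn⟩ := IsIntegrallyClosed.isIntegral_iff.1 h1
  refine ⟨n, ?_, ?_⟩
  · rintro rfl
    rw [map_zero] at hn
    exact h0 (Algebra.norm_eq_zero_iff.1 hn.symm)
  · rw [← Algebra.norm_eq_prod_embeddings ℚ ℂ γ, ← hn]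
    simp

/-- The lower bound for algebraic integers. -/
theorem nt0 {γ : K} (hγ : IsIntegral ℤ γ) (h0 : γ ≠ 0) {N : ℕ}
    (hN : Module.finrank ℚ K ≤ N) {B : ℝ} (hB : 1 ≤ B) (hb : ∀ σ : K →ₐ[ℚ] ℂ, ‖σ γ‖ ≤ B)
    (σ : K →ₐ[ℚ] ℂ) : 1 ≤ ‖σ γ‖ * B ^ N := by
  classical
  obtain ⟨n, hn, hp⟩ := one_le_prod_embeddings hγ h0
  have h1 : (1 : ℝ) ≤ ‖(n : ℂ)‖ := by
    rw [Complex.norm_intCast]
    exact_mod_cast Int.one_le_abs hn
  rw [hp, norm_prod, ← Finset.mul_prod_erase _ _ (Finset.mem_univ σ)] at h1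
  refine h1.trans (mul_le_mul_of_nonneg_left ?_ (norm_nonneg _))
  calc ∏ τ ∈ Finset.univ.erase σ, ‖τ γ‖ ≤ ∏ _τ ∈ Finset.univ.erase σ, B :=
        Finset.prod_le_prod (fun _ _ => norm_nonneg _) (fun τ _ => hb τ)
    _ = B ^ (Finset.univ.erase σ).card := by rw [Finset.prod_const]
    _ ≤ B ^ N := by
        refine pow_le_pow_right₀ hB ?_
        refine (Finset.card_erase_le).trans ?_
        rw [Finset.card_univ, AlgHom.card]
        exact hN

/-- The product of the conjugates of an algebraic integer is an integer multiple. -/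
theorem nt_norm {γ : K} (hγ : IsIntegral ℤ γ) (h0 : γ ≠ 0) {N : ℕ}
    (hN : Module.finrank ℚ K ≤ N) {B : ℝ} (hB : 1 ≤ B) (hb : ∀ σ : K →ₐ[ℚ] ℂ, ‖σ γ‖ ≤ B)
    (ι : K →ₐ[ℚ] ℂ) :
    ∃ a : ℕ, 0 < a ∧ (a : ℝ) ≤ B ^ N ∧ IsIntegral ℤ ((a : K) * γ⁻¹) := by
  classical
  obtain ⟨n, hn, hp⟩ := one_le_prod_embeddings hγ h0
  have hint : IsIntegral ℤ ((n : K) * γ⁻¹) := by
    have h1 : IsIntegral ℤ (ι ((n : K) * γ⁻¹)) := by
      have h2 : ι ((n : K) * γ⁻¹) = ∏ τ ∈ Finset.univ.erase ι, τ γ := by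
        rw [map_mul, map_inv₀, map_intCast, hp, ← Finset.mul_prod_erase _ _ (Finset.mem_univ ι)]
        have : ι γ ≠ 0 := (map_ne_zero ι).2 h0
        field_simp
      rw [h2]
      refine IsIntegral.prod _ fun τ _ => ?_
      exact hγ.map (τ.restrictScalars ℤ)
    exact (isIntegral_algHom_iff (ι.restrictScalars ℤ) ι.injective).1 h1
  refine ⟨n.natAbs, Int.natAbs_pos.2 hn, ?_, ?_⟩
  · have h3 : ((n.natAbs : ℕ) : ℝ) = ‖(n : ℂ)‖ := by
      rw [Complex.norm_intCast, Nat.cast_natAbs, Int.cast_abs]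
    rw [h3, hp, norm_prod]
    calc ∏ τ : K →ₐ[ℚ] ℂ, ‖τ γ‖ ≤ ∏ _τ : K →ₐ[ℚ] ℂ, B :=
          Finset.prod_le_prod (fun _ _ => norm_nonneg _) (fun τ _ => hb τ)
      _ = B ^ (Finset.univ : Finset (K →ₐ[ℚ] ℂ)).card := by rw [Finset.prod_const]
      _ ≤ B ^ N := by
          refine pow_le_pow_right₀ hB ?_
          rw [Finset.card_univ, AlgHom.card]
          exact hN
  · rcases Int.natAbs_eq n with h | h
    · have : ((n.natAbs : ℕ) : K) = (n : K) := by
        conv_rhs => rw [h]
        simp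
      rwa [this]
    · have : ((n.natAbs : ℕ) : K) = -(n : K) := by
        conv_rhs => rw [h]
        simp
      rw [this, neg_mul]
      exact hint.neg

/-- Size data for a family of elements of a number field. -/
structure AD (K : Type*) [Field K] [Algebra ℚ K] (b : ℕ) (z : ℕ → K) : Prop where
  den : ∃ a : ℕ, 0 < a ∧ (a : ℝ) ≤ 2 ^ b ∧ ∀ i, IsIntegral ℤ ((a : K) * z i)
  bd : ∀ (σ : K →ₐ[ℚ] ℂ) i, ‖σ (z i)‖ ≤ 2 ^ b

omit [FiniteDimensional ℚ K] in
theorem AD.mono {b b' : ℕ} {z : ℕ → K} (h : AD K b z) (hb : b ≤ b') : AD K b' z := by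
  obtain ⟨a, h1, h2, h3⟩ := h.den
  have h4 : (2 : ℝ) ^ b ≤ 2 ^ b' := pow_le_pow_right₀ (by norm_num) hb
  exact ⟨⟨a, h1, h2.trans h4, h3⟩, fun σ i => (h.bd σ i).trans h4⟩

omit [FiniteDimensional ℚ K] in
/-- Integrality of the values. -/
theorem isIntegral_value {R : Type*} [CommRing R] {a : ℕ} {z : ℕ → R}
    (h : ∀ i, IsIntegral ℤ ((a : R) * z i)) {p : List Gate} {n : ℕ} (hn : p.length ≤ n) :
    IsIntegral ℤ ((a : R) ^ (2 ^ n) * value z p) := by
  have ha : ∀ k : ℕ, IsIntegral ℤ ((a : R) ^ k) := fun k => (isIntegral_natCast (a := a)).pow k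
  have hs : ∀ k : ℕ, (a : R) ^ (2 ^ (k + 1)) = (a : R) ^ (2 ^ k) * (a : R) ^ (2 ^ k) := fun k => by
    rw [← pow_add]; congr 1; ring
  refine value_induction (fun k v => IsIntegral ℤ ((a : R) ^ (2 ^ k) * v)) ?_ ?_ ?_ ?_ ?_ ?_ ?_ hn
  · simpa using isIntegral_zero
  · simpa using ha 1
  · intro i; simpa using h i
  · intro k v hv
    rw [hs, mul_assoc]
    exact (ha _).mul hv
  · intro k u v hu hv
    rw [hs, mul_assoc, mul_add]
    exact (ha _).mul (hu.add hv)
  · intro k u v hu hv
    rw [hs, mul_assoc, mul_sub]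
    exact (ha _).mul (hu.sub hv)
  · intro k u v hu hv
    have e : (a : R) ^ (2 ^ (k + 1)) * (u * v) = ((a : R) ^ (2 ^ k) * u) * ((a : R) ^ (2 ^ k) * v) := by
      rw [hs]; ring
    rw [e]
    exact hu.mul hv

/-- Liouville's inequality for values of straight-line programs. -/
theorem liouville {N : ℕ} (hN : Module.finrank ℚ K ≤ N) {b : ℕ} (hb : 1 ≤ b) {z : ℕ → K}
    (h : AD K b z) {p : List Gate} {n : ℕ} (hn : p.length ≤ n) (h0 : value z p ≠ 0)
    (σ : K →ₐ[ℚ] ℂ) : 1 ≤ ‖σ (value z p)‖ * 2 ^ (3 * b * 2 ^ n * N) := by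
  obtain ⟨a, h1, h2, h3⟩ := h.den
  have hN1 : 1 ≤ N := (Module.finrank_pos (R := ℚ) (M := K)).trans_le hN
  have ha0 : (a : K) ≠ 0 := by
    have : CharZero K := algebraRat.charZero K
    exact_mod_cast h1.ne'
  have hint := isIntegral_value h3 hn
  have hne : (a : K) ^ (2 ^ n) * value z p ≠ 0 := mul_ne_zero (pow_ne_zero _ ha0) h0
  have hM : (2 : ℝ) ≤ 2 ^ b := by
    calc (2 : ℝ) = 2 ^ 1 := by norm_num
      _ ≤ 2 ^ b := pow_le_pow_right₀ (by norm_num) hb
  have hval : ∀ τ : K →ₐ[ℚ] ℂ, ‖τ (value z p)‖ ≤ (2 ^ b) ^ (2 ^ n) := by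
    intro τ
    have := value_map (τ : K →+* ℂ) z p
    rw [show τ (value z p) = (τ : K →+* ℂ) (value z p) from rfl, ← this]
    exact norm_value_le hM (fun i => h.bd τ i) hn
  have hbd : ∀ τ : K →ₐ[ℚ] ℂ, ‖τ ((a : K) ^ (2 ^ n) * value z p)‖ ≤ 2 ^ (2 * b * 2 ^ n) := by
    intro τ
    rw [map_mul, map_pow, map_natCast, norm_mul, norm_pow, Complex.norm_natCast]
    calc (a : ℝ) ^ (2 ^ n) * ‖τ (value z p)‖ ≤ (2 ^ b) ^ (2 ^ n) * (2 ^ b) ^ (2 ^ n) := by
          gcongr
          exact hval τ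
      _ = 2 ^ (2 * b * 2 ^ n) := by
          rw [← pow_mul, ← pow_add]; congr 1; ring
  have h5 := nt0 hint hne hN (one_le_pow₀ (by norm_num)) hbd σ
  rw [map_mul, map_pow, map_natCast, norm_mul, norm_pow, Complex.norm_natCast] at h5
  refine h5.trans ?_
  calc (a : ℝ) ^ (2 ^ n) * ‖σ (value z p)‖ * (2 ^ (2 * b * 2 ^ n)) ^ N
      ≤ (2 ^ b) ^ (2 ^ n) * ‖σ (value z p)‖ * (2 ^ (2 * b * 2 ^ n)) ^ N := by gcongr
    _ = ‖σ (value z p)‖ * 2 ^ (b * 2 ^ n + 2 * b * 2 ^ n * N) := by
        rw [pow_add, ← pow_mul, ← pow_mul]; ring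
    _ ≤ ‖σ (value z p)‖ * 2 ^ (3 * b * 2 ^ n * N) := by
        refine mul_le_mul_of_nonneg_left (pow_le_pow_right₀ (by norm_num) ?_) (norm_nonneg _)
        nlinarith [Nat.zero_le (b * 2 ^ n), Nat.mul_le_mul_left (b * 2 ^ n) hN1]

omit [Algebra ℚ K] [FiniteDimensional ℚ K] in
/-- Integrality of the coefficients. -/
theorem isIntegral_coeff {a : ℕ} {z : ℕ → K} (h : ∀ i, IsIntegral ℤ ((a : K) * z i)) (j : ℕ)
    {p : List Gate} {n : ℕ} (hn : p.length ≤ n) (i : ℕ) :
    IsIntegral ℤ ((a : K) ^ (2 ^ n) * (polyAt z j p).coeff i) := by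
  have ha : ∀ k : ℕ, IsIntegral ℤ ((a : K) ^ k) := fun k => (isIntegral_natCast (a := a)).pow k
  have hs : ∀ k : ℕ, (a : K) ^ (2 ^ (k + 1)) = (a : K) ^ (2 ^ k) * (a : K) ^ (2 ^ k) := fun k => by
    rw [← pow_add]; congr 1; ring
  refine value_induction (fun k (v : K[X]) => ∀ i, IsIntegral ℤ ((a : K) ^ (2 ^ k) * v.coeff i))
    ?_ ?_ ?_ ?_ ?_ ?_ ?_ hn i
  · intro i; simpa using isIntegral_zero
  · intro i
    rw [coeff_one]
    split_ifs
    · simpa using ha 1
    · simpa using isIntegral_zero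
  · intro k i
    split_ifs
    · rw [coeff_C]
      split_ifs
      · simpa using h k
      · simpa using isIntegral_zero
    · rw [coeff_X]
      split_ifs
      · simpa using ha 1
      · simpa using isIntegral_zero
    · simpa using isIntegral_zero
  · intro k v hv i
    rw [hs, mul_assoc]
    exact (ha _).mul (hv i)
  · intro k u v hu hv i
    rw [hs, mul_assoc, coeff_add, mul_add]
    exact (ha _).mul ((hu i).add (hv i))
  · intro k u v hu hv i
    rw [hs, mul_assoc, coeff_sub, mul_sub]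
    exact (ha _).mul ((hu i).sub (hv i))
  · intro k u v hu hv i
    rw [coeff_mul, Finset.mul_sum]
    refine IsIntegral.sum _ fun x _ => ?_
    have e : (a : K) ^ (2 ^ (k + 1)) * (u.coeff x.1 * v.coeff x.2) =
        ((a : K) ^ (2 ^ k) * u.coeff x.1) * ((a : K) ^ (2 ^ k) * v.coeff x.2) := by
      rw [hs]; ring
    rw [e]
    exact (hu _).mul (hv _)

omit [Algebra ℚ K] [FiniteDimensional ℚ K] in
/-- The leading coefficient times a root is integral. -/
theorem isIntegral_lc_mul {q : K[X]} (hq : ∀ i, IsIntegral ℤ (q.coeff i)) {y : K}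
    (hy : q.eval y = 0) : IsIntegral ℤ (q.leadingCoeff * y) := by
  have hl : q ∈ lifts (algebraMap (integralClosure ℤ K) K) := by
    rw [lifts_iff_coeff_lifts]
    intro i
    exact ⟨⟨q.coeff i, hq i⟩, rfl⟩
  obtain ⟨r, hr⟩ := hl
  have hr' : r.map (algebraMap (integralClosure ℤ K) K) = q := hr
  have h0 : aeval y r = 0 := by
    rw [aeval_def, ← eval_map, hr', hy]
  have h1 := isIntegral_leadingCoeff_smul r y h0
  have h2 : r.leadingCoeff • y = q.leadingCoeff * y := by
    rw [Algebra.smul_def]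
    congr 1
    rw [← hr', leadingCoeff_map_of_injective]
    exact Subtype.val_injective
  rw [h2] at h1
  exact isIntegral_trans (R := ℤ) _ h1

/-- The root of a polynomial with coefficients of bounded size has bounded size. -/
theorem ad_root {N : ℕ} (hN : Module.finrank ℚ K ≤ N) {b : ℕ} (hb : 1 ≤ b) {z : ℕ → K}
    (h : AD K b z) (j : ℕ) {p : List Gate} {n : ℕ} (hn : p.length ≤ n) (hq : polyAt z j p ≠ 0)
    {y : K} (hy : (polyAt z j p).eval y = 0) (ι : K →ₐ[ℚ] ℂ) :
    ∃ a : ℕ, 0 < a ∧ (a : ℝ) ≤ 2 ^ (5 * b * 2 ^ n * N) ∧ IsIntegral ℤ ((a : K) * y) ∧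
      ∀ σ : K →ₐ[ℚ] ℂ, ‖σ y‖ ≤ 2 ^ (5 * b * 2 ^ n * N) := by
  obtain ⟨a, h1, h2, h3⟩ := h.den
  have hN1 : 1 ≤ N := (Module.finrank_pos (R := ℚ) (M := K)).trans_le hN
  have ha0 : (a : K) ≠ 0 := by
    have : CharZero K := algebraRat.charZero K
    exact_mod_cast h1.ne'
  have hM : (2 : ℝ) ≤ 2 ^ b := by
    calc (2 : ℝ) = 2 ^ 1 := by norm_num
      _ ≤ 2 ^ b := pow_le_pow_right₀ (by norm_num) hb
  obtain ⟨S, hS⟩ : ∃ S : ℝ, S = 2 ^ (2 * b * 2 ^ n) := ⟨_, rfl⟩
  have hS1 : 1 ≤ S := by rw [hS]; exact one_le_pow₀ (by norm_num)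
  obtain ⟨q, hqdef⟩ : ∃ q : K[X], q = C ((a : K) ^ (2 ^ n)) * polyAt z j p := ⟨_, rfl⟩
  have hcoef : ∀ i, IsIntegral ℤ (q.coeff i) := by
    intro i
    rw [hqdef, coeff_C_mul]
    exact isIntegral_coeff h3 j hn i
  have hq0 : q ≠ 0 := by
    rw [hqdef]
    exact mul_ne_zero (C_ne_zero.2 (pow_ne_zero _ ha0)) hq
  have hy0 : q.eval y = 0 := by rw [hqdef, eval_mul, hy, mul_zero]
  have hcb : ∀ (σ : K →ₐ[ℚ] ℂ) i, ‖σ (q.coeff i)‖ ≤ S := by
    intro σ i
    have e1 : σ (q.coeff i) = (a : ℂ) ^ (2 ^ n) * (polyAt (fun k => σ (z k)) j p).coeff i := by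
      have e2 := polyAt_map (σ : K →+* ℂ) z j p
      have e3 : (polyAt (fun k => σ (z k)) j p).coeff i = σ ((polyAt z j p).coeff i) := by
        have : (fun k => σ (z k)) = fun k => (σ : K →+* ℂ) (z k) := rfl
        rw [this, ← e2, coeff_map]; rfl
      rw [e3, hqdef, coeff_C_mul, map_mul, map_pow, map_natCast]
    rw [e1, norm_mul, norm_pow, Complex.norm_natCast, hS]
    have e4 : ‖(polyAt (fun k => σ (z k)) j p).coeff i‖ ≤ (2 ^ b) ^ (2 ^ n) := by
      refine (coeff_le_l1 _ _).trans ?_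
      unfold polyAt
      refine l1_value_le hM (fun k => ?_) hn
      dsimp only
      split_ifs
      · rw [l1_C_le]; exact h.bd σ k
      · rw [l1_X]; linarith
      · rw [l1_zero]; linarith
    calc (a : ℝ) ^ (2 ^ n) * ‖(polyAt (fun k => σ (z k)) j p).coeff i‖
        ≤ (2 ^ b) ^ (2 ^ n) * (2 ^ b) ^ (2 ^ n) := by gcongr
      _ = 2 ^ (2 * b * 2 ^ n) := by rw [← pow_mul, ← pow_add]; congr 1; ring
  obtain ⟨c, hc⟩ : ∃ c : K, c = q.leadingCoeff := ⟨_, rfl⟩
  have hc0 : c ≠ 0 := by rw [hc]; exact leadingCoeff_ne_zero.2 hq0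
  have hcint : IsIntegral ℤ c := by rw [hc]; exact hcoef _
  have hcS : ∀ σ : K →ₐ[ℚ] ℂ, ‖σ c‖ ≤ S := fun σ => by rw [hc]; exact hcb σ _
  obtain ⟨a', g1, g2, g3⟩ := nt_norm hcint hc0 hN hS1 hcS ι
  have hcy : IsIntegral ℤ (c * y) := by rw [hc]; exact isIntegral_lc_mul hcoef hy0
  have hbn : 1 ≤ b * 2 ^ n * N := Nat.succ_le_of_lt (by positivity)
  refine ⟨a', g1, ?_, ?_, ?_⟩
  · refine g2.trans ?_
    rw [hS, ← pow_mul]
    refine pow_le_pow_right₀ (by norm_num) ?_
    nlinarith
  · have e : (a' : K) * y = (a' * c⁻¹) * (c * y) := by field_simp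
    rw [e]
    exact g3.mul hcy
  · intro σ
    have h5 := nt0 hcint hc0 hN hS1 hcS σ
    have hmap : q.map (σ : K →+* ℂ) ≠ 0 := (Polynomial.map_ne_zero_iff (σ : K →+* ℂ).injective).2 hq0
    have hroot : (q.map (σ : K →+* ℂ)).eval (σ y) = 0 := by
      have : (q.map (σ : K →+* ℂ)).eval ((σ : K →+* ℂ) y) = (σ : K →+* ℂ) (q.eval y) := by
        rw [eval_map, eval₂_at_apply]
      change (q.map (σ : K →+* ℂ)).eval ((σ : K →+* ℂ) y) = 0
      rw [this, hy0, map_zero]
    have h6 := norm_root_le hmap hroot (S := S) (fun i => by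
      rw [coeff_map]; exact hcb σ i)
    have h7 : (q.map (σ : K →+* ℂ)).leadingCoeff = σ c := by
      rw [leadingCoeff_map_of_injective (σ : K →+* ℂ).injective, hc]; rfl
    rw [h7] at h6
    have hpos : 0 < ‖σ c‖ := norm_pos_iff.2 ((map_ne_zero σ).2 hc0)
    have h8 : S / ‖σ c‖ ≤ S * S ^ N := by
      rw [div_le_iff₀ hpos]
      calc S = S * 1 := (mul_one S).symm
        _ ≤ S * (‖σ c‖ * S ^ N) := by gcongr
        _ = S * S ^ N * ‖σ c‖ := by ring
    calc ‖σ y‖ ≤ S * S ^ N + 1 := h6.trans (by linarith)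
      _ ≤ S * S ^ N + S * S ^ N := by
          have : 1 ≤ S * S ^ N := one_le_mul_of_one_le_of_one_le hS1 (one_le_pow₀ hS1)
          linarith
      _ = 2 ^ (1 + 2 * b * 2 ^ n * (N + 1)) := by
          rw [hS, ← pow_mul, ← pow_add, pow_add 2 1]
          ring
      _ ≤ 2 ^ (5 * b * 2 ^ n * N) := by
          refine pow_le_pow_right₀ (by norm_num) ?_
          nlinarith [Nat.mul_le_mul_left (b * 2 ^ n) hN1]

end norm

end Pool.Agent.Work.MP_859ada_lc

end

section

/-!
# MP_859ada_lc: the gap theorems for triangular systems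
-/

set_option autoImplicit false

namespace Pool.Agent.Work.MP_859ada_lc

open Polynomial IntermediateField

/-- The first `m` equations of the triangular system hold, and they are not degenerate. -/
def Exact {A : Type*} [CommRing A] (fs : ℕ → List Gate) (m : ℕ) (y : ℕ → A) : Prop :=
  ∀ j < m, polyAt y j (fs j) ≠ 0 ∧ (polyAt y j (fs j)).eval (y j) = 0

theorem polyAt_congr {A : Type*} [CommRing A] {y y' : ℕ → A} {j : ℕ} (h : ∀ k < j, y k = y' k)
    (p : List Gate) : polyAt y j p = polyAt y' j p := by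
  unfold polyAt
  refine value_congr fun k _ => ?_
  split_ifs with h1
  · rw [h k h1]
  · rfl
  · rfl

/-- Adjoining a root. -/
theorem adjoin_root (K : IntermediateField ℚ ℂ) [FiniteDimensional ℚ K] {N d : ℕ}
    (hN : Module.finrank ℚ K ≤ N) {q : K[X]} (hq : q ≠ 0) (hd : q.natDegree ≤ d) {α : ℂ}
    (hα : aeval α q = 0) :
    ∃ K' : IntermediateField ℚ ℂ, K ≤ K' ∧ FiniteDimensional ℚ K' ∧
      Module.finrank ℚ K' ≤ N * d ∧ α ∈ K' := by
  have hint : IsIntegral K α := by
    have : IsAlgebraic K α := ⟨q, hq, hα⟩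
    exact this.isIntegral
  have hfin : FiniteDimensional K K⟮α⟯ := adjoin.finiteDimensional hint
  have hrank : Module.finrank K K⟮α⟯ ≤ d := by
    rw [adjoin.finrank hint]
    exact (natDegree_le_of_dvd (minpoly.dvd K α hα) hq).trans hd
  refine ⟨K⟮α⟯.restrictScalars ℚ, ?_, ?_, ?_, ?_⟩
  · intro x hx
    have := K⟮α⟯.algebraMap_mem ⟨x, hx⟩
    exact this
  · exact Module.Finite.trans (R := ℚ) K K⟮α⟯
  · have := Module.finrank_mul_finrank ℚ K K⟮α⟯
    change Module.finrank ℚ K⟮α⟯ ≤ N * d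
    rw [← this]
    exact Nat.mul_le_mul hN hrank
  · exact mem_adjoin_simple_self K α

/-- The inclusion. -/
noncomputable def emb (K : IntermediateField ℚ ℂ) : K →ₐ[ℚ] ℂ := (algebraMap K ℂ).toRatAlgHom

theorem emb_apply (K : IntermediateField ℚ ℂ) (x : K) : emb K x = (x : ℂ) := rfl

/-- The family `y` truncated at `j`, in a field. -/
noncomputable def trunc (K : IntermediateField ℚ ℂ) (y : ℕ → ℂ) (j : ℕ) (k : ℕ) : K := by
  classical
  exact if h : k < j ∧ y k ∈ K then ⟨y k, h.2⟩ else 0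

theorem trunc_val {K : IntermediateField ℚ ℂ} {y : ℕ → ℂ} {j k : ℕ} (h1 : k < j) (h2 : y k ∈ K) :
    ((trunc K y j k : K) : ℂ) = y k := by
  unfold trunc
  rw [dif_pos ⟨h1, h2⟩]

theorem trunc_zero {K : IntermediateField ℚ ℂ} {y : ℕ → ℂ} {j k : ℕ} (h1 : ¬ k < j) :
    trunc K y j k = 0 := by
  unfold trunc
  rw [dif_neg (fun h => h1 h.1)]

theorem polyAt_trunc {K : IntermediateField ℚ ℂ} {y : ℕ → ℂ} {j : ℕ} (h : ∀ k < j, y k ∈ K)
    (p : List Gate) : (polyAt (trunc K y j) j p).map (algebraMap K ℂ) = polyAt y j p := by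
  rw [polyAt_map]
  refine polyAt_congr (fun k hk => ?_) p
  exact trunc_val hk (h k hk)

theorem polyAt_trunc_ne {K : IntermediateField ℚ ℂ} {y : ℕ → ℂ} {j : ℕ} (h : ∀ k < j, y k ∈ K)
    {p : List Gate} (hp : polyAt y j p ≠ 0) : polyAt (trunc K y j) j p ≠ 0 := by
  intro h0
  apply hp
  rw [← polyAt_trunc h, h0, Polynomial.map_zero]

theorem exists_field {n : ℕ} {fs : ℕ → List Gate} (hlen : ∀ j, (fs j).length ≤ n) (m : ℕ)
    (y : ℕ → ℂ) (h : Exact fs m y) :
    ∃ K : IntermediateField ℚ ℂ, FiniteDimensional ℚ K ∧ Module.finrank ℚ K ≤ (2 ^ n) ^ m ∧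
      ∀ j < m, y j ∈ K := by
  induction m with
  | zero =>
    refine ⟨⊥, inferInstance, ?_, fun j hj => absurd hj (by omega)⟩
    simp
  | succ m ih =>
    obtain ⟨K, hK, hN, hy⟩ := ih (fun j hj => h j (by omega))
    obtain ⟨h1, h2⟩ := h m (by omega)
    obtain ⟨K', h3, h4, h5, h6⟩ := adjoin_root K hN (q := polyAt (trunc K y m) m (fs m))
      (polyAt_trunc_ne hy h1) (natDegree_polyAt_le _ _ (hlen m)) (α := y m) (by
        rw [aeval_def, ← eval_map, polyAt_trunc hy, h2])
    refine ⟨K', h4, by rw [pow_succ]; exact h5, fun j hj => ?_⟩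
    rcases Nat.lt_succ_iff_lt_or_eq.1 hj with hj | rfl
    · exact h3 (hy j hj)
    · exact h6

/-- Combination of size data. -/
theorem AD.comb {K : Type*} [Field K] [Algebra ℚ K] {b b' : ℕ} {z : ℕ → K} (h : AD K b z) {a : ℕ}
    {y : K} (h1 : 0 < a) (h2 : (a : ℝ) ≤ 2 ^ b') (h3 : IsIntegral ℤ ((a : K) * y))
    (h4 : ∀ σ : K →ₐ[ℚ] ℂ, ‖σ y‖ ≤ 2 ^ b') {z' : ℕ → K}
    (hz : ∀ i, z' i = y ∨ z' i = 0 ∨ ∃ k, z' i = z k) : AD K (b + b') z' := by
  obtain ⟨a0, g1, g2, g3⟩ := h.den
  have hb : (2 : ℝ) ^ b ≤ 2 ^ (b + b') := pow_le_pow_right₀ (by norm_num) (by omega)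
  have hb' : (2 : ℝ) ^ b' ≤ 2 ^ (b + b') := pow_le_pow_right₀ (by norm_num) (by omega)
  refine ⟨⟨a0 * a, by positivity, ?_, fun i => ?_⟩, fun σ i => ?_⟩
  · push_cast
    rw [pow_add]
    exact mul_le_mul g2 h2 (by positivity) (by positivity)
  · push_cast
    rcases hz i with hi | hi | ⟨k, hi⟩
    · rw [hi, mul_assoc]
      exact (isIntegral_natCast (a := _)).mul h3
    · rw [hi, mul_zero]; exact isIntegral_zero
    · rw [hi, mul_comm (a0 : K), mul_assoc]
      exact (isIntegral_natCast (a := _)).mul (g3 k)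
  · rcases hz i with hi | hi | ⟨k, hi⟩
    · rw [hi]; exact (h4 σ).trans hb'
    · rw [hi, map_zero, norm_zero]; positivity
    · rw [hi]; exact (h.bd σ k).trans hb

theorem AD.zero {K : Type*} [Field K] [Algebra ℚ K] (b : ℕ) : AD K b (fun _ => 0) := by
  refine ⟨⟨1, one_pos, ?_, fun i => ?_⟩, fun σ i => ?_⟩
  · rw [Nat.cast_one]; exact one_le_pow₀ (by norm_num)
  · simpa using isIntegral_zero
  · rw [map_zero, norm_zero]; positivity

/-- The sizes of the solutions of a triangular system. -/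
theorem ad_exact {n : ℕ} {fs : ℕ → List Gate} (hlen : ∀ j, (fs j).length ≤ n) {m : ℕ}
    {y : ℕ → ℂ} (h : Exact fs m y) (K : IntermediateField ℚ ℂ) [FiniteDimensional ℚ K] {ν : ℕ}
    (hN : Module.finrank ℚ K ≤ 2 ^ ν) (hy : ∀ j < m, y j ∈ K) (j : ℕ) (hj : j ≤ m) :
    AD K (2 ^ ((n + 3 + ν) * (j + 1))) (trunc K y j) := by
  induction j with
  | zero =>
    have : trunc K y 0 = fun _ => 0 := by funext k; exact trunc_zero (by omega)
    rw [this]
    exact AD.zero _
  | succ j ih =>
    have ih' := ih (by omega)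
    obtain ⟨h1, h2⟩ := h j (by omega)
    have hyj : ∀ k < j, y k ∈ K := fun k hk => hy k (by omega)
    obtain ⟨a, g1, g2, g3, g4⟩ := ad_root hN (Nat.one_le_two_pow) ih' j (hlen j)
      (polyAt_trunc_ne hyj h1) (y := ⟨y j, hy j (by omega)⟩) (by
        have e : (algebraMap K ℂ) ((polyAt (trunc K y j) j (fs j)).eval ⟨y j, hy j (by omega)⟩) =
            0 := by
          rw [← eval₂_at_apply, ← eval_map, polyAt_trunc hyj]
          exact h2
        exact (map_eq_zero (algebraMap K ℂ)).1 e) (emb K)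
    have hcomb := ih'.comb g1 g2 g3 g4 (z' := trunc K y (j + 1)) (by
      intro i
      rcases Nat.lt_trichotomy i j with hi | hi | hi
      · right; right
        refine ⟨i, ?_⟩
        apply Subtype.ext
        rw [trunc_val (by omega) (hy i (by omega)), trunc_val hi (hy i (by omega))]
      · left
        apply Subtype.ext
        rw [trunc_val (by omega) (hy i (by omega)), hi]
      · right; left
        exact trunc_zero (by omega))
    refine hcomb.mono ?_
    have e1 : 2 ^ ((n + 3 + ν) * (j + 1 + 1)) =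
        8 * (2 ^ ((n + 3 + ν) * (j + 1)) * 2 ^ n * 2 ^ ν) := by
      have : (n + 3 + ν) * (j + 1 + 1) = (n + 3 + ν) * (j + 1) + n + ν + 3 := by ring
      rw [this, pow_add, pow_add, pow_add]; ring
    rw [e1]
    have e2 : 2 ^ ((n + 3 + ν) * (j + 1)) ≤ 2 ^ ((n + 3 + ν) * (j + 1)) * 2 ^ n * 2 ^ ν := by
      have h3 : 1 ≤ 2 ^ n := Nat.one_le_two_pow
      have h4 : 1 ≤ 2 ^ ν := Nat.one_le_two_pow
      nlinarith [Nat.mul_le_mul h3 h4, Nat.zero_le (2 ^ ((n + 3 + ν) * (j + 1)))]
    have e3 : 5 * 2 ^ ((n + 3 + ν) * (j + 1)) * 2 ^ n * 2 ^ ν =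
        5 * (2 ^ ((n + 3 + ν) * (j + 1)) * 2 ^ n * 2 ^ ν) := by ring
    omega

/-- The exponent of the gap. -/
def gexp (n m : ℕ) : ℕ := (n * (m + 3) + 3) * (m + 5)

theorem gexp_mono {n m m' : ℕ} (h : m ≤ m') : gexp n m ≤ gexp n m' := by
  unfold gexp
  exact Nat.mul_le_mul (by nlinarith) (by omega)

/-- Bound for the solutions. -/
theorem bound_exact {n : ℕ} {fs : ℕ → List Gate} (hlen : ∀ j, (fs j).length ≤ n) {m : ℕ}
    {y : ℕ → ℂ} (h : Exact fs m y) {j : ℕ} (hj : j < m) : ‖y j‖ ≤ Bg (gexp n m - 1) := by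
  obtain ⟨K, hK, hN, hy⟩ := exists_field hlen m y h
  rw [← pow_mul] at hN
  have hAD := ad_exact hlen h K hN hy m le_rfl
  have h1 := hAD.bd (emb K) j
  have h2 : (emb K) (trunc K y m j) = y j := trunc_val hj (hy j hj)
  rw [h2] at h1
  refine h1.trans ?_
  unfold Bg gexp
  refine pow_le_pow_right₀ (by norm_num) (Nat.pow_le_pow_right (by norm_num) ?_)
  have : (n + 3 + n * m) * (m + 1) + 1 ≤ (n * (m + 3) + 3) * (m + 5) := by nlinarith
  omega

/-- Nonzero values of straight-line programs at a solution are not small. -/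
theorem gap_value {n : ℕ} {fs : ℕ → List Gate} (hlen : ∀ j, (fs j).length ≤ n) {m : ℕ}
    {y : ℕ → ℂ} (h : Exact fs m y) {p : List Gate} (hp : p.length ≤ n) {c : ℕ} (hc : c ≤ 2 ^ n)
    (h0 : (polyAt y m p).eval (c : ℂ) ≠ 0) :
    1 ≤ ‖(polyAt y m p).eval (c : ℂ)‖ * Bg (gexp n m) := by
  obtain ⟨K, hK, hN, hy⟩ := exists_field hlen m y h
  rw [← pow_mul] at hN
  have hAD := ad_exact hlen h K hN hy m le_rfl
  obtain ⟨b, hb⟩ : ∃ b, b = 2 ^ ((n + 3 + n * m) * (m + 1)) := ⟨_, rfl⟩
  rw [← hb] at hAD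
  have hb1 : 1 ≤ b := by rw [hb]; exact Nat.one_le_two_pow
  have hnb : n ≤ b := by
    rw [hb]
    calc n ≤ 2 ^ n := Nat.lt_two_pow_self.le
      _ ≤ _ := Nat.pow_le_pow_right (by norm_num) (by nlinarith [Nat.zero_le (n * m)])
  have hcomb := hAD.comb (a := 1) (b' := b) (y := (c : K)) one_pos
    (by rw [Nat.cast_one]; exact one_le_pow₀ (by norm_num))
    (by rw [Nat.cast_one, one_mul]; exact isIntegral_natCast c)
    (by
      intro σ
      rw [map_natCast, Complex.norm_natCast]
      calc (c : ℝ) ≤ 2 ^ n := by exact_mod_cast hc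
        _ ≤ 2 ^ b := pow_le_pow_right₀ (by norm_num) hnb)
    (z' := fun k => if k < m then trunc K y m k else if k = m then (c : K) else 0)
    (by
      intro i
      split_ifs
      · exact Or.inr (Or.inr ⟨i, rfl⟩)
      · exact Or.inl rfl
      · exact Or.inr (Or.inl rfl))
  have hv : (emb K) (value (fun k => if k < m then trunc K y m k else if k = m then (c : K) else 0) p)
      = (polyAt y m p).eval (c : ℂ) := by
    rw [polyAt_eval]
    have e := value_map ((emb K) : K →+* ℂ)
      (fun k => if k < m then trunc K y m k else if k = m then (c : K) else 0) p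
    change ((emb K) : K →+* ℂ) _ = _
    rw [← e]
    refine value_congr fun k _ => ?_
    split_ifs with h1 h2
    · exact trunc_val h1 (hy k h1)
    · simp
    · simp
  have h1 := liouville hN (by omega) hcomb hp (fun h2 => h0 (by rw [← hv, h2, map_zero])) (emb K)
  rw [hv] at h1
  refine h1.trans (mul_le_mul_of_nonneg_left ?_ (norm_nonneg _))
  unfold Bg gexp
  refine pow_le_pow_right₀ (by norm_num) ?_
  have e1 : 3 * (b + b) * 2 ^ n * 2 ^ (n * m) ≤ 8 * (b * 2 ^ n * 2 ^ (n * m)) := by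
    have : 3 * (b + b) * 2 ^ n * 2 ^ (n * m) = 6 * (b * 2 ^ n * 2 ^ (n * m)) := by ring
    rw [this]
    exact Nat.mul_le_mul_right _ (by norm_num)
  refine e1.trans ?_
  rw [hb, show (8 : ℕ) = 2 ^ 3 by norm_num, ← pow_add, ← pow_add, ← pow_add]
  exact Nat.pow_le_pow_right (by norm_num) (by nlinarith)

/-- Different roots are separated. -/
theorem gap_roots {n : ℕ} (hn : 3 ≤ n) {fs : ℕ → List Gate} (hlen : ∀ j, (fs j).length ≤ n)
    {m : ℕ} {y : ℕ → ℂ} (h : Exact fs m y) {p : List Gate} (hp : p.length ≤ n)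
    (h0 : polyAt y m p ≠ 0) {α β : ℂ} (hα : (polyAt y m p).eval α = 0)
    (hβ : (polyAt y m p).eval β = 0) (hne : α ≠ β) : 1 ≤ ‖α - β‖ * Bg (gexp n m) := by
  obtain ⟨K, hK, hN, hy⟩ := exists_field hlen m y h
  obtain ⟨K1, h1, h2, h3, h4⟩ := adjoin_root K hN (q := polyAt (trunc K y m) m p)
    (polyAt_trunc_ne hy h0) (natDegree_polyAt_le _ _ hp) (α := α) (by
      rw [aeval_def, ← eval_map, polyAt_trunc hy, hα])
  have hy1 : ∀ j < m, y j ∈ K1 := fun j hj => h1 (hy j hj)
  obtain ⟨K2, g1, g2, g3, g4⟩ := adjoin_root K1 h3 (q := polyAt (trunc K1 y m) m p)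
    (polyAt_trunc_ne hy1 h0) (natDegree_polyAt_le _ _ hp) (α := β) (by
      rw [aeval_def, ← eval_map, polyAt_trunc hy1, hβ])
  have hy2 : ∀ j < m, y j ∈ K2 := fun j hj => g1 (hy1 j hj)
  have hα2 : α ∈ K2 := g1 h4
  have hN2 : Module.finrank ℚ K2 ≤ 2 ^ (n * (m + 2)) := by
    refine g3.trans (le_of_eq ?_)
    rw [← pow_mul, ← pow_add, ← pow_add]
    congr 1
  have hAD := ad_exact hlen h K2 hN2 hy2 m le_rfl
  obtain ⟨b, hb⟩ : ∃ b, b = 2 ^ ((n + 3 + n * (m + 2)) * (m + 1)) := ⟨_, rfl⟩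
  rw [← hb] at hAD
  have hb1 : 1 ≤ b := by rw [hb]; exact Nat.one_le_two_pow
  have hroot : ∀ γ : ℂ, ∀ hγ : γ ∈ K2, (polyAt y m p).eval γ = 0 →
      (polyAt (trunc K2 y m) m p).eval ⟨γ, hγ⟩ = 0 := by
    intro γ hγ h5
    have e : (algebraMap K2 ℂ) ((polyAt (trunc K2 y m) m p).eval ⟨γ, hγ⟩) = 0 := by
      rw [← eval₂_at_apply, ← eval_map, polyAt_trunc hy2]
      exact h5
    exact (map_eq_zero (algebraMap K2 ℂ)).1 e
  obtain ⟨a, a1, a2, a3, a4⟩ := ad_root hN2 hb1 hAD m hp (polyAt_trunc_ne hy2 h0)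
    (hroot α hα2 hα) (emb K2)
  obtain ⟨a', c1, c2, c3, c4⟩ := ad_root hN2 hb1 hAD m hp (polyAt_trunc_ne hy2 h0)
    (hroot β g4 hβ) (emb K2)
  have hc1 := hAD.comb a1 a2 a3 a4 (z' := fun _ => ⟨α, hα2⟩) (fun _ => Or.inl rfl)
  have hc2 := hc1.comb c1 c2 c3 c4 (z' := fun k => if k = 0 then ⟨α, hα2⟩ else ⟨β, g4⟩) (by
    intro i
    split_ifs
    · exact Or.inr (Or.inr ⟨0, rfl⟩)
    · exact Or.inl rfl)
  have hval : value (fun k => if k = 0 then (⟨α, hα2⟩ : K2) else ⟨β, g4⟩)
      [Gate.var 0, Gate.var 1, Gate.sub 0 1] = ⟨α, hα2⟩ - ⟨β, g4⟩ := by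
    simp [value, vals, Gate.val]
  have h6 := liouville hN2 (by omega) hc2 (p := [Gate.var 0, Gate.var 1, Gate.sub 0 1]) (n := n)
    (by simpa using hn) (by
      rw [hval, sub_ne_zero]
      intro h7
      exact hne (congrArg Subtype.val h7)) (emb K2)
  rw [hval] at h6
  have h7 : (emb K2) ((⟨α, hα2⟩ : K2) - ⟨β, g4⟩) = α - β := rfl
  rw [h7] at h6
  refine h6.trans (mul_le_mul_of_nonneg_left ?_ (norm_nonneg _))
  unfold Bg gexp
  refine pow_le_pow_right₀ (by norm_num) ?_
  obtain ⟨E, hE⟩ : ∃ E, E = 2 ^ n * 2 ^ (n * (m + 2)) := ⟨_, rfl⟩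
  have hE1 : 1 ≤ E := by rw [hE]; exact Nat.succ_le_of_lt (by positivity)
  have e0 : 5 * b * 2 ^ n * 2 ^ (n * (m + 2)) = 5 * (b * E) := by rw [hE]; ring
  rw [e0]
  have e1 : 3 * (b + 5 * (b * E) + 5 * (b * E)) * 2 ^ n * 2 ^ (n * (m + 2)) ≤ 64 * (b * E * E) := by
    have : 3 * (b + 5 * (b * E) + 5 * (b * E)) * 2 ^ n * 2 ^ (n * (m + 2)) =
        3 * (b + 10 * (b * E)) * E := by rw [hE]; ring
    rw [this]
    have h8 : b * E ≤ b * E * E := Nat.le_mul_of_pos_right _ hE1
    nlinarith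
  refine e1.trans ?_
  rw [hE, hb, show (64 : ℕ) = 2 ^ 6 by norm_num, ← pow_add, ← pow_add, ← pow_add, ← pow_add]
  exact Nat.pow_le_pow_right (by norm_num) (by nlinarith)

end Pool.Agent.Work.MP_859ada_lc

end

section

/-!
# MP_859ada_lc: all variables of a triangular system as functions of one real number

`finA n m fs t ≤ 0` for some real `t` iff the triangular system `fs` (with `m` equations) has a
real solution.
-/

set_option autoImplicit false

namespace Pool.Agent.Work.MP_859ada_lc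

open Polynomial Set

/-- The doubly exponential numbers, in a ring. -/
def bgA (A : Type*) [CommRing A] (k : ℕ) : A := 2 ^ (2 ^ k)

theorem bgA_real (k : ℕ) : bgA ℝ k = Bg k := rfl

/-- Exponents of the radii. -/
def rexp (n m j : ℕ) : ℕ := gexp n m + m + n + 10 + (m - j) * (n + 6)

/-- Exponents of the slopes. -/
def aexp (n m j : ℕ) : ℕ := rexp n m j + n + 6

/-- The variables, as functions of `t`: the stage `j`, where the variables `0, ..., j` have been
computed. -/
def yv {A : Type*} [CommRing A] (n m : ℕ) (fs : ℕ → List Gate) (t : A) : ℕ → ℕ → A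
  | 0 => fun k => if k = 0 then t else 0
  | j + 1 => fun k => if k = j + 1 then
      bgA A (aexp n m j) * value (yv n m fs t j) (fs j) ^ 2 - bgA A (gexp n m + 1)
    else yv n m fs t j k

/-- The final polynomial. -/
def finA {A : Type*} [CommRing A] (n m : ℕ) (fs : ℕ → List Gate) (t : A) : A :=
  bgA A (aexp n m (m - 1)) * value (yv n m fs t (m - 1)) (fs (m - 1)) ^ 2 +
    ∑ j ∈ Finset.range m, yv n m fs t j j ^ (2 ^ (m + 2)) -
    bgA A (m + 1) * bgA A (gexp n m + m + 2)

section basic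

variable {A B : Type*} [CommRing A] [CommRing B] (n m : ℕ) (fs : ℕ → List Gate)

theorem map_bgA (φ : A →+* B) (k : ℕ) : φ (bgA A k) = bgA B k := by
  unfold bgA; rw [map_pow, map_ofNat]

theorem map_yv (φ : A →+* B) (t : A) (j k : ℕ) : φ (yv n m fs t j k) = yv n m fs (φ t) j k := by
  induction j generalizing k with
  | zero => unfold yv; split_ifs <;> simp
  | succ j ih =>
    unfold yv
    split_ifs
    · rw [map_sub, map_mul, map_pow, map_bgA, map_bgA, ← value_map]
      simp only [ih]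
    · exact ih k

theorem map_finA (φ : A →+* B) (t : A) : φ (finA n m fs t) = finA n m fs (φ t) := by
  unfold finA
  rw [map_sub, map_add, map_mul, map_mul, map_pow, map_bgA, map_bgA, map_bgA, ← value_map,
    map_sum]
  simp only [map_yv, map_pow]

variable {n m fs}

theorem yv_gt {t : A} {j k : ℕ} (h : j < k) : yv n m fs t j k = 0 := by
  induction j with
  | zero => unfold yv; rw [if_neg (by omega)]
  | succ j ih => unfold yv; rw [if_neg (by omega)]; exact ih (by omega)

theorem yv_le {t : A} {j k : ℕ} (h : k ≤ j) : yv n m fs t j k = yv n m fs t k k := by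
  induction j with
  | zero => rw [Nat.le_zero.1 h]
  | succ j ih =>
    rcases Nat.lt_or_ge k (j + 1) with h1 | h1
    · rw [← ih (by omega)]
      conv_lhs => unfold yv
      rw [if_neg (by omega)]
    · rw [show k = j + 1 by omega]

theorem value_yv (t : A) (j : ℕ) : value (yv n m fs t j) (fs j) =
    (polyAt (fun k => yv n m fs t k k) j (fs j)).eval (yv n m fs t j j) := by
  rw [polyAt_eval]
  refine value_congr fun k _ => ?_
  split_ifs with h1 h2
  · exact yv_le h1.le
  · rw [h2]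
  · exact yv_gt (by omega)

theorem yv_succ (t : A) (j : ℕ) : yv n m fs t (j + 1) (j + 1) =
    bgA A (aexp n m j) * value (yv n m fs t j) (fs j) ^ 2 - bgA A (gexp n m + 1) := by
  conv_lhs => unfold yv
  rw [if_pos rfl]

end basic

theorem continuous_yv (n m : ℕ) (fs : ℕ → List Gate) (j k : ℕ) :
    Continuous fun t : ℝ => yv n m fs t j k := by
  have h : (fun t : ℝ => yv n m fs t j k) = fun t => (yv n m fs (X : ℝ[X]) j k).eval t := by
    funext t
    have := map_yv n m fs (evalRingHom t) (X : ℝ[X]) j k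
    rw [coe_evalRingHom, eval_X] at this
    exact this.symm
  rw [h]
  exact Polynomial.continuous _

theorem continuous_finA (n m : ℕ) (fs : ℕ → List Gate) :
    Continuous fun t : ℝ => finA n m fs t := by
  have h : (fun t : ℝ => finA n m fs t) = fun t => (finA n m fs (X : ℝ[X])).eval t := by
    funext t
    have := map_finA n m fs (evalRingHom t) (X : ℝ[X])
    rw [coe_evalRingHom, eval_X] at this
    exact this.symm
  rw [h]
  exact Polynomial.continuous _

theorem continuous_value_yv (n m : ℕ) (fs : ℕ → List Gate) (j : ℕ) (p : List Gate) :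
    Continuous fun t : ℝ => value (yv n m fs t j) p := by
  have h : (fun t : ℝ => value (yv n m fs t j) p) =
      fun t => (value (yv n m fs (X : ℝ[X]) j) p).eval t := by
    funext t
    have := value_map (evalRingHom t) (yv n m fs (X : ℝ[X]) j) p
    rw [coe_evalRingHom] at this
    rw [← this]
    refine value_congr fun k _ => ?_
    have := map_yv n m fs (evalRingHom t) (X : ℝ[X]) j k
    rw [coe_evalRingHom, eval_X] at this
    exact this.symm
  rw [h]
  exact Polynomial.continuous _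

/-! ### Numbers -/

theorem Bg_succ' (k : ℕ) : Bg (k + 1) = Bg k * Bg k := by rw [Bg_succ, sq]

theorem four_le_Bg {k : ℕ} (h : 1 ≤ k) : 4 ≤ Bg k := by
  calc (4 : ℝ) = Bg 1 := by unfold Bg; norm_num
    _ ≤ Bg k := Bg_mono h

theorem num_root {e r n : ℕ} (hr : e + 10 ≤ r) {Q qc D : ℝ} (h1 : 1 ≤ qc * Bg e)
    (hD : D ≤ 4 * Bg e) (hD0 : 0 ≤ D) (h2 : qc * ((1 / Bg r) / ((1 / Bg r) + D)) ^ (2 ^ n) ≤ Q) :
    1 ≤ Q * Bg (r + n + 2) := by
  have hqc : 0 < qc := by
    by_contra h
    push Not at h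
    have := mul_nonpos_of_nonpos_of_nonneg h (Bg_pos e).le
    linarith
  have hr0 := Bg_pos r
  have h3 : 1 / Bg (r + 1) ≤ (1 / Bg r) / ((1 / Bg r) + D) := by
    rw [div_le_div_iff₀ (Bg_pos _) (by positivity)]
    have h4 : D + 1 ≤ Bg r := by
      have h5 : Bg (e + 2) ≤ Bg r := Bg_mono (by omega)
      have h6 : Bg (e + 2) = Bg (e + 1) * Bg (e + 1) := Bg_succ' _
      have h7 : Bg (e + 1) = Bg e * Bg e := Bg_succ' _
      have h8 := two_le_Bg e
      have h9 : 4 ≤ Bg (e + 1) := four_le_Bg (by omega)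
      nlinarith
    rw [Bg_succ' r]
    have : 1 * (1 / Bg r + D) ≤ Bg r := by
      have : 1 / Bg r ≤ 1 := by rw [div_le_one hr0]; exact one_le_Bg r
      linarith
    calc 1 * (1 / Bg r + D) ≤ Bg r := this
      _ = 1 / Bg r * (Bg r * Bg r) := by field_simp
  have h4 : 1 / Bg (r + 1 + n) ≤ ((1 / Bg r) / ((1 / Bg r) + D)) ^ (2 ^ n) := by
    calc 1 / Bg (r + 1 + n) = (1 / Bg (r + 1)) ^ (2 ^ n) := by
          rw [div_pow, one_pow, Bg_pow]
      _ ≤ _ := pow_le_pow_left₀ (by have := Bg_pos (r + 1); positivity) h3 _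
  have h5 : 1 ≤ Q * (Bg e * Bg (r + 1 + n)) := by
    have h6 := Bg_pos (r + 1 + n)
    have h7 : qc * (1 / Bg (r + 1 + n)) ≤ Q := (mul_le_mul_of_nonneg_left h4 hqc.le).trans h2
    calc (1 : ℝ) ≤ qc * Bg e := h1
      _ = qc * (1 / Bg (r + 1 + n)) * (Bg e * Bg (r + 1 + n)) := by field_simp
      _ ≤ Q * (Bg e * Bg (r + 1 + n)) := by
          apply mul_le_mul_of_nonneg_right h7
          have := Bg_pos e
          positivity
  have hQ : 0 ≤ Q := by
    by_contra h
    push Not at h
    have := mul_nonpos_of_nonpos_of_nonneg h.le (mul_pos (Bg_pos e) (Bg_pos (r + 1 + n))).le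
    linarith
  exact h5.trans (mul_le_mul_of_nonneg_left (Bg_mul_le (by omega) (by omega)) hQ)

theorem num_contra {Q : ℝ} {k : ℕ} (h1 : 1 ≤ Q * Bg k) (h2 : Q * Bg (k + 1) ≤ 1) : False := by
  rw [Bg_succ'] at h2
  have := two_le_Bg k
  nlinarith

end Pool.Agent.Work.MP_859ada_lc

end

section

/-!
# MP_859ada_lc: the final polynomial as a straight-line program
-/

set_option autoImplicit false

namespace Pool.Agent.Work.MP_859ada_lc

/-- Position of the partial sums. -/
def sIdx (J n m j : ℕ) : ℕ := if j = 0 then 1 else 4 + J + (j - 1) * (n + m + 6) + n + m + 4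

/-- The block `j`. -/
def blockF (J n m : ℕ) (q : List Gate) (j : ℕ) : List Gate :=
  copyB n 1 (4 + J + j * (n + m + 6))
    (fun k => if k ≤ j then .mul (3 + J + k * (n + m + 6)) 0 else .sub 0 0) q ++
  ([.mul (4 + J + j * (n + m + 6) + n - 1) (4 + J + j * (n + m + 6) + n - 1),
    .mul (2 + aexp n m j) (4 + J + j * (n + m + 6) + n)] ++
  ((List.range (m + 2)).map (fun i => if i = 0 then
      .mul (3 + J + j * (n + m + 6)) (3 + J + j * (n + m + 6))
    else .mul (4 + J + j * (n + m + 6) + n + 1 + i) (4 + J + j * (n + m + 6) + n + 1 + i)) ++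
  [.add (sIdx J n m j) (4 + J + j * (n + m + 6) + n + m + 3),
    .sub (4 + J + j * (n + m + 6) + n + 1) (2 + (gexp n m + 1))]))

/-- The program for the final polynomial. -/
def progF (J n m : ℕ) (fs : ℕ → List Gate) : List Gate :=
  preB J ++ ([.var 0] ++ ((List.range m).flatMap (fun j => blockF J n m (fs j) j) ++
  [.add (4 + J + (m - 1) * (n + m + 6) + n + 1) (sIdx J n m m),
    .mul (2 + (m + 1)) (2 + (gexp n m + m + 2)),
    .sub (4 + J + m * (n + m + 6)) (4 + J + m * (n + m + 6) + 1)]))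

theorem length_blockF {J n m : ℕ} {q : List Gate} (hq : q.length ≤ n) (j : ℕ) :
    (blockF J n m q j).length = n + m + 6 := by
  unfold blockF
  rw [List.length_append, length_copyB hq]
  simp
  omega

theorem length_progF {J n m : ℕ} {fs : ℕ → List Gate} (hlen : ∀ j, (fs j).length ≤ n) :
    (progF J n m fs).length = 4 + J + m * (n + m + 6) + 3 := by
  unfold progF
  rw [List.length_append, List.length_append, List.length_append, length_preB,
    length_flatMap_range (W := n + m + 6) (fun j _ => length_blockF (hlen j) j)]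
  simp
  omega

theorem aexp_le (n m j : ℕ) : aexp n m j ≤ aexp n m 0 := by
  unfold aexp rexp
  have := Nat.mul_le_mul_right (n + 6) (show m - j ≤ m - 0 by omega)
  omega

theorem aexp_ge (n m : ℕ) : gexp n m + m + 2 ≤ aexp n m 0 := by
  unfold aexp rexp
  have := Nat.zero_le ((m - 0) * (n + 6))
  omega

theorem progF_wf {J n m : ℕ} (hJ : aexp n m 0 ≤ J) (hn : 1 ≤ n) (hm : 1 ≤ m)
    {fs : ℕ → List Gate} (hlen : ∀ j, (fs j).length ≤ n) : WF 1 (progF J n m fs) := by
  rw [wf_iff]
  unfold progF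
  have hJ2 := aexp_ge n m
  rw [allAt_append, allAt_append, allAt_append, length_preB, allAt_cons, allAt_nil,
    allAt_flatMap_range _ (W := n + m + 6) (fun j _ => length_blockF (hlen j) j),
    length_flatMap_range (W := n + m + 6) (fun j _ => length_blockF (hlen j) j)]
  obtain ⟨W, hW⟩ : ∃ W, W = n + m + 6 := ⟨_, rfl⟩
  have hs : ∀ j ≤ m, sIdx J n m j < 4 + J + j * (n + m + 6) := by
    intro j hj
    unfold sIdx
    split_ifs with h0
    · omega
    · obtain ⟨j', rfl⟩ : ∃ j', j = j' + 1 := ⟨j - 1, by omega⟩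
      rw [Nat.add_sub_cancel, Nat.succ_mul]
      omega
  refine ⟨preB_ok 1 J, ⟨by simp [Gate.Ok], trivial⟩, ?_, ?_⟩
  · intro j hj
    unfold blockF
    have hbase : 0 + (3 + J) + [Gate.var 0].length + j * (n + m + 6) =
      4 + J + j * (n + m + 6) := by simp; omega
    rw [hbase, allAt_append, allAt_append, allAt_append, length_copyB (hlen j), allAt_map_range]
    simp only [allAt_cons, allAt_nil, List.length_cons, List.length_nil, List.length_map,
      List.length_range, Gate.Ok]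
    have ha := aexp_le n m j
    have hsj := hs j hj.le
    rw [← hW] at hsj ⊢
    refine ⟨copyB_ok (by omega) (fun i => ?_), ⟨⟨by omega, by omega⟩, ⟨by omega, by omega⟩,
      trivial⟩, fun i hi => ?_, ⟨by omega, by omega⟩, ⟨by omega, by omega⟩, trivial⟩
    · split_ifs with hi
      · have := Nat.mul_le_mul_right W hi
        exact ⟨by omega, by omega⟩
      · exact ⟨by omega, by omega⟩
    · split_ifs with h0
      · exact ⟨by omega, by omega⟩
      · exact ⟨by omega, by omega⟩
  · simp only [allAt_cons, allAt_nil, List.length_cons, List.length_nil, Gate.Ok]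
    have hsm := hs m le_rfl
    obtain ⟨m', rfl⟩ : ∃ m', m = m' + 1 := ⟨m - 1, by omega⟩
    rw [Nat.add_sub_cancel]
    rw [Nat.succ_mul] at hsm ⊢
    refine ⟨⟨by omega, by omega⟩, ⟨by omega, by omega⟩, ⟨by omega, by omega⟩, trivial⟩

theorem progF_value {A : Type*} [CommRing A] {J n m : ℕ} (hJ : aexp n m 0 ≤ J) (hn : 1 ≤ n)
    (hm : 1 ≤ m) {fs : ℕ → List Gate} (hlen : ∀ j, (fs j).length ≤ n) (x : ℕ → A) :
    value x (progF J n m fs) = finA n m fs (x 0) := by
  have hM := models_self (progF_wf hJ hn hm hlen) x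
  rw [value_eq_getD, length_progF hlen]
  generalize hv : (fun i => (vals x (progF J n m fs)).getD i 0) = v at hM
  have hv' : ∀ i, (vals x (progF J n m fs)).getD i 0 = v i := fun i => by rw [← hv]
  rw [hv']
  simp only [hv'] at hM
  clear hv hv'
  have hJ2 := aexp_ge n m
  obtain ⟨t, ht⟩ : ∃ t, t = x 0 := ⟨_, rfl⟩
  rw [← ht]
  unfold progF at hM
  rw [allAt_append, allAt_append, allAt_append, length_preB, allAt_cons, allAt_nil,
    allAt_flatMap_range _ (W := n + m + 6) (fun j _ => length_blockF (hlen j) j),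
    length_flatMap_range (W := n + m + 6) (fun j _ => length_blockF (hlen j) j)] at hM
  obtain ⟨h1, ⟨h2, -⟩, h3, h4⟩ := hM
  obtain ⟨hone, hzero, hbg⟩ := preB_value h1
  simp only [Gate.eqv, ← ht] at h2
  have hblock : ∀ j < m, (∀ k ≤ j, v (3 + J + k * (n + m + 6)) = yv n m fs t k k) →
      v (4 + J + j * (n + m + 6) + n + 1) =
        bgA A (aexp n m j) * value (yv n m fs t j) (fs j) ^ 2 ∧
      v (4 + J + j * (n + m + 6) + n + m + 4) = v (sIdx J n m j) +
        yv n m fs t j j ^ (2 ^ (m + 2)) ∧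
      v (3 + J + (j + 1) * (n + m + 6)) = yv n m fs t (j + 1) (j + 1) := by
    intro j hj hk
    have h5 := h3 j hj
    have hbase : 0 + (3 + J) + [Gate.var 0].length + j * (n + m + 6) =
      4 + J + j * (n + m + 6) := by simp; omega
    unfold blockF at h5
    rw [hbase, allAt_append, allAt_append, allAt_append, length_copyB (hlen j),
      allAt_map_range] at h5
    simp only [allAt_cons, allAt_nil, List.length_cons, List.length_nil, List.length_map,
      List.length_range, and_true] at h5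
    have hb : 3 + J + (j + 1) * (n + m + 6) = 4 + J + j * (n + m + 6) + n + m + 5 := by
      rw [Nat.succ_mul]; omega
    rw [hb]
    have hc := hk j le_rfl
    generalize hB : 4 + J + j * (n + m + 6) = b at h5 ⊢
    have hc' : 3 + J + j * (n + m + 6) = b - 1 := by omega
    obtain ⟨h6, ⟨h7, h8⟩, h9, h10, h11⟩ := h5
    have hV := copyB_value h6 hzero (hlen j) hn (x' := yv n m fs t j) (fun i => by
      split_ifs with hi
      · simp only [Gate.eqv]
        rw [hk i hi, hone, mul_one, yv_le hi]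
      · simp only [Gate.eqv, sub_self]
        rw [yv_gt (by omega)])
    simp only [Gate.eqv] at h7 h8 h10 h11
    rw [hV] at h7
    have e1 : v (b + n + 1) = bgA A (aexp n m j) * value (yv n m fs t j) (fs j) ^ 2 := by
      rw [h8, h7, hbg _ ((aexp_le n m j).trans hJ), sq]
      rfl
    have hpw : ∀ i ≤ m + 1, v (b + n + 2 + i) = yv n m fs t j j ^ (2 ^ (i + 1)) := by
      intro i
      induction i with
      | zero =>
        intro _
        have := h9 0 (by omega)
        simp only [if_true, Gate.eqv] at this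
        rw [show b + n + (0 + 1 + 1) + 0 = b + n + 2 + 0 by ring] at this
        rw [this, hc]
        norm_num
        ring
      | succ i ih =>
        intro hi
        have := h9 (i + 1) (by omega)
        rw [if_neg (by omega)] at this
        simp only [Gate.eqv] at this
        rw [show b + n + (0 + 1 + 1) + (i + 1) = b + n + 2 + (i + 1) by ring,
          show b + n + 1 + (i + 1) = b + n + 2 + i by ring, ih (by omega)] at this
        rw [this, pow_succ 2 (i + 1), pow_mul, sq]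
    refine ⟨e1, ?_, ?_⟩
    · rw [show b + n + (0 + 1 + 1) + (m + 2) = b + n + m + 4 by ring] at h10
      rw [h10]
      congr 1
      rw [show b + n + m + 3 = b + n + 2 + (m + 1) by ring, hpw (m + 1) le_rfl]
    · rw [show b + n + (0 + 1 + 1) + (m + 2) + 1 = b + n + m + 5 by ring] at h11
      rw [h11, e1, hbg _ (by omega), yv_succ]
      rfl
  have key : ∀ j ≤ m, (∀ k ≤ j, v (3 + J + k * (n + m + 6)) = yv n m fs t k k) ∧
      v (sIdx J n m j) = ∑ i ∈ Finset.range j, yv n m fs t i i ^ (2 ^ (m + 2)) := by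
    intro j
    induction j with
    | zero =>
      intro _
      refine ⟨fun k hk => ?_, ?_⟩
      · rw [Nat.le_zero.1 hk, Nat.zero_mul, Nat.add_zero]
        rw [Nat.zero_add] at h2
        rw [h2]
        unfold yv
        simp
      · unfold sIdx
        rw [if_pos rfl, hzero]
        simp
    | succ j ih =>
      intro hj
      obtain ⟨h5, h6⟩ := ih (by omega)
      obtain ⟨h7, h8, h9⟩ := hblock j (by omega) h5
      refine ⟨fun k hk => ?_, ?_⟩
      · rcases Nat.lt_or_ge k (j + 1) with hk' | hk'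
        · exact h5 k (by omega)
        · rw [show k = j + 1 by omega]
          exact h9
      · have e : sIdx J n m (j + 1) = 4 + J + j * (n + m + 6) + n + m + 4 := by
          unfold sIdx
          rw [if_neg (by omega), Nat.add_sub_cancel]
        rw [e, h8, h6, Finset.sum_range_succ]
  obtain ⟨h5, h6⟩ := key m le_rfl
  obtain ⟨h7, -, -⟩ := hblock (m - 1) (by omega) (fun k hk => h5 k (by omega))
  simp only [allAt_cons, allAt_nil, List.length_cons, List.length_nil, and_true, Gate.eqv] at h4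
  rw [show 0 + (3 + J) + (0 + 1) + m * (n + m + 6) = 4 + J + m * (n + m + 6) by ring] at h4
  obtain ⟨g1, g2, g3⟩ := h4
  rw [h7, h6] at g1
  rw [hbg _ (by omega), hbg _ (by omega)] at g2
  rw [show 4 + J + m * (n + m + 6) + 1 + 1 = 4 + J + m * (n + m + 6) + 2 by ring] at g3
  rw [show 4 + J + m * (n + m + 6) + 3 - 1 = 4 + J + m * (n + m + 6) + 2 by omega, g3, g1, g2]
  rfl

end Pool.Agent.Work.MP_859ada_lc

end

section

/-!
# MP_859ada_lc: approximate solutions are near exact solutions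
-/

set_option autoImplicit false

namespace Pool.Agent.Work.MP_859ada_lc

open Polynomial Set

theorem polyAt_ofReal (y : ℕ → ℝ) (j : ℕ) (p : List Gate) :
    (polyAt y j p).map Complex.ofRealHom = polyAt (fun k => (y k : ℂ)) j p :=
  polyAt_map Complex.ofRealHom y j p

theorem eval_ofReal (y : ℕ → ℝ) (j : ℕ) (p : List Gate) (z : ℝ) :
    (polyAt (fun k => (y k : ℂ)) j p).eval (z : ℂ) = (((polyAt y j p).eval z : ℝ) : ℂ) := by
  rw [← polyAt_ofReal, eval_map]
  exact eval₂_at_apply Complex.ofRealHom z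

theorem exactC {fs : ℕ → List Gate} {m : ℕ} {y : ℕ → ℝ} (h : Exact fs m y) :
    Exact fs m (fun k => (y k : ℂ)) := by
  intro i hi
  obtain ⟨h1, h2⟩ := h i hi
  refine ⟨?_, ?_⟩
  · rw [← polyAt_ofReal]
    exact (Polynomial.map_ne_zero_iff Complex.ofRealHom.injective).2 h1
  · dsimp only
    rw [eval_ofReal, h2, Complex.ofReal_zero]

theorem gexp_ge (n m : ℕ) : n + 15 ≤ gexp n m := by
  unfold gexp
  have h1 : n * 3 + 3 ≤ n * (m + 3) + 3 := by
    have := Nat.mul_le_mul_left n (show 3 ≤ m + 3 by omega)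
    omega
  have h2 := Nat.mul_le_mul h1 (show 5 ≤ m + 5 by omega)
  omega

theorem rexp_ge (n m j : ℕ) : gexp n m + m + n + 10 ≤ rexp n m j := by
  unfold rexp; omega

theorem rexp_lt {n m k j : ℕ} (h : k < j) (hj : j ≤ m) :
    rexp n m j + (n + 6) ≤ rexp n m k := by
  unfold rexp
  obtain ⟨d, hd⟩ : ∃ d, m - k = (m - j) + 1 + d := ⟨m - k - (m - j) - 1, by omega⟩
  rw [hd]
  nlinarith [Nat.zero_le (d * (n + 6))]

/-- One step. -/
theorem step_sound {n m : ℕ} (hn : 3 ≤ n) {fs : ℕ → List Gate} (hlen : ∀ j, (fs j).length ≤ n)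
    {j : ℕ} (hj : j < m) {y' : ℕ → ℝ} (hy' : Exact fs j y') (h0 : polyAt y' j (fs j) ≠ 0)
    {y : ℕ → ℝ} (hy : ∀ k ≤ j, |y k| ≤ 2 * Bg (gexp n m))
    (hclose : ∀ k < j, |y k - y' k| * Bg (rexp n m k) ≤ 1)
    (hv : |(polyAt y j (fs j)).eval (y j)| * Bg (rexp n m j + n + 4) ≤ 1) :
    ∃ z : ℝ, (polyAt y' j (fs j)).eval z = 0 ∧ |y j - z| * Bg (rexp n m j) ≤ 1 := by
  obtain ⟨e, he⟩ : ∃ e, e = gexp n m := ⟨_, rfl⟩
  obtain ⟨r, hr⟩ : ∃ r, r = rexp n m j := ⟨_, rfl⟩
  have hre : e + 10 ≤ r := by have := rexp_ge n m j; omega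
  have he15 : n + 15 ≤ e := by rw [he]; exact gexp_ge n m
  rw [← he] at hy
  rw [← hr] at hv ⊢
  have hBe : 4 ≤ Bg e := four_le_Bg (by omega)
  have hBr := Bg_pos r
  have hyC := exactC hy'
  obtain ⟨qC, hqC⟩ : ∃ qC : ℂ[X], qC = polyAt (fun k => (y' k : ℂ)) j (fs j) := ⟨_, rfl⟩
  have hqC0 : qC ≠ 0 := by
    rw [hqC, ← polyAt_ofReal]
    exact (Polynomial.map_ne_zero_iff Complex.ofRealHom.injective).2 h0
  have hdeg : qC.natDegree ≤ 2 ^ n := by rw [hqC]; exact natDegree_polyAt_le _ _ (hlen j)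
  obtain ⟨c, hc, hc0⟩ := exists_nat_ne hqC0 hdeg
  have hgap : 1 ≤ ‖qC.eval (c : ℂ)‖ * Bg e := by
    have h1 := gap_value hlen hyC (hlen j) hc (by rw [← hqC]; exact hc0)
    rw [← hqC] at h1
    refine h1.trans (mul_le_mul_of_nonneg_left (Bg_mono ?_) (norm_nonneg _))
    rw [he]; exact gexp_mono hj.le
  -- the value at `y j` is small
  have hQ : ‖qC.eval (y j : ℂ)‖ * Bg (r + n + 3) ≤ 1 := by
    rw [hqC, eval_ofReal, Complex.norm_real, Real.norm_eq_abs]
    have hdiff : |(polyAt y' j (fs j)).eval (y j) - (polyAt y j (fs j)).eval (y j)| ≤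
        1 / Bg (r + n + 6) * Bg (e + n + 2) := by
      rw [polyAt_eval, polyAt_eval]
      have hM : 2 ≤ Bg (e + 1) := two_le_Bg _
      have h16 : 2 * Bg e + 1 ≤ Bg (e + 1) := by rw [Bg_succ']; nlinarith
      have hcl : ∀ k < j, |y' k - y k| ≤ 1 / Bg (r + n + 6) := by
        intro k hk
        rw [le_div_iff₀ (Bg_pos _), abs_sub_comm]
        refine le_trans (mul_le_mul_of_nonneg_left (Bg_mono ?_) (abs_nonneg _)) (hclose k hk)
        have := rexp_lt (n := n) hk hj.le
        omega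
      have hle1 : 1 / Bg (r + n + 6) ≤ 1 := by
        rw [div_le_one (Bg_pos _)]; exact one_le_Bg _
      have := norm_value_sub_le (𝕜 := ℝ) hM (d := 1 / Bg (r + n + 6))
        (by have := Bg_pos (r + n + 6); positivity)
        (x := fun k => if k < j then y' k else if k = j then y j else 0)
        (y := fun k => if k < j then y k else if k = j then y j else 0)
        (by
          intro k
          split_ifs with h1 h2
          · rw [Real.norm_eq_abs]
            have h3 := hcl k h1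
            have h4 := hy k h1.le
            have h5 : |y' k| ≤ |y' k - y k| + |y k| := by
              have := abs_add_le (y' k - y k) (y k)
              simpa using this
            linarith
          · rw [Real.norm_eq_abs]
            have h4 := hy j le_rfl
            linarith
          · rw [norm_zero]; linarith)
        (by
          intro k
          split_ifs with h1 h2
          · rw [Real.norm_eq_abs]
            have h4 := hy k h1.le
            linarith
          · rw [Real.norm_eq_abs]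
            have h4 := hy j le_rfl
            linarith
          · rw [norm_zero]; linarith)
        (by
          intro k
          split_ifs with h1 h2
          · exact hcl k h1
          · rw [sub_self, norm_zero]; have := Bg_pos (r + n + 6); positivity
          · rw [sub_self, norm_zero]; have := Bg_pos (r + n + 6); positivity)
        (hlen j)
      rw [Bg_pow, show e + 1 + (n + 1) = e + n + 2 by ring] at this
      exact this
    obtain ⟨v, hvdef⟩ : ∃ v, v = |(polyAt y j (fs j)).eval (y j)| := ⟨_, rfl⟩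
    rw [← hvdef] at hv
    have hv0 : 0 ≤ v := by rw [hvdef]; exact abs_nonneg _
    have hsum : |(polyAt y' j (fs j)).eval (y j)| ≤ v + 1 / Bg (r + n + 6) * Bg (e + n + 2) := by
      have h1 := abs_add_le ((polyAt y' j (fs j)).eval (y j) - (polyAt y j (fs j)).eval (y j))
        ((polyAt y j (fs j)).eval (y j))
      rw [sub_add_cancel] at h1
      rw [hvdef]
      linarith
    have e1 : Bg (r + n + 4) = Bg (r + n + 3) * Bg (r + n + 3) := Bg_succ' _
    have e2 : Bg (r + n + 5) = Bg (r + n + 4) * Bg (r + n + 4) := Bg_succ' _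
    have e3 : Bg (r + n + 6) = Bg (r + n + 5) * Bg (r + n + 5) := Bg_succ' _
    have e4 := two_le_Bg (r + n + 3)
    have e5 := two_le_Bg (r + n + 4)
    have e6 := two_le_Bg (r + n + 5)
    have h1 : v * Bg (r + n + 3) ≤ 1 / 2 := by
      rw [e1] at hv
      have : v * Bg (r + n + 3) * 2 ≤ v * (Bg (r + n + 3) * Bg (r + n + 3)) := by
        rw [← mul_assoc]
        exact mul_le_mul_of_nonneg_left e4 (mul_nonneg hv0 (Bg_pos _).le)
      linarith
    have h2 : 1 / Bg (r + n + 6) * Bg (e + n + 2) * Bg (r + n + 3) ≤ 1 / 2 := by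
      have h3 : Bg (e + n + 2) * Bg (r + n + 3) ≤ Bg (r + n + 4) :=
        Bg_mul_le (by omega) (by omega)
      have h4 : 2 * Bg (r + n + 4) ≤ Bg (r + n + 6) := by
        rw [e3, e2]
        nlinarith [mul_pos (Bg_pos (r + n + 4)) (Bg_pos (r + n + 4))]
      have h5 := Bg_pos (r + n + 6)
      calc 1 / Bg (r + n + 6) * Bg (e + n + 2) * Bg (r + n + 3)
          = (Bg (e + n + 2) * Bg (r + n + 3)) / Bg (r + n + 6) := by ring
        _ ≤ Bg (r + n + 4) / Bg (r + n + 6) := by gcongr
        _ ≤ 1 / 2 := by rw [div_le_div_iff₀ h5 (by norm_num)]; linarith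
    calc |(polyAt y' j (fs j)).eval (y j)| * Bg (r + n + 3)
        ≤ (v + 1 / Bg (r + n + 6) * Bg (e + n + 2)) * Bg (r + n + 3) :=
          mul_le_mul_of_nonneg_right hsum (Bg_pos _).le
      _ = v * Bg (r + n + 3) + 1 / Bg (r + n + 6) * Bg (e + n + 2) * Bg (r + n + 3) := by ring
      _ ≤ 1 := by linarith
  -- there is a root near `y j`
  obtain ⟨ζ, hζ, hζ2⟩ : ∃ ζ : ℂ, qC.eval ζ = 0 ∧ ‖(y j : ℂ) - ζ‖ < 1 / Bg r := by
    by_contra hcon
    push Not at hcon
    have hD : ‖(y j : ℂ) - (c : ℂ)‖ ≤ 4 * Bg e := by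
      refine (norm_sub_le _ _).trans ?_
      rw [Complex.norm_real, Complex.norm_natCast, Real.norm_eq_abs]
      have h1 := hy j le_rfl
      have h2 : (c : ℝ) ≤ Bg e := by
        calc (c : ℝ) ≤ 2 ^ n := by exact_mod_cast hc
          _ ≤ Bg n := two_pow_le_Bg n
          _ ≤ Bg e := Bg_mono (by omega)
      linarith
    have h1 := le_norm_eval_of_roots (q := qC) (x := (y j : ℂ)) (c := (c : ℂ)) (ρ := 1 / Bg r)
      (by positivity) le_rfl hcon hdeg
    exact num_contra (num_root hre hgap hD (norm_nonneg _) h1) hQ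
  -- the root is real
  have hmapconj : qC.eval ((starRingEnd ℂ) ζ) = 0 := by
    have h1 : qC.map (starRingEnd ℂ) = qC := by
      rw [hqC, ← polyAt_ofReal, Polynomial.map_map]
      congr 1
      ext x
      simp
    have h2 : (starRingEnd ℂ) (qC.eval ζ) = (qC.map (starRingEnd ℂ)).eval ((starRingEnd ℂ) ζ) := by
      rw [eval_map, eval₂_at_apply]
    rw [h1, hζ, map_zero] at h2
    exact h2.symm
  have hreal : (starRingEnd ℂ) ζ = ζ := by
    by_contra hne
    have h1 := gap_roots hn hlen hyC (hlen j) (by rw [← hqC]; exact hqC0)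
      (by rw [← hqC]; exact hζ) (by rw [← hqC]; exact hmapconj) (fun h => hne h.symm)
    have h2 : ‖ζ - (starRingEnd ℂ) ζ‖ ≤ 2 * (1 / Bg r) := by
      have e1 : ζ - (starRingEnd ℂ) ζ = -((y j : ℂ) - ζ) + (starRingEnd ℂ) ((y j : ℂ) - ζ) := by
        rw [map_sub, Complex.conj_ofReal]; ring
      rw [e1]
      refine (norm_add_le _ _).trans ?_
      rw [norm_neg, Complex.norm_conj]
      linarith
    have h3 : 1 ≤ 2 * (1 / Bg r) * Bg e := by
      refine h1.trans ?_
      refine mul_le_mul h2 (Bg_mono ?_) (Bg_pos _).le (by positivity)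
      rw [he]; exact gexp_mono hj.le
    have h4 : Bg (e + 1) ≤ Bg r := Bg_mono (by omega)
    have h5 : 2 * (1 / Bg r) * Bg e = 2 * Bg e / Bg r := by ring
    rw [h5, le_div_iff₀ hBr] at h3
    rw [Bg_succ' e] at h4
    nlinarith
  obtain ⟨z, hz⟩ := Complex.conj_eq_iff_real.1 hreal
  refine ⟨z, ?_, ?_⟩
  · rw [hz, hqC, eval_ofReal] at hζ
    exact_mod_cast hζ
  · rw [hz, ← Complex.ofReal_sub, Complex.norm_real, Real.norm_eq_abs, lt_div_iff₀ hBr] at hζ2
    exact hζ2.le

/-- **Soundness.** -/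
theorem sound {n m : ℕ} (hn : 3 ≤ n) (hm : 1 ≤ m) {fs : ℕ → List Gate}
    (hlen : ∀ j, (fs j).length ≤ n)
    (hreg : ∀ j < m, ∀ y : ℕ → ℝ, Exact fs j y → polyAt y j (fs j) ≠ 0) {t : ℝ}
    (ht : finA n m fs t ≤ 0) : ∃ y : ℕ → ℝ, Exact fs m y := by
  obtain ⟨e, he⟩ : ∃ e, e = gexp n m := ⟨_, rfl⟩
  have he15 : n + 15 ≤ e := by rw [he]; exact gexp_ge n m
  have hBe : 4 ≤ Bg e := four_le_Bg (by omega)
  obtain ⟨y, hydef⟩ : ∃ y : ℕ → ℝ, y = fun k => yv n m fs t k k := ⟨_, rfl⟩
  have hyk : ∀ k, yv n m fs t k k = y k := fun k => by rw [hydef]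
  have hvk : ∀ k, value (yv n m fs t k) (fs k) = (polyAt y k (fs k)).eval (y k) := fun k => by
    rw [value_yv, hyk, hydef]
  have hfin : Bg (aexp n m (m - 1)) * (polyAt y (m - 1) (fs (m - 1))).eval (y (m - 1)) ^ 2 +
      ∑ j ∈ Finset.range m, y j ^ (2 ^ (m + 2)) ≤ Bg (m + 1) * Bg (e + m + 2) := by
    unfold finA at ht
    rw [hvk, bgA_real, bgA_real, bgA_real, ← he] at ht
    simp only [hyk] at ht
    linarith
  have hev : Even (2 ^ (m + 2)) := ⟨2 ^ (m + 1), by ring⟩
  have hnn : ∀ j, 0 ≤ y j ^ (2 ^ (m + 2)) := fun j => hev.pow_nonneg _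
  have hA : 0 ≤ Bg (aexp n m (m - 1)) * (polyAt y (m - 1) (fs (m - 1))).eval (y (m - 1)) ^ 2 :=
    mul_nonneg (Bg_pos _).le (sq_nonneg _)
  have hbd : ∀ k < m, |y k| ≤ 2 * Bg e := by
    intro k hk
    by_contra hcon
    push Not at hcon
    have h1 : (2 * Bg e) ^ (2 ^ (m + 2)) ≤ |y k| ^ (2 ^ (m + 2)) :=
      pow_le_pow_left₀ (by positivity) hcon.le _
    rw [hev.pow_abs] at h1
    have h2 : y k ^ (2 ^ (m + 2)) ≤ ∑ j ∈ Finset.range m, y j ^ (2 ^ (m + 2)) :=
      Finset.single_le_sum (f := fun j => y j ^ (2 ^ (m + 2))) (fun j _ => hnn j)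
        (Finset.mem_range.2 hk)
    have h3 : (2 * Bg e) ^ (2 ^ (m + 2)) = Bg (m + 2) * Bg (e + m + 2) := by
      rw [mul_pow, Bg_pow, show e + (m + 2) = e + m + 2 by ring]
      rfl
    have h4 : Bg (m + 1) * Bg (e + m + 2) < Bg (m + 2) * Bg (e + m + 2) := by
      apply mul_lt_mul_of_pos_right _ (Bg_pos _)
      have : Bg (m + 2) = Bg (m + 1) * Bg (m + 1) := Bg_succ' _
      have := two_le_Bg (m + 1)
      nlinarith
    linarith
  have hv : ∀ j < m, |(polyAt y j (fs j)).eval (y j)| * Bg (rexp n m j + n + 4) ≤ 1 := by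
    intro j hj
    obtain ⟨v, hvd⟩ : ∃ v, v = (polyAt y j (fs j)).eval (y j) := ⟨_, rfl⟩
    obtain ⟨r, hr⟩ : ∃ r, r = rexp n m j := ⟨_, rfl⟩
    have hre := rexp_ge n m j
    rw [← hr, ← he] at hre
    have h1 : Bg (aexp n m j) * v ^ 2 ≤ Bg (e + m + 3) := by
      rcases Nat.lt_or_ge (j + 1) m with hj1 | hj1
      · have h2 := yv_succ (n := n) (m := m) (fs := fs) t j
        rw [hyk, hvk, ← hvd, bgA_real, bgA_real, ← he] at h2
        have h3 := hbd (j + 1) hj1
        have h4 := (abs_le.1 h3).2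
        have h5 : Bg (e + 1) = Bg e * Bg e := Bg_succ' _
        have h6 : Bg (e + 2) = Bg (e + 1) * Bg (e + 1) := Bg_succ' _
        have h7 : Bg (e + 2) ≤ Bg (e + m + 3) := Bg_mono (by omega)
        have h8 : 2 * Bg e + Bg (e + 1) ≤ Bg (e + 2) := by
          have : 4 ≤ Bg (e + 1) := four_le_Bg (by omega)
          nlinarith
        linarith
      · have hj2 : j = m - 1 := by omega
        rw [hvd, hj2]
        have h2 : 0 ≤ ∑ j ∈ Finset.range m, y j ^ (2 ^ (m + 2)) :=
          Finset.sum_nonneg fun j _ => hnn j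
        have h3 : Bg (m + 1) * Bg (e + m + 2) ≤ Bg (e + m + 3) :=
          Bg_mul_le (by omega) (by omega)
        linarith
    have h2 : Bg (aexp n m j) = Bg (r + n + 5) * Bg (r + n + 5) := by
      unfold aexp
      rw [← hr]
      exact Bg_succ' _
    have h3 : Bg (r + n + 5) = Bg (r + n + 4) * Bg (r + n + 4) := Bg_succ' _
    have h4 : Bg (e + m + 3) ≤ Bg (r + n + 5) := Bg_mono (by omega)
    have h5 : (|v| * Bg (r + n + 4)) ^ 2 ≤ 1 := by
      have h6 : (|v| * Bg (r + n + 4)) ^ 2 = v ^ 2 * Bg (r + n + 5) := by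
        rw [mul_pow, sq_abs, h3, sq (Bg (r + n + 4))]
      rw [h6]
      have h7 := Bg_pos (r + n + 5)
      by_contra hcon
      push Not at hcon
      have h8 : Bg (r + n + 5) < Bg (aexp n m j) * v ^ 2 := by
        rw [h2]
        calc Bg (r + n + 5) = Bg (r + n + 5) * 1 := (mul_one _).symm
          _ < Bg (r + n + 5) * (v ^ 2 * Bg (r + n + 5)) := mul_lt_mul_of_pos_left hcon h7
          _ = Bg (r + n + 5) * Bg (r + n + 5) * v ^ 2 := by ring
      linarith
    rw [← hvd, ← hr]
    have h6 : 0 ≤ |v| * Bg (r + n + 4) := mul_nonneg (abs_nonneg _) (Bg_pos _).le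
    nlinarith
  -- induction
  have key : ∀ j ≤ m, ∃ y' : ℕ → ℝ, Exact fs j y' ∧
      ∀ k < j, |y k - y' k| * Bg (rexp n m k) ≤ 1 := by
    intro j
    induction j with
    | zero => intro _; exact ⟨fun _ => 0, fun k hk => absurd hk (by omega),
        fun k hk => absurd hk (by omega)⟩
    | succ j ih =>
      intro hj
      obtain ⟨y', h1, h2⟩ := ih (by omega)
      have h0 := hreg j (by omega) y' h1
      obtain ⟨z, h3, h4⟩ := step_sound hn hlen (m := m) (by omega) h1 h0 (y := y)
        (fun k hk => by rw [← he]; exact hbd k (by omega)) h2 (hv j (by omega))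
      have hcong : ∀ i ≤ j, ∀ p, polyAt (fun k => if k = j then z else y' k) i p =
          polyAt y' i p := by
        intro i hi p
        exact polyAt_congr (fun k hk => if_neg (by omega)) p
      refine ⟨fun k => if k = j then z else y' k, ?_, ?_⟩
      · intro i hi
        dsimp only
        rw [hcong i (by omega)]
        rcases Nat.lt_succ_iff_lt_or_eq.1 hi with hi | rfl
        · rw [if_neg (by omega)]
          exact h1 i hi
        · rw [if_pos rfl]
          exact ⟨h0, h3⟩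
      · intro k hk
        dsimp only
        rcases Nat.lt_succ_iff_lt_or_eq.1 hk with hk | rfl
        · rw [if_neg (by omega)]
          exact h2 k hk
        · rw [if_pos rfl]
          exact h4
  obtain ⟨y', h1, -⟩ := key m le_rfl
  exact ⟨y', h1⟩

end Pool.Agent.Work.MP_859ada_lc

end

section

/-!
# MP_859ada_lc: exact solutions are visible
-/

set_option autoImplicit false

namespace Pool.Agent.Work.MP_859ada_lc

open Polynomial Set

theorem diff_le {n m j : ℕ} (hj : j < m) {p : List Gate} (hp : p.length ≤ n) {y y' : ℕ → ℝ} {z : ℝ}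
    (hy : ∀ k < j, |y' k| ≤ Bg (gexp n m)) (hz : |z| ≤ 2 * Bg (gexp n m))
    (hclose : ∀ k < j, |y k - y' k| * Bg (rexp n m k) ≤ 1) :
    |(polyAt y j p).eval z - (polyAt y' j p).eval z| ≤
      1 / Bg (rexp n m j + n + 6) * Bg (gexp n m + n + 2) := by
  obtain ⟨e, he⟩ : ∃ e, e = gexp n m := ⟨_, rfl⟩
  obtain ⟨r, hr⟩ : ∃ r, r = rexp n m j := ⟨_, rfl⟩
  have he15 : n + 15 ≤ e := by rw [he]; exact gexp_ge n m
  rw [← he] at hy hz ⊢
  rw [← hr]
  have hBe : 4 ≤ Bg e := four_le_Bg (by omega)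
  rw [polyAt_eval, polyAt_eval]
  have hM : 2 ≤ Bg (e + 1) := two_le_Bg _
  have h16 : 2 * Bg e + 1 ≤ Bg (e + 1) := by rw [Bg_succ']; nlinarith
  have hcl : ∀ k < j, |y k - y' k| ≤ 1 / Bg (r + n + 6) := by
    intro k hk
    rw [le_div_iff₀ (Bg_pos _)]
    refine le_trans (mul_le_mul_of_nonneg_left (Bg_mono ?_) (abs_nonneg _)) (hclose k hk)
    have := rexp_lt (n := n) hk hj.le
    omega
  have hle1 : 1 / Bg (r + n + 6) ≤ 1 := by
    rw [div_le_one (Bg_pos _)]; exact one_le_Bg _
  have := norm_value_sub_le (𝕜 := ℝ) hM (d := 1 / Bg (r + n + 6))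
    (by have := Bg_pos (r + n + 6); positivity)
    (x := fun k => if k < j then y k else if k = j then z else 0)
    (y := fun k => if k < j then y' k else if k = j then z else 0)
    (by
      intro k
      split_ifs with h1 h2
      · rw [Real.norm_eq_abs]
        have h3 := hcl k h1
        have h4 := hy k h1
        have h5 : |y k| ≤ |y k - y' k| + |y' k| := by
          have := abs_add_le (y k - y' k) (y' k)
          simpa using this
        linarith
      · rw [Real.norm_eq_abs]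
        linarith
      · rw [norm_zero]; linarith)
    (by
      intro k
      split_ifs with h1 h2
      · rw [Real.norm_eq_abs]
        have h4 := hy k h1
        linarith
      · rw [Real.norm_eq_abs]
        linarith
      · rw [norm_zero]; linarith)
    (by
      intro k
      split_ifs with h1 h2
      · exact hcl k h1
      · rw [sub_self, norm_zero]; have := Bg_pos (r + n + 6); positivity
      · rw [sub_self, norm_zero]; have := Bg_pos (r + n + 6); positivity)
    hp
  rw [Bg_pow, show e + 1 + (n + 1) = e + n + 2 by ring] at this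
  exact this

theorem num_small {e r n : ℕ} (hr : e + 10 ≤ r) {v : ℝ}
    (hv : |v| ≤ 1 / Bg (r + n + 6) * Bg (e + n + 2)) : Bg (r + n + 6) * v ^ 2 ≤ 1 := by
  have h0 := Bg_pos (r + n + 6)
  have h1 := Bg_pos (e + n + 2)
  have h2 : v ^ 2 ≤ (1 / Bg (r + n + 6) * Bg (e + n + 2)) ^ 2 := by
    rw [← sq_abs]
    exact pow_le_pow_left₀ (abs_nonneg _) hv 2
  have h3 : Bg (e + n + 2) ^ 2 ≤ Bg (r + n + 6) := by
    rw [← Bg_succ]
    exact Bg_mono (by omega)
  calc Bg (r + n + 6) * v ^ 2 ≤ Bg (r + n + 6) * (1 / Bg (r + n + 6) * Bg (e + n + 2)) ^ 2 :=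
        mul_le_mul_of_nonneg_left h2 h0.le
    _ = Bg (e + n + 2) ^ 2 / Bg (r + n + 6) := by field_simp
    _ ≤ 1 := by rw [div_le_one h0]; exact h3

theorem num_large {e r n : ℕ} (hr : e + 10 ≤ r) {v Q : ℝ} (hQ : 1 ≤ |Q| * Bg (r + n + 3))
    (hv : |v - Q| ≤ 1 / Bg (r + n + 6) * Bg (e + n + 2)) :
    Bg (e + 2) ≤ Bg (r + n + 6) * v ^ 2 := by
  have e1 : Bg (r + n + 4) = Bg (r + n + 3) * Bg (r + n + 3) := Bg_succ' _
  have e2 : Bg (r + n + 5) = Bg (r + n + 4) * Bg (r + n + 4) := Bg_succ' _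
  have e3 : Bg (r + n + 6) = Bg (r + n + 5) * Bg (r + n + 5) := Bg_succ' _
  have e4 := two_le_Bg (r + n + 3)
  have e5 := two_le_Bg (r + n + 4)
  have e6 := two_le_Bg (r + n + 5)
  have p3 := Bg_pos (r + n + 3)
  have p4 := Bg_pos (r + n + 4)
  have p5 := Bg_pos (r + n + 5)
  have p6 := Bg_pos (r + n + 6)
  have h2 : 1 / Bg (r + n + 6) * Bg (e + n + 2) ≤ 1 / Bg (r + n + 4) := by
    have h3 : Bg (e + n + 2) * Bg (r + n + 4) ≤ Bg (r + n + 6) :=
      Bg_mul_le (by omega) (by omega)
    rw [one_div_mul_eq_div, div_le_div_iff₀ p6 p4]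
    linarith
  have h3 : 1 / Bg (r + n + 3) ≤ |Q| := by
    rw [div_le_iff₀ p3]; exact hQ
  have h4 : 2 * (1 / Bg (r + n + 4)) ≤ 1 / Bg (r + n + 3) := by
    rw [e1, ← div_eq_mul_one_div, div_le_div_iff₀ (by positivity) p3]
    nlinarith
  have h5 : |Q| ≤ |v| + |v - Q| := by
    have := abs_sub_abs_le_abs_sub Q v
    rw [abs_sub_comm Q v] at this
    linarith
  have h6 : 1 / Bg (r + n + 4) ≤ |v| := by linarith
  have h7 : 1 / Bg (r + n + 5) ≤ v ^ 2 := by
    rw [← sq_abs, e2]
    calc 1 / (Bg (r + n + 4) * Bg (r + n + 4)) = (1 / Bg (r + n + 4)) ^ 2 := by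
          rw [div_pow, one_pow, sq (Bg (r + n + 4))]
      _ ≤ |v| ^ 2 := pow_le_pow_left₀ (by positivity) h6 2
  calc Bg (e + 2) ≤ Bg (r + n + 5) := Bg_mono (by omega)
    _ = Bg (r + n + 6) * (1 / Bg (r + n + 5)) := by rw [e3]; field_simp
    _ ≤ Bg (r + n + 6) * v ^ 2 := mul_le_mul_of_nonneg_left h7 p6.le

/-- A good point near the root. -/
theorem good_point {n m : ℕ} {fs : ℕ → List Gate} (hlen : ∀ j, (fs j).length ≤ n)
    {j : ℕ} (hj : j < m) {y' : ℕ → ℝ} (hy' : Exact fs m y') :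
    ∃ z : ℝ, y' j ≤ z ∧ z ≤ y' j + 1 / Bg (rexp n m j) ∧
      1 ≤ |(polyAt y' j (fs j)).eval z| * Bg (rexp n m j + n + 3) := by
  obtain ⟨e, he⟩ : ∃ e, e = gexp n m := ⟨_, rfl⟩
  obtain ⟨r, hr⟩ : ∃ r, r = rexp n m j := ⟨_, rfl⟩
  have hre : e + m + n + 10 ≤ r := by rw [he, hr]; exact rexp_ge n m j
  have he15 : n + 15 ≤ e := by rw [he]; exact gexp_ge n m
  rw [← hr]
  have hBe : 4 ≤ Bg e := four_le_Bg (by omega)
  have hBr := Bg_pos r
  have hyC := exactC hy'
  have hyC' : Exact fs j (fun k => (y' k : ℂ)) := fun i hi => hyC i (by omega)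
  obtain ⟨qC, hqC⟩ : ∃ qC : ℂ[X], qC = polyAt (fun k => (y' k : ℂ)) j (fs j) := ⟨_, rfl⟩
  have hqC0 : qC ≠ 0 := by rw [hqC]; exact (hyC j hj).1
  have hdeg : qC.natDegree ≤ 2 ^ n := by rw [hqC]; exact natDegree_polyAt_le _ _ (hlen j)
  obtain ⟨c, hc, hc0⟩ := exists_nat_ne hqC0 hdeg
  have hgap : 1 ≤ ‖qC.eval (c : ℂ)‖ * Bg e := by
    have h1 := gap_value hlen hyC' (hlen j) hc (by rw [← hqC]; exact hc0)
    rw [← hqC] at h1
    refine h1.trans (mul_le_mul_of_nonneg_left (Bg_mono ?_) (norm_nonneg _))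
    rw [he]; exact gexp_mono hj.le
  obtain ⟨z, h1, h2, h3⟩ := exists_far_point hqC0 hdeg (y' j) (r := 1 / Bg r) (by positivity)
  refine ⟨z, h1, h2, ?_⟩
  have hyb : |y' j| ≤ Bg e := by
    have := bound_exact hlen hyC hj
    rw [Complex.norm_real, Real.norm_eq_abs] at this
    refine this.trans (Bg_mono ?_)
    omega
  have hr1 : 1 / Bg r ≤ 1 := by rw [div_le_one hBr]; exact one_le_Bg r
  have hD : ‖(z : ℂ) - (c : ℂ)‖ ≤ 4 * Bg e := by
    refine (norm_sub_le _ _).trans ?_
    rw [Complex.norm_real, Complex.norm_natCast, Real.norm_eq_abs]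
    have h5 : (c : ℝ) ≤ Bg e := by
      calc (c : ℝ) ≤ 2 ^ n := by exact_mod_cast hc
        _ ≤ Bg n := two_pow_le_Bg n
        _ ≤ Bg e := Bg_mono (by omega)
    have h6 : |z| ≤ Bg e + 1 := by
      have := abs_le.1 hyb
      rw [abs_le]
      constructor <;> linarith
    linarith
  have hρ : 1 / Bg (r + 1) ≤ 1 / Bg r / (2 * ((2 ^ n : ℕ) : ℝ) + 2) := by
    rw [div_div, div_le_div_iff₀ (Bg_pos _) (by positivity), Bg_succ' r, one_mul, one_mul]
    apply mul_le_mul_of_nonneg_left _ hBr.le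
    have h7 : (2 : ℝ) ^ (n + 2) ≤ Bg r := (two_pow_le_Bg (n + 2)).trans (Bg_mono (by omega))
    have h8 : (1 : ℝ) ≤ 2 ^ n := one_le_pow₀ (by norm_num)
    push_cast
    rw [pow_add] at h7
    linarith
  have h5 := le_norm_eval_of_roots (q := qC) (x := (z : ℂ)) (c := (c : ℂ)) (ρ := 1 / Bg (r + 1))
    (by have := Bg_pos (r + 1); positivity) le_rfl (fun ζ hζ => hρ.trans (h3 ζ hζ)) hdeg
  have h6 := num_root (by omega) hgap hD (norm_nonneg _) h5
  rw [hqC, eval_ofReal, Complex.norm_real, Real.norm_eq_abs] at h6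
  rw [show r + n + 3 = r + 1 + n + 2 by ring]
  exact h6

/-- **Completeness.** -/
theorem complete {n m : ℕ} (hm : 1 ≤ m) {fs : ℕ → List Gate}
    (hlen : ∀ j, (fs j).length ≤ n) {y' : ℕ → ℝ} (hy' : Exact fs m y') :
    ∃ t : ℝ, finA n m fs t = 0 := by
  obtain ⟨e, he⟩ : ∃ e, e = gexp n m := ⟨_, rfl⟩
  have he15 : n + 15 ≤ e := by rw [he]; exact gexp_ge n m
  have hBe : 4 ≤ Bg e := four_le_Bg (by omega)
  have hBe1 : Bg e = Bg (e - 1) * Bg (e - 1) := by
    have := Bg_succ' (e - 1)
    rwa [show e - 1 + 1 = e by omega] at this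
  have hBe4 : 4 ≤ Bg (e - 1) := four_le_Bg (by omega)
  have hyb : ∀ k < m, |y' k| ≤ Bg (e - 1) := by
    intro k hk
    have := bound_exact hlen (exactC hy') hk
    rw [Complex.norm_real, Real.norm_eq_abs, ← he] at this
    exact this
  have hyb' : ∀ k < m, |y' k| ≤ Bg e := fun k hk => (hyb k hk).trans (Bg_mono (by omega))
  have hvk : ∀ (t : ℝ) (k : ℕ), value (yv n m fs t k) (fs k) =
      (polyAt (fun k => yv n m fs t k k) k (fs k)).eval (yv n m fs t k k) := fun t k => by
    rw [value_yv]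
  have hr1 : ∀ k, Bg (rexp n m k) > 0 := fun k => Bg_pos _
  have hr2 : ∀ k, (1 : ℝ) / Bg (rexp n m k) ≤ 1 := fun k => by
    rw [div_le_one (hr1 k)]; exact one_le_Bg _
  have key : ∀ j < m, ∃ s u : ℝ, (∀ w : ℝ, 0 ≤ w → w ≤ 1 → ∀ k < j,
      |yv n m fs (s + (u - s) * w) k k - y' k| * Bg (rexp n m k) ≤ 1) ∧
      yv n m fs s j j ≤ -(2 * Bg e) ∧ 2 * Bg e ≤ yv n m fs u j j := by
    intro j
    induction j with
    | zero =>
      intro _
      refine ⟨-(2 * Bg e), 2 * Bg e, fun w _ _ k hk => absurd hk (by omega), ?_, ?_⟩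
      · simp [yv]
      · simp [yv]
    | succ j ih =>
      intro hj
      obtain ⟨s, u, h1, h2, h3⟩ := ih (by omega)
      obtain ⟨z, hz1, hz2, hz3⟩ := good_point hlen (m := m) (j := j) (by omega) hy'
      have hyj := abs_le.1 (hyb' j (by omega))
      have hr2j := hr2 j
      have hcont : ContinuousOn (fun w : ℝ => yv n m fs (s + (u - s) * w) j j) (Icc 0 1) :=
        ((continuous_yv n m fs j j).comp (by fun_prop : Continuous fun w : ℝ =>
          s + (u - s) * w)).continuousOn
      obtain ⟨s', u', g1, g2, g3, g4, g5, g6⟩ := ivt_between hcont (α := y' j) (β := z) hz1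
        (by simp only [mul_zero, add_zero]; linarith)
        (by
          simp only [mul_one]
          rw [show s + (u - s) = u by ring]
          linarith)
      have hcl : ∀ w : ℝ, s' ≤ w → w ≤ u' → ∀ k < j + 1,
          |yv n m fs (s + (u - s) * w) k k - y' k| * Bg (rexp n m k) ≤ 1 := by
        intro w hw1 hw2 k hk
        rcases Nat.lt_succ_iff_lt_or_eq.1 hk with hk | rfl
        · exact h1 w (g1.trans hw1) (hw2.trans g3) k hk
        · obtain ⟨c1, c2⟩ := g6 w ⟨hw1, hw2⟩
          rw [← le_div_iff₀ (hr1 k), abs_of_nonneg (by linarith)]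
          linarith
      have hval : ∀ w : ℝ, s' ≤ w → w ≤ u' →
          |value (yv n m fs (s + (u - s) * w) j) (fs j) -
            (polyAt y' j (fs j)).eval (yv n m fs (s + (u - s) * w) j j)| ≤
            1 / Bg (rexp n m j + n + 6) * Bg (gexp n m + n + 2) := by
        intro w hw1 hw2
        rw [hvk]
        refine diff_le (by omega) (hlen j) (fun k hk => by rw [← he]; exact hyb' k (by omega)) ?_
          (fun k hk => hcl w hw1 hw2 k (by omega))
        rw [← he]
        obtain ⟨c1, c2⟩ := g6 w ⟨hw1, hw2⟩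
        rw [abs_le]
        constructor <;> linarith
      have hre := rexp_ge n m j
      refine ⟨s + (u - s) * s', s + (u - s) * u', ?_, ?_, ?_⟩
      · intro w hw0 hw1 k hk
        have e1 : s + (u - s) * s' + (s + (u - s) * u' - (s + (u - s) * s')) * w =
            s + (u - s) * (s' + (u' - s') * w) := by ring
        rw [e1]
        apply hcl _ _ _ k hk
        · nlinarith
        · nlinarith
      · rw [yv_succ]
        have h4 := hval s' le_rfl g2
        rw [g4, (hy' j (by omega)).2, sub_zero] at h4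
        have h5 := num_small (by omega) h4
        have h6 : bgA ℝ (aexp n m j) = Bg (rexp n m j + n + 6) := rfl
        have h7 : bgA ℝ (gexp n m + 1) = Bg e * Bg e := by
          rw [bgA_real, ← he]; exact Bg_succ' e
        rw [h6, h7]
        nlinarith
      · rw [yv_succ]
        have h4 := hval u' g2 le_rfl
        rw [g5] at h4
        have h5 := num_large (by omega) hz3 h4
        have h6 : bgA ℝ (aexp n m j) = Bg (rexp n m j + n + 6) := rfl
        have h7 : bgA ℝ (gexp n m + 1) = Bg e * Bg e := by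
          rw [bgA_real, ← he]; exact Bg_succ' e
        rw [← he] at h5
        have h8 : Bg (e + 2) = Bg e * Bg e * (Bg e * Bg e) := by
          rw [show e + 2 = e + 1 + 1 by ring, Bg_succ' (e + 1), Bg_succ' e]
        rw [h6, h7]
        rw [h8] at h5
        have h9 : 2 * Bg e + Bg e * Bg e ≤ Bg e * Bg e * (Bg e * Bg e) := by
          have h10 : 16 ≤ Bg e * Bg e := by nlinarith
          nlinarith
        linarith
  obtain ⟨s, u, h1, h2, h3⟩ := key (m - 1) (by omega)
  have hcont : ContinuousOn (fun w : ℝ => yv n m fs (s + (u - s) * w) (m - 1) (m - 1)) (Icc 0 1) :=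
    ((continuous_yv n m fs (m - 1) (m - 1)).comp (by fun_prop : Continuous fun w : ℝ =>
      s + (u - s) * w)).continuousOn
  have hym := abs_le.1 (hyb' (m - 1) (by omega))
  obtain ⟨w0, hw0, hw1⟩ := intermediate_value_Icc zero_le_one hcont
    (show y' (m - 1) ∈ Icc _ _ by
      simp only [mul_zero, add_zero, mul_one]
      rw [show s + (u - s) = u by ring]
      constructor <;> linarith)
  dsimp only at hw1
  obtain ⟨t0, ht0⟩ : ∃ t0, t0 = s + (u - s) * w0 := ⟨_, rfl⟩
  rw [← ht0] at hw1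
  have hcl : ∀ k < m - 1, |yv n m fs t0 k k - y' k| * Bg (rexp n m k) ≤ 1 := by
    rw [ht0]; exact h1 w0 hw0.1 hw0.2
  have hev : Even (2 ^ (m + 2)) := ⟨2 ^ (m + 1), by ring⟩
  have hneg : finA n m fs t0 ≤ 0 := by
    have hval : |value (yv n m fs t0 (m - 1)) (fs (m - 1))| ≤
        1 / Bg (rexp n m (m - 1) + n + 6) * Bg (gexp n m + n + 2) := by
      rw [hvk, hw1]
      have h4 := diff_le (n := n) (m := m) (j := m - 1) (by omega) (hlen (m - 1))
        (y := fun k => yv n m fs t0 k k) (y' := y') (z := y' (m - 1))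
        (fun k hk => by rw [← he]; exact hyb' k (by omega))
        (by rw [← he, abs_le]; constructor <;> linarith) hcl
      rw [(hy' (m - 1) (by omega)).2, sub_zero] at h4
      exact h4
    have hre := rexp_ge n m (m - 1)
    have h5 := num_small (by omega) hval
    have h6 : bgA ℝ (aexp n m (m - 1)) = Bg (rexp n m (m - 1) + n + 6) := rfl
    unfold finA
    rw [h6, bgA_real, bgA_real, ← he]
    have hsum : ∑ j ∈ Finset.range m, yv n m fs t0 j j ^ (2 ^ (m + 2)) ≤
        m * (Bg (m + 2) * Bg (e + m + 1)) := by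
      have h7 : ∀ j ∈ Finset.range m, yv n m fs t0 j j ^ (2 ^ (m + 2)) ≤
          Bg (m + 2) * Bg (e + m + 1) := by
        intro j hj
        rw [Finset.mem_range] at hj
        have h8 : |yv n m fs t0 j j| ≤ 2 * Bg (e - 1) := by
          rcases Nat.lt_or_ge j (m - 1) with h9 | h9
          · have h10 := hcl j h9
            rw [← le_div_iff₀ (hr1 j)] at h10
            have h11 := hyb j hj
            have h12 := hr2 j
            have h13 : |yv n m fs t0 j j| ≤ |yv n m fs t0 j j - y' j| + |y' j| := by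
              have := abs_add_le (yv n m fs t0 j j - y' j) (y' j)
              simpa using this
            linarith
          · have h9 : j = m - 1 := by omega
            rw [h9, hw1]
            have := hyb (m - 1) (by omega)
            linarith
        calc yv n m fs t0 j j ^ (2 ^ (m + 2)) = |yv n m fs t0 j j| ^ (2 ^ (m + 2)) :=
              (hev.pow_abs _).symm
          _ ≤ (2 * Bg (e - 1)) ^ (2 ^ (m + 2)) := pow_le_pow_left₀ (abs_nonneg _) h8 _
          _ = Bg (m + 2) * Bg (e + m + 1) := by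
              rw [mul_pow, Bg_pow, show e - 1 + (m + 2) = e + m + 1 by omega]
              rfl
      refine (Finset.sum_le_sum h7).trans ?_
      rw [Finset.sum_const, Finset.card_range, nsmul_eq_mul]
    have h8 : 1 + m * (Bg (m + 2) * Bg (e + m + 1)) ≤ Bg (m + 1) * Bg (e + m + 2) := by
      have h9 : Bg (e + m + 2) = Bg (e + m + 1) * Bg (e + m + 1) := Bg_succ' _
      have h10 : (m : ℝ) * Bg (m + 2) + 1 ≤ Bg (e + m + 1) := by
        have h11 : (m : ℝ) + 1 ≤ Bg (m + 2) := by
          have h12 : (m : ℝ) + 1 ≤ 2 ^ m := by exact_mod_cast Nat.lt_two_pow_self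
          exact h12.trans ((two_pow_le_Bg m).trans (Bg_mono (by omega)))
        have h13 : Bg (m + 3) = Bg (m + 2) * Bg (m + 2) := Bg_succ' _
        have h14 : Bg (m + 3) ≤ Bg (e + m + 1) := Bg_mono (by omega)
        have h15 := two_le_Bg (m + 2)
        nlinarith
      have h16 := two_le_Bg (m + 1)
      have h17 := two_le_Bg (e + m + 1)
      rw [h9]
      calc 1 + m * (Bg (m + 2) * Bg (e + m + 1))
          ≤ Bg (e + m + 1) + m * (Bg (m + 2) * Bg (e + m + 1)) := by linarith
        _ = (m * Bg (m + 2) + 1) * Bg (e + m + 1) := by ring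
        _ ≤ Bg (e + m + 1) * Bg (e + m + 1) := mul_le_mul_of_nonneg_right h10 (by linarith)
        _ ≤ Bg (m + 1) * (Bg (e + m + 1) * Bg (e + m + 1)) := by nlinarith
    linarith
  have hpos : 0 ≤ finA n m fs u := by
    unfold finA
    rw [bgA_real, bgA_real, bgA_real, ← he]
    have h4 : yv n m fs u (m - 1) (m - 1) ^ (2 ^ (m + 2)) ≤
        ∑ j ∈ Finset.range m, yv n m fs u j j ^ (2 ^ (m + 2)) :=
      Finset.single_le_sum (f := fun j => yv n m fs u j j ^ (2 ^ (m + 2)))
        (fun j _ => hev.pow_nonneg _) (Finset.mem_range.2 (by omega))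
    have h5 : Bg (m + 2) * Bg (e + m + 2) ≤ yv n m fs u (m - 1) (m - 1) ^ (2 ^ (m + 2)) := by
      calc Bg (m + 2) * Bg (e + m + 2) = (2 * Bg e) ^ (2 ^ (m + 2)) := by
            rw [mul_pow, Bg_pow, show e + (m + 2) = e + m + 2 by ring]
            rfl
        _ ≤ _ := pow_le_pow_left₀ (by positivity) h3 _
    have h6 : Bg (m + 1) * Bg (e + m + 2) ≤ Bg (m + 2) * Bg (e + m + 2) :=
      mul_le_mul_of_nonneg_right (Bg_mono (by omega)) (Bg_pos _).le
    have h7 : 0 ≤ Bg (aexp n m (m - 1)) * value (yv n m fs u (m - 1)) (fs (m - 1)) ^ 2 :=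
      mul_nonneg (Bg_pos _).le (sq_nonneg _)
    linarith
  have hc : ContinuousOn (fun t : ℝ => finA n m fs t) (uIcc t0 u) :=
    (continuous_finA n m fs).continuousOn
  have h0 : (0 : ℝ) ∈ uIcc (finA n m fs t0) (finA n m fs u) :=
    Set.mem_uIcc.2 (Or.inl ⟨hneg, hpos⟩)
  obtain ⟨t, -, ht⟩ := intermediate_value_uIcc hc h0
  exact ⟨t, ht⟩

end Pool.Agent.Work.MP_859ada_lc

end

section

/-!
# MP_859ada_lc: every triangular system is equivalent to a regular one
-/

set_option autoImplicit false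

namespace Pool.Agent.Work.MP_859ada_lc

open Polynomial

/-- The auxiliary equation: `f_i(x_{<i}, c)^2 Y^2 = 1`. -/
def regA (n K i : ℕ) (q : List Gate) : List Gate :=
  preB K ++ (copyB n 1 (3 + K)
    (fun k => if k < i then .var (2 * k + 1) else if k = i then .mul (2 + K) 0 else .sub 0 0) q ++
  [.mul (3 + K + n - 1) (3 + K + n - 1), .var (2 * i),
    .mul (3 + K + n + 1) (3 + K + n + 1), .mul (3 + K + n) (3 + K + n + 2),
    .sub (3 + K + n + 3) 0])

/-- The equation, with renamed variables. -/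
def regB (n i : ℕ) (q : List Gate) : List Gate :=
  [.one, .sub 0 0] ++ copyB n 1 2 (fun k => if k ≤ i then .var (2 * k + 1) else .sub 0 0) q

/-- The regular system. -/
def regF (n K : ℕ) (fs : ℕ → List Gate) (j : ℕ) : List Gate :=
  if j % 2 = 0 then regA n K (j / 2) (fs (j / 2)) else regB n (j / 2) (fs (j / 2))

section reg

variable {n K i : ℕ} {q : List Gate}

theorem length_regA (hq : q.length ≤ n) : (regA n K i q).length = K + n + 8 := by
  unfold regA
  rw [List.length_append, List.length_append, length_copyB hq, length_preB]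
  simp
  omega

theorem length_regB (hq : q.length ≤ n) : (regB n i q).length = n + 2 := by
  unfold regB
  rw [List.length_append, length_copyB hq]
  simp
  omega

theorem length_regF {fs : ℕ → List Gate} (hlen : ∀ j, (fs j).length ≤ n) (j : ℕ) :
    (regF n K fs j).length ≤ K + n + 8 := by
  unfold regF
  split_ifs
  · rw [length_regA (hlen _)]
  · rw [length_regB (hlen _)]; omega

theorem regA_wf (hq : q.length ≤ n) : WF (2 * i + 1) (regA n K i q) := by
  rw [wf_iff]
  unfold regA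
  rw [allAt_append, allAt_append, length_copyB hq, length_preB]
  simp only [allAt_cons, allAt_nil, Gate.Ok, and_true, Nat.zero_add]
  refine ⟨preB_ok _ _, copyB_ok (by omega) (fun k => ?_), ⟨by omega, by omega⟩, by omega,
    ⟨by omega, by omega⟩, ⟨by omega, by omega⟩, ⟨by omega, by omega⟩⟩
  split_ifs
  · exact (show 2 * k + 1 < 2 * i + 1 by omega)
  · exact ⟨by omega, by omega⟩
  · exact ⟨by omega, by omega⟩

theorem regB_wf : WF (2 * i + 2) (regB n i q) := by
  rw [wf_iff]
  unfold regB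
  rw [allAt_append]
  simp only [allAt_cons, allAt_nil, Gate.Ok, and_true, List.length_cons, List.length_nil,
    Nat.zero_add]
  refine ⟨⟨trivial, ⟨by omega, by omega⟩⟩, copyB_ok (by omega) (fun k => ?_)⟩
  split_ifs
  · exact (show 2 * k + 1 < 2 * i + 2 by omega)
  · exact ⟨by omega, by omega⟩

variable {A : Type*} [CommRing A]

theorem regA_value (hn : 1 ≤ n) (hq : q.length ≤ n) (x : ℕ → A) :
    value x (regA n K i q) = value (fun k => if k < i then x (2 * k + 1) else
      if k = i then 2 ^ (2 ^ K) else 0) q ^ 2 * x (2 * i) ^ 2 - 1 := by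
  have hM := models_self (regA_wf (i := i) (K := K) hq) x
  rw [value_eq_getD, length_regA hq]
  generalize hv : (fun i' => (vals x (regA n K i q)).getD i' 0) = v at hM
  have hv' : ∀ i', (vals x (regA n K i q)).getD i' 0 = v i' := fun i' => by rw [← hv]
  rw [hv']
  simp only [hv'] at hM
  clear hv hv'
  unfold regA at hM
  rw [allAt_append, allAt_append, length_copyB hq, length_preB] at hM
  simp only [allAt_cons, allAt_nil, Gate.eqv, and_true, Nat.zero_add] at hM
  obtain ⟨h1, h2, h3, h4, h5, h6, h7⟩ := hM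
  obtain ⟨hone, hzero, hbg⟩ := preB_value h1
  have hV := copyB_value h2 hzero hq hn (x' := fun k => if k < i then x (2 * k + 1) else
      if k = i then 2 ^ (2 ^ K) else 0) (fun k => by
    split_ifs
    · rfl
    · simp only [Gate.eqv]; rw [hbg K le_rfl, hone, mul_one]
    · simp only [Gate.eqv, sub_self])
  rw [hV] at h3
  rw [h4] at h5
  rw [show 3 + K + n + 1 + 1 = 3 + K + n + 2 by ring] at h5
  rw [show 3 + K + n + 1 + 1 + 1 = 3 + K + n + 3 by ring, h3, h5] at h6
  rw [show 3 + K + n + 1 + 1 + 1 + 1 = 3 + K + n + 4 by ring, h6, hone] at h7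
  rw [show K + n + 8 - 1 = 3 + K + n + 4 by omega, h7]
  ring

theorem regB_value (hn : 1 ≤ n) (hq : q.length ≤ n) (x : ℕ → A) :
    value x (regB n i q) = value (fun k => if k ≤ i then x (2 * k + 1) else 0) q := by
  have hM := models_self (regB_wf (i := i) (n := n) (q := q)) x
  rw [value_eq_getD, length_regB hq]
  generalize hv : (fun i' => (vals x (regB n i q)).getD i' 0) = v at hM
  have hv' : ∀ i', (vals x (regB n i q)).getD i' 0 = v i' := fun i' => by rw [← hv]
  rw [hv']
  simp only [hv'] at hM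
  clear hv hv'
  unfold regB at hM
  rw [allAt_append] at hM
  simp only [allAt_cons, allAt_nil, Gate.eqv, and_true, Nat.zero_add, List.length_cons,
    List.length_nil, sub_self] at hM
  obtain ⟨⟨h1, h2⟩, h3⟩ := hM
  have hV := copyB_value h3 h2 hq hn (x' := fun k => if k ≤ i then x (2 * k + 1) else 0)
    (fun k => by
      split_ifs
      · rfl
      · simp only [Gate.eqv, sub_self])
  rw [← hV]
  congr 1
  omega

theorem polyAt_regA (hn : 1 ≤ n) (hq : q.length ≤ n) (y : ℕ → A) :
    polyAt y (2 * i) (regA n K i q) =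
      C ((polyAt (fun k => y (2 * k + 1)) i q).eval (2 ^ (2 ^ K)) ^ 2) * X ^ 2 - 1 := by
  rw [polyAt, regA_value hn hq]
  simp only [lt_irrefl, if_false, if_true]
  congr 2
  rw [C_pow]
  congr 1
  rw [polyAt_eval]
  have h := value_map (C : A →+* A[X]) (fun k => if k < i then y (2 * k + 1) else
      if k = i then 2 ^ (2 ^ K) else 0) q
  rw [← h]
  refine value_congr fun k _ => ?_
  split_ifs with h1 h2 h3 h4
  · rfl
  · omega
  · omega
  · rw [map_pow, map_ofNat]
  · rw [map_zero]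

theorem polyAt_regB (hn : 1 ≤ n) (hq : q.length ≤ n) (y : ℕ → A) :
    polyAt y (2 * i + 1) (regB n i q) = polyAt (fun k => y (2 * k + 1)) i q := by
  rw [polyAt, regB_value hn hq, polyAt]
  refine value_congr fun k _ => ?_
  split_ifs <;> first | rfl | omega

end reg

theorem regF_even (n K : ℕ) (fs : ℕ → List Gate) (i : ℕ) :
    regF n K fs (2 * i) = regA n K i (fs i) := by
  unfold regF
  rw [if_pos (by omega), show 2 * i / 2 = i by omega]

theorem regF_odd (n K : ℕ) (fs : ℕ → List Gate) (i : ℕ) :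
    regF n K fs (2 * i + 1) = regB n i (fs i) := by
  unfold regF
  rw [if_neg (by omega), show (2 * i + 1) / 2 = i by omega]

/-- The system is regular. -/
theorem regF_reg {n K : ℕ} (hn : 1 ≤ n) {fs : ℕ → List Gate} (hlen : ∀ j, (fs j).length ≤ n)
    (j : ℕ) (y : ℕ → ℝ) (h : Exact (regF n K fs) j y) : polyAt y j (regF n K fs j) ≠ 0 := by
  obtain ⟨i, rfl | rfl⟩ : ∃ i, j = 2 * i ∨ j = 2 * i + 1 := ⟨j / 2, by omega⟩
  · rw [regF_even, polyAt_regA hn (hlen i)]
    intro h0
    have := congrArg (fun p => p.eval 0) h0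
    simp at this
  · have h1 := (h (2 * i) (by omega)).2
    rw [regF_even, polyAt_regA hn (hlen i)] at h1
    rw [regF_odd, polyAt_regB hn (hlen i)]
    intro h0
    rw [h0] at h1
    simp at h1

theorem regF_sound {n K m : ℕ} (hn : 1 ≤ n) {fs : ℕ → List Gate}
    (hlen : ∀ j, (fs j).length ≤ n) {y : ℕ → ℝ} (h : Exact (regF n K fs) (2 * m) y) :
    Exact fs m (fun k => y (2 * k + 1)) := by
  intro i hi
  have h1 := h (2 * i + 1) (by omega)
  rw [regF_odd, polyAt_regB hn (hlen i)] at h1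
  exact h1

theorem regF_complete {n m : ℕ} (hn : 1 ≤ n) {fs : ℕ → List Gate}
    (hlen : ∀ j, (fs j).length ≤ n) {y : ℕ → ℝ} (h : Exact fs m y) :
    ∃ y' : ℕ → ℝ, Exact (regF n (gexp n m) fs) (2 * m) y' := by
  obtain ⟨c, hc⟩ : ∃ c : ℕ → ℝ, c = fun i => (polyAt y i (fs i)).eval (2 ^ (2 ^ gexp n m)) :=
    ⟨_, rfl⟩
  have hc0 : ∀ i < m, c i ≠ 0 := by
    intro i hi h0
    rw [hc] at h0
    have h1 : Exact fs (i + 1) (fun k => if k = i then (2 ^ (2 ^ gexp n m) : ℝ) else y k) := by
      intro j hj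
      dsimp only
      have h2 : polyAt (fun k => if k = i then (2 ^ (2 ^ gexp n m) : ℝ) else y k) j (fs j) =
          polyAt y j (fs j) := polyAt_congr (fun k hk => if_neg (by omega)) _
      rw [h2]
      rcases Nat.lt_succ_iff_lt_or_eq.1 hj with hj | rfl
      · rw [if_neg (by omega)]
        exact h j (by omega)
      · rw [if_pos rfl]
        exact ⟨(h j hi).1, h0⟩
    have h2 := bound_exact hlen (exactC h1) (Nat.lt_succ_self i)
    simp only [if_true] at h2
    rw [Complex.norm_real, Real.norm_eq_abs, abs_of_pos (by positivity)] at h2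
    have h3 : gexp n (i + 1) ≤ gexp n m := gexp_mono hi
    have h4 := gexp_ge n (i + 1)
    have h5 : Bg (gexp n (i + 1) - 1) * Bg (gexp n (i + 1) - 1) ≤ Bg (gexp n m) := by
      rw [← Bg_succ']
      exact Bg_mono (by omega)
    have h6 : Bg (gexp n m) ≤ Bg (gexp n (i + 1) - 1) := h2
    have h7 := two_le_Bg (gexp n (i + 1) - 1)
    nlinarith
  refine ⟨fun k => if k % 2 = 0 then 1 / c (k / 2) else y (k / 2), fun j hj => ?_⟩
  have e : ∀ k, (fun k => if k % 2 = 0 then 1 / c (k / 2) else y (k / 2)) (2 * k + 1) = y k := by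
    intro k
    dsimp only
    rw [if_neg (by omega), show (2 * k + 1) / 2 = k by omega]
  obtain ⟨i, rfl | rfl⟩ : ∃ i, j = 2 * i ∨ j = 2 * i + 1 := ⟨j / 2, by omega⟩
  · rw [regF_even, polyAt_regA hn (hlen i)]
    simp only [e]
    have h2 : (polyAt y i (fs i)).eval (2 ^ (2 ^ gexp n m)) = c i := by rw [hc]
    have h3 := hc0 i (by omega)
    rw [h2]
    constructor
    · intro h0
      have := congrArg (fun p => p.eval 0) h0
      simp at this
    · rw [if_pos (by omega), show 2 * i / 2 = i by omega]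
      simp only [eval_sub, eval_mul, eval_C, eval_pow, eval_X, eval_one]
      field_simp
      ring
  · rw [regF_odd, polyAt_regB hn (hlen i)]
    simp only [e]
    exact h i (by omega)

/-- The main reduction, for functions. -/
theorem main_iff {n m : ℕ} (hn : 3 ≤ n) (hm : 1 ≤ m) {fs : ℕ → List Gate}
    (hlen : ∀ j, (fs j).length ≤ n) :
    (∃ y : ℕ → ℝ, Exact fs m y) ↔
      ROOT (progF (aexp (gexp n m + n + 8) (2 * m) 0) (gexp n m + n + 8) (2 * m)
        (regF n (gexp n m) fs)) := by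
  obtain ⟨n', hn'⟩ : ∃ n', n' = gexp n m + n + 8 := ⟨_, rfl⟩
  obtain ⟨fs', hfs'⟩ : ∃ fs', fs' = regF n (gexp n m) fs := ⟨_, rfl⟩
  rw [← hn', ← hfs']
  have hlen' : ∀ j, (fs' j).length ≤ n' := by
    intro j; rw [hfs', hn']; exact length_regF hlen j
  have hval : ∀ t : ℝ, (value (fun _ => X) (progF (aexp n' (2 * m) 0) n' (2 * m) fs') :
      ℤ[X]).aeval t = finA n' (2 * m) fs' t := by
    intro t
    rw [progF_value le_rfl (by omega) (by omega) hlen']
    have := map_finA n' (2 * m) fs' ((aeval t : ℤ[X] →ₐ[ℤ] ℝ) : ℤ[X] →+* ℝ) X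
    simp only [RingHom.coe_coe, aeval_X] at this
    exact this
  have hne : progF (aexp n' (2 * m) 0) n' (2 * m) fs' ≠ [] := by
    intro h0
    have := length_progF (J := aexp n' (2 * m) 0) (m := 2 * m) hlen'
    rw [h0] at this
    simp at this
  constructor
  · rintro ⟨y, hy⟩
    obtain ⟨y', hy'⟩ := regF_complete (by omega) hlen hy
    rw [← hfs'] at hy'
    obtain ⟨t, ht⟩ := complete (by omega) hlen' hy'
    refine ⟨hne, progF_wf le_rfl (by omega) (by omega) hlen', t, ?_⟩
    rw [hval, ht]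
  · rintro ⟨-, -, t, ht⟩
    rw [hval] at ht
    obtain ⟨y', hy'⟩ := sound (n := n') (m := 2 * m) (by omega) (by omega) hlen' (fun j _ y hy => by
      rw [hfs'] at hy ⊢
      exact regF_reg (by omega) hlen j y hy) (t := t) ht.le
    rw [hfs'] at hy'
    exact ⟨_, regF_sound (by omega) hlen hy'⟩

end Pool.Agent.Work.MP_859ada_lc

end

section

/-!
# MP_859ada_lc: the reduction is computed in polynomial time
-/

set_option autoImplicit false

namespace Pool.Agent.Work.MP_859ada_lc

open Pool.Agent.PT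

theorem Gate.code_inj : Function.Injective Gate.code := by
  intro g g' h
  cases g <;> cases g' <;> simp_all [Gate.code]

instance : Enc Gate := ⟨fun g => Enc.enc g.code, fun _ _ h => Gate.code_inj (Enc.inj h)⟩

section
variable {α : Type} [Enc α]

@[fun_prop]
theorem PTF.gcode {f : α → Gate} (hf : PTF f) : PTF (fun a => (f a).code) :=
  hf.recode (fun _ => rfl)

@[fun_prop]
theorem PTF.gvar {f : α → ℕ} (hf : PTF f) : PTF (fun a => Gate.var (f a)) :=
  ((PTF.const 1).pair (hf.pair (PTF.const 0))).recode (fun _ => rfl)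

@[fun_prop]
theorem PTF.gadd {f g : α → ℕ} (hf : PTF f) (hg : PTF g) : PTF (fun a => Gate.add (f a) (g a)) :=
  ((PTF.const 2).pair (hf.pair hg)).recode (fun _ => rfl)

@[fun_prop]
theorem PTF.gsub {f g : α → ℕ} (hf : PTF f) (hg : PTF g) : PTF (fun a => Gate.sub (f a) (g a)) :=
  ((PTF.const 3).pair (hf.pair hg)).recode (fun _ => rfl)

@[fun_prop]
theorem PTF.gmul {f g : α → ℕ} (hf : PTF f) (hg : PTF g) : PTF (fun a => Gate.mul (f a) (g a)) :=
  ((PTF.const 4).pair (hf.pair hg)).recode (fun _ => rfl)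

@[fun_prop]
theorem PTF.ref {z b k i : α → ℕ} (hz : PTF z) (hb : PTF b) (hk : PTF k) (hi : PTF i) :
    PTF (fun a => ref (z a) (b a) (k a) (i a)) := by
  unfold MP_859ada_lc.ref
  fun_prop

@[fun_prop]
theorem PTF.cg {z b k : α → ℕ} {r : α → ℕ → Gate} {g : α → Gate} (hz : PTF z) (hb : PTF b)
    (hk : PTF k) (hr : PTF (fun p : α × ℕ => r p.1 p.2)) (hg : PTF g) :
    PTF (fun a => cg (z a) (b a) (k a) (r a) (g a)) := by
  have h1 : PTF (fun a => r a (g a).code.2.1) :=
    PTF.comp (f := fun p : α × ℕ => r p.1 p.2) (g := fun a => (a, (g a).code.2.1)) hr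
      (by fun_prop)
  have h2 : PTF (fun a => if (g a).code.1 = 0 then Gate.one else
      if (g a).code.1 = 1 then r a (g a).code.2.1 else
      if (g a).code.1 = 2 then Gate.add (MP_859ada_lc.ref (z a) (b a) (k a) (g a).code.2.1)
        (MP_859ada_lc.ref (z a) (b a) (k a) (g a).code.2.2) else
      if (g a).code.1 = 3 then Gate.sub (MP_859ada_lc.ref (z a) (b a) (k a) (g a).code.2.1)
        (MP_859ada_lc.ref (z a) (b a) (k a) (g a).code.2.2) else
      Gate.mul (MP_859ada_lc.ref (z a) (b a) (k a) (g a).code.2.1)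
        (MP_859ada_lc.ref (z a) (b a) (k a) (g a).code.2.2)) := by
    fun_prop
  refine h2.congr (fun a => ?_)
  cases g a <;> simp [Gate.code, MP_859ada_lc.cg]

@[fun_prop]
theorem PTF.copyB {n z b : α → ℕ} {r : α → ℕ → Gate} {q : α → List Gate} (hn : PTF n)
    (hz : PTF z) (hb : PTF b) (hr : PTF (fun p : α × ℕ => r p.1 p.2)) (hq : PTF q) :
    PTF (fun a => copyB (n a) (z a) (b a) (r a) (q a)) := by
  have hr' : PTF (fun p : (α × ℕ) × ℕ => r p.1.1 p.2) :=
    PTF.comp (f := fun p : α × ℕ => r p.1 p.2) (g := fun p : (α × ℕ) × ℕ => (p.1.1, p.2)) hr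
      (by fun_prop)
  unfold MP_859ada_lc.copyB
  refine PTF.append (by fun_prop) (PTF.map' ?_ (by fun_prop))
  exact PTF.cg (r := fun p : α × ℕ => r p.1) (by fun_prop) (by fun_prop) (by fun_prop) hr'
    (by fun_prop)

@[fun_prop]
theorem PTF.preB {J : α → ℕ} (hJ : PTF J) : PTF (fun a => preB (J a)) := by
  unfold MP_859ada_lc.preB
  fun_prop

@[fun_prop]
theorem PTF.gexp {n m : α → ℕ} (hn : PTF n) (hm : PTF m) : PTF (fun a => gexp (n a) (m a)) := by
  unfold MP_859ada_lc.gexp
  fun_prop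

@[fun_prop]
theorem PTF.aexp {n m j : α → ℕ} (hn : PTF n) (hm : PTF m) (hj : PTF j) :
    PTF (fun a => aexp (n a) (m a) (j a)) := by
  unfold MP_859ada_lc.aexp rexp
  fun_prop

@[fun_prop]
theorem PTF.sIdx {J n m j : α → ℕ} (hJ : PTF J) (hn : PTF n) (hm : PTF m) (hj : PTF j) :
    PTF (fun a => sIdx (J a) (n a) (m a) (j a)) := by
  unfold MP_859ada_lc.sIdx
  fun_prop

@[fun_prop]
theorem PTF.blockF {J n m j : α → ℕ} {q : α → List Gate} (hJ : PTF J) (hn : PTF n) (hm : PTF m)
    (hq : PTF q) (hj : PTF j) :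
    PTF (fun a => blockF (J a) (n a) (m a) (q a) (j a)) := by
  unfold MP_859ada_lc.blockF
  fun_prop

@[fun_prop]
theorem PTF.progF {J n m : α → ℕ} {fs : α → ℕ → List Gate} (hJ : PTF J) (hn : PTF n) (hm : PTF m)
    (hfs : PTF (fun p : α × ℕ => fs p.1 p.2)) :
    PTF (fun a => progF (J a) (n a) (m a) (fs a)) := by
  unfold MP_859ada_lc.progF
  fun_prop

@[fun_prop]
theorem PTF.regA {n K i : α → ℕ} {q : α → List Gate} (hn : PTF n) (hK : PTF K) (hi : PTF i)
    (hq : PTF q) : PTF (fun a => regA (n a) (K a) (i a) (q a)) := by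
  unfold MP_859ada_lc.regA
  fun_prop

@[fun_prop]
theorem PTF.regB {n i : α → ℕ} {q : α → List Gate} (hn : PTF n) (hi : PTF i)
    (hq : PTF q) : PTF (fun a => regB (n a) (i a) (q a)) := by
  unfold MP_859ada_lc.regB
  fun_prop

theorem PTF.regF {n K : α → ℕ} {fs : α → ℕ → List Gate} (hn : PTF n) (hK : PTF K)
    (hfs : PTF (fun p : α × ℕ => fs p.1 p.2)) :
    PTF (fun p : α × ℕ => regF (n p.1) (K p.1) (fs p.1) p.2) := by
  unfold MP_859ada_lc.regF
  have h1 : PTF (fun p : α × ℕ => fs p.1 (p.2 / 2)) :=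
    PTF.comp (f := fun p : α × ℕ => fs p.1 p.2) (g := fun p : α × ℕ => (p.1, p.2 / 2)) hfs
      (by fun_prop)
  fun_prop

end

/-- Bound for the lengths of the programs. -/
def nOf (l : List (List Gate)) : ℕ := 3 + (l.map List.length).sum

theorem length_le_nOf (l : List (List Gate)) (j : ℕ) : (l.getD j []).length ≤ nOf l := by
  rcases Nat.lt_or_ge j l.length with h | h
  · rw [List.getD_eq_getElem _ _ h]
    have h1 : (l[j]).length ∈ l.map List.length := List.mem_map.2 ⟨_, List.getElem_mem h, rfl⟩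
    have := List.single_le_sum (by simp) _ h1
    unfold nOf
    omega
  · rw [List.getD_eq_default _ _ h]
    simp

/-- The reduction from TRI to ROOT. -/
def triToRoot (l : List (List Gate)) : List Gate :=
  if l.length = 0 then [.var 0] else
    progF (aexp (gexp (nOf l) l.length + nOf l + 8) (2 * l.length) 0)
      (gexp (nOf l) l.length + nOf l + 8) (2 * l.length)
      (regF (nOf l) (gexp (nOf l) l.length) (fun j => l.getD j []))

theorem tri_iff_exact (l : List (List Gate)) :
    TRI l ↔ ∃ y : ℕ → ℝ, Exact (fun j => l.getD j []) l.length y := by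
  unfold TRI Exact
  refine exists_congr fun y => forall_congr' fun j => forall_congr' fun hj => ?_
  dsimp only
  rw [List.getD_eq_getElem _ _ hj]

/-- **The reduction is correct.** -/
theorem triToRoot_iff (l : List (List Gate)) : TRI l ↔ ROOT (triToRoot l) := by
  unfold triToRoot
  split_ifs with h
  · have h0 : l = [] := List.eq_nil_of_length_eq_zero h
    subst h0
    refine iff_of_true ⟨fun _ => 0, fun j hj => absurd hj (by simp)⟩ ⟨by simp, ?_, 0, ?_⟩
    · intro k hk
      simp at hk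
      subst hk
      exact Nat.zero_lt_one
    · simp [value, vals, Gate.val]
  · rw [tri_iff_exact]
    exact main_iff (by unfold nOf; omega) (by omega) (length_le_nOf l)

theorem ptf_nOf : PTF nOf := by
  unfold nOf
  fun_prop

theorem ptf_triToRoot : PTF triToRoot := by
  have h1 := ptf_nOf
  have h2 : PTF (fun l : List (List Gate) => gexp (nOf l) l.length) := by fun_prop
  have h3 : PTF (fun p : List (List Gate) × ℕ => p.1.getD p.2 []) := by fun_prop
  have h4 : PTF (fun l : List (List Gate) =>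
      progF (aexp (gexp (nOf l) l.length + nOf l + 8) (2 * l.length) 0)
      (gexp (nOf l) l.length + nOf l + 8) (2 * l.length)
      (regF (nOf l) (gexp (nOf l) l.length) (fun j => l.getD j []))) :=
    PTF.progF (by fun_prop) (by fun_prop) (by fun_prop)
      (PTF.regF (fs := fun l j => l.getD j []) h1 h2 h3)
  unfold triToRoot
  exact PTF.ite (by fun_prop) (PTF.const _) h4

end Pool.Agent.Work.MP_859ada_lc

end
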