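import Pool.Agent.Work.MP_859ada_lc.Bd.B01
import Pool.Agent.Work.PT.Link
import Pool.Agent.Work.PT.BitEnc

/-! Bundle of small proof modules (one section per former module). -/

section

/-!
# MP_859ada_lc: from ROOT to triangular systems
-/

set_option autoImplicit false

namespace Pool.Agent.Work.MP_859ada_lc

open Polynomial Pool.Agent.PT

/-- The Boolean test for `Gate.Ok`. -/
def okb (n k : ℕ) (g : Gate) : Bool :=
  if g.code.1 = 0 then true else if g.code.1 = 1 then decide (g.code.2.1 < n) else
    decide (g.code.2.1 < k ∧ g.code.2.2 < k)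

theorem okb_iff (n k : ℕ) (g : Gate) : okb n k g = true ↔ g.Ok n k := by
  cases g <;> simp [okb, Gate.code, Gate.Ok]

/-- The Boolean test for well formed programs. -/
def wfb (n : ℕ) (p : List Gate) : Bool :=
  (List.range p.length).all (fun k => okb n k (p.getD k .one))

theorem wfb_iff (n : ℕ) (p : List Gate) : wfb n p = true ↔ WF n p := by
  unfold wfb WF
  simp only [List.all_eq_true, List.mem_range, okb_iff]
  refine forall_congr' fun k => forall_congr' fun hk => ?_
  rw [List.getD_eq_getElem _ _ hk]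

/-- The equation for a bit. -/
def eqBit (j : ℕ) : List Gate := [.var j, .mul 0 0, .sub 1 0]

/-- The equation `Y^2 + y_0 f(c)^2 = 0`. -/
def backA (n K : ℕ) (p : List Gate) : List Gate :=
  preB K ++ (copyB n 1 (3 + K) (fun k => if k = 0 then .mul (2 + K) 0 else .sub 0 0) p ++
  [.mul (3 + K + n - 1) (3 + K + n - 1), .var 0, .mul (3 + K + n) (3 + K + n + 1), .var 1,
    .mul (3 + K + n + 3) (3 + K + n + 3), .add (3 + K + n + 2) (3 + K + n + 4)])

/-- The equation `y_0 Y + (1 - y_0) f(Y) = 0`. -/
def backB (n : ℕ) (p : List Gate) : List Gate :=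
  [.one, .sub 0 0, .var 0, .var 2, .sub 0 2, .mul 2 3] ++
    (copyB n 1 6 (fun k => if k = 0 then .var 2 else .sub 0 0) p ++
      [.mul 4 (5 + n), .add 5 (6 + n)])

theorem value_eqBit {A : Type*} [CommRing A] (j : ℕ) (x : ℕ → A) :
    value x (eqBit j) = x j * x j - x j := by
  simp [eqBit, value, vals, Gate.val]

theorem polyAt_eqBit {A : Type*} [CommRing A] (j : ℕ) (y : ℕ → A) :
    polyAt y j (eqBit j) = X * X - X := by
  rw [polyAt, value_eqBit]
  simp

section back

variable {n K : ℕ} {p : List Gate}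

theorem length_backA (hp : p.length ≤ n) : (backA n K p).length = K + n + 9 := by
  unfold backA
  rw [List.length_append, List.length_append, length_copyB hp, length_preB]
  simp
  omega

theorem length_backB (hp : p.length ≤ n) : (backB n p).length = n + 8 := by
  unfold backB
  rw [List.length_append, List.length_append, length_copyB hp]
  simp
  omega

theorem backA_wf (hp : p.length ≤ n) : WF 2 (backA n K p) := by
  rw [wf_iff]
  unfold backA
  rw [allAt_append, allAt_append, length_copyB hp, length_preB]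
  simp only [allAt_cons, allAt_nil, Gate.Ok, and_true, Nat.zero_add]
  refine ⟨preB_ok _ _, copyB_ok (by omega) (fun k => ?_), ⟨by omega, by omega⟩, by omega,
    ⟨by omega, by omega⟩, by omega, ⟨by omega, by omega⟩, ⟨by omega, by omega⟩⟩
  split_ifs
  · exact ⟨by omega, by omega⟩
  · exact ⟨by omega, by omega⟩

theorem backB_wf (hp : p.length ≤ n) : WF 3 (backB n p) := by
  rw [wf_iff]
  unfold backB
  rw [allAt_append, allAt_append, length_copyB hp]
  simp only [allAt_cons, allAt_nil, Gate.Ok, and_true, Nat.zero_add, List.length_cons,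
    List.length_nil]
  refine ⟨⟨trivial, ⟨by omega, by omega⟩, by omega, by omega, ⟨by omega, by omega⟩,
    ⟨by omega, by omega⟩⟩, copyB_ok (by omega) (fun k => ?_), ⟨by omega, by omega⟩,
    ⟨by omega, by omega⟩⟩
  split_ifs
  · exact (show 2 < 3 by omega)
  · exact ⟨by omega, by omega⟩

variable {A : Type*} [CommRing A]

theorem backA_value (hn : 1 ≤ n) (hp : p.length ≤ n) (x : ℕ → A) :
    value x (backA n K p) =
      value (fun k => if k = 0 then 2 ^ (2 ^ K) else 0) p ^ 2 * x 0 + x 1 ^ 2 := by
  have hM := models_self (backA_wf (K := K) hp) x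
  rw [value_eq_getD, length_backA hp]
  generalize hv : (fun i' => (vals x (backA n K p)).getD i' 0) = v at hM
  have hv' : ∀ i', (vals x (backA n K p)).getD i' 0 = v i' := fun i' => by rw [← hv]
  rw [hv']
  simp only [hv'] at hM
  clear hv hv'
  unfold backA at hM
  rw [allAt_append, allAt_append, length_copyB hp, length_preB] at hM
  simp only [allAt_cons, allAt_nil, Gate.eqv, and_true, Nat.zero_add] at hM
  obtain ⟨h1, h2, h3, h4, h5, h6, h7, h8⟩ := hM
  obtain ⟨hone, hzero, hbg⟩ := preB_value h1
  have hV := copyB_value h2 hzero hp hn (x' := fun k => if k = 0 then 2 ^ (2 ^ K) else 0)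
    (fun k => by
      split_ifs
      · simp only [Gate.eqv]; rw [hbg K le_rfl, hone, mul_one]
      · simp only [Gate.eqv, sub_self])
  rw [hV] at h3
  rw [h3, h4] at h5
  rw [show 3 + K + n + 1 + 1 + 1 = 3 + K + n + 3 by ring] at h6
  rw [h6, show 3 + K + n + 1 + 1 + 1 + 1 = 3 + K + n + 4 by ring] at h7
  rw [show 3 + K + n + 1 + 1 = 3 + K + n + 2 by ring] at h5
  rw [show 3 + K + n + 1 + 1 + 1 + 1 + 1 = 3 + K + n + 5 by ring, h5, h7] at h8
  rw [show K + n + 9 - 1 = 3 + K + n + 5 by omega, h8]
  ring

theorem backB_value (hn : 1 ≤ n) (hp : p.length ≤ n) (x : ℕ → A) :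
    value x (backB n p) = x 0 * x 2 +
      (1 - x 0) * value (fun k => if k = 0 then x 2 else 0) p := by
  have hM := models_self (backB_wf hp) x
  rw [value_eq_getD, length_backB hp]
  generalize hv : (fun i' => (vals x (backB n p)).getD i' 0) = v at hM
  have hv' : ∀ i', (vals x (backB n p)).getD i' 0 = v i' := fun i' => by rw [← hv]
  rw [hv']
  simp only [hv'] at hM
  clear hv hv'
  unfold backB at hM
  rw [allAt_append, allAt_append, length_copyB hp] at hM
  simp only [allAt_cons, allAt_nil, Gate.eqv, and_true, Nat.zero_add, List.length_cons,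
    List.length_nil, sub_self] at hM
  norm_num at hM
  obtain ⟨⟨h1, h2, h3, h4, h5, h6⟩, h7, h8, h9⟩ := hM
  have hV := copyB_value h7 h2 hp hn (x' := fun k => if k = 0 then x 2 else 0)
    (fun k => by
      split_ifs
      · rfl
      · simp only [Gate.eqv, sub_self])
  rw [show 6 + n - 1 = 5 + n by omega] at hV
  rw [show 6 + n + 1 = n + 8 - 1 by omega] at h9
  rw [h9, h8, h6, hV, h5, h1, h3, h4]

end back

/-- The reduction from ROOT to TRI. -/
def rootToTri (p : List Gate) : List (List Gate) :=
  if p ≠ [] ∧ wfb 1 p = true then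
    [eqBit 0, backA (p.length + 1) (gexp (p.length + 1) 1) p, backB (p.length + 1) p]
  else [[.one]]

theorem tri_three {p0 p1 p2 : List Gate} : TRI [p0, p1, p2] ↔ ∃ y : ℕ → ℝ,
    (polyAt y 0 p0 ≠ 0 ∧ (polyAt y 0 p0).eval (y 0) = 0) ∧
    (polyAt y 1 p1 ≠ 0 ∧ (polyAt y 1 p1).eval (y 1) = 0) ∧
    (polyAt y 2 p2 ≠ 0 ∧ (polyAt y 2 p2).eval (y 2) = 0) := by
  unfold TRI
  refine exists_congr fun y => ?_
  constructor
  · intro h
    exact ⟨h 0 (by simp), h 1 (by simp), h 2 (by simp)⟩
  · rintro ⟨h0, h1, h2⟩ j hj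
    simp only [List.length_cons, List.length_nil] at hj
    obtain rfl | rfl | rfl : j = 0 ∨ j = 1 ∨ j = 2 := by omega
    · exact h0
    · exact h1
    · exact h2

theorem not_tri_one : ¬ TRI [[.one]] := by
  rintro ⟨y, h⟩
  have := (h 0 (by simp)).2
  simp [polyAt, value, vals, Gate.val] at this

/-- Only the variable `0` matters. -/
theorem value_wf1 {A : Type*} [CommRing A] {p : List Gate} (hp : WF 1 p) (x x' : ℕ → A)
    (h : x 0 = x' 0) : value x p = value x' p := by
  refine value_congr fun k hk => ?_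
  obtain ⟨i, hi, he⟩ := List.getElem_of_mem hk
  have := hp i hi
  rw [he] at this
  have : k < 1 := this
  rw [show k = 0 by omega]
  exact h

theorem rootToTri_iff (p : List Gate) : ROOT p ↔ TRI (rootToTri p) := by
  unfold rootToTri
  split_ifs with h
  swap
  · refine iff_of_false ?_ not_tri_one
    rintro ⟨h1, h2, -⟩
    exact h ⟨h1, (wfb_iff 1 p).2 h2⟩
  obtain ⟨hne, hwf⟩ := h
  rw [wfb_iff] at hwf
  rw [tri_three]
  obtain ⟨n, hn⟩ : ∃ n, n = p.length + 1 := ⟨_, rfl⟩
  rw [← hn]
  have hpn : p.length ≤ n := by omega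
  have hn1 : 1 ≤ n := by omega
  -- the real polynomial
  obtain ⟨F, hF⟩ : ∃ F : ℝ[X], F = value (fun _ => X) p := ⟨_, rfl⟩
  have hFe : ∀ t : ℝ, F.eval t = value (fun k => if k = 0 then t else 0) p := by
    intro t
    have h1 := value_map (evalRingHom t) (fun _ => (X : ℝ[X])) p
    rw [coe_evalRingHom, eval_X, ← hF] at h1
    rw [← h1]
    exact value_wf1 hwf _ _ (by simp)
  have hroot : ROOT p ↔ ∃ t : ℝ, F.eval t = 0 := by
    unfold ROOT
    have h2 : ∀ t : ℝ, (value (fun _ => X) p : ℤ[X]).aeval t = F.eval t := by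
      intro t
      have h3 := value_map ((aeval t : ℤ[X] →ₐ[ℤ] ℝ) : ℤ[X] →+* ℝ) (fun _ => (X : ℤ[X])) p
      simp only [RingHom.coe_coe, aeval_X] at h3
      rw [← h3, hFe]
      exact value_wf1 hwf _ _ (by simp)
    simp only [h2]
    exact ⟨fun h => h.2.2, fun h => ⟨hne, hwf, h⟩⟩
  have hzero : F.eval (2 ^ (2 ^ gexp n 1)) = 0 → F = 0 := by
    intro h0
    by_contra hF0
    have hP : polyAt (fun _ => (2 ^ (2 ^ gexp n 1) : ℝ)) 0 p = F := by
      rw [hF, polyAt]
      exact value_wf1 hwf _ _ (by simp)
    have hlen : ∀ j, ((fun _ => p : ℕ → List Gate) j).length ≤ n := fun _ => hpn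
    have h1 : Exact (fun _ => p) 1 (fun _ => (2 ^ (2 ^ gexp n 1) : ℝ)) := by
      intro j hj
      obtain rfl : j = 0 := by omega
      dsimp only
      rw [hP]
      exact ⟨hF0, h0⟩
    have h2 := bound_exact hlen (exactC h1) (Nat.lt_succ_self 0)
    rw [Complex.norm_real, Real.norm_eq_abs, abs_of_pos (by positivity)] at h2
    have h4 := gexp_ge n (0 + 1)
    have h5 : Bg (gexp n 1 - 1) * Bg (gexp n 1 - 1) = Bg (gexp n 1) := by
      rw [← Bg_succ']
      congr 1
    have h6 : Bg (gexp n 1) ≤ Bg (gexp n 1 - 1) := h2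
    have h7 := two_le_Bg (gexp n 1 - 1)
    nlinarith
  have hA : ∀ y : ℕ → ℝ, polyAt y 1 (backA n (gexp n 1) p) =
      C (F.eval (2 ^ (2 ^ gexp n 1)) ^ 2 * y 0) + X ^ 2 := by
    intro y
    rw [polyAt, backA_value hn1 hpn]
    simp only [Nat.lt_one_iff, if_true, lt_irrefl, if_false]
    rw [C_mul, C_pow, hFe]
    congr 3
    have h3 := value_map (C : ℝ →+* ℝ[X]) (fun k => if k = 0 then (2 ^ (2 ^ gexp n 1) : ℝ) else 0) p
    rw [← h3]
    refine value_congr fun k _ => ?_
    split_ifs
    · rw [map_pow, map_ofNat]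
    · rw [map_zero]
  have hB : ∀ y : ℕ → ℝ, polyAt y 2 (backB n p) = C (y 0) * X + C (1 - y 0) * F := by
    intro y
    rw [polyAt, backB_value hn1 hpn]
    simp only [Nat.ofNat_pos, if_true, lt_irrefl, if_false]
    rw [C_sub, C_1, hF]
    congr 2
    exact value_wf1 hwf _ _ (by simp)
  rw [hroot]
  constructor
  · rintro ⟨t, ht⟩
    by_cases hF0 : F = 0
    · refine ⟨fun k => if k = 0 then 1 else 0, ?_, ?_, ?_⟩
      · rw [polyAt_eqBit]
        refine ⟨?_, by simp⟩
        intro h0
        have := congrArg (fun q => q.eval 2) h0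
        norm_num at this
      · rw [hA, hF0]
        simp
      · rw [hB, hF0]
        simp
    · refine ⟨fun k => if k = 2 then t else 0, ?_, ?_, ?_⟩
      · rw [polyAt_eqBit]
        refine ⟨?_, by simp⟩
        intro h0
        have := congrArg (fun q => q.eval 2) h0
        norm_num at this
      · rw [hA]
        simp
      · rw [hB]
        simp [hF0, ht]
  · rintro ⟨y, ⟨-, h0⟩, ⟨-, h1⟩, h2, h3⟩
    rw [polyAt_eqBit] at h0
    rw [hA] at h1
    rw [hB] at h2 h3
    simp only [eval_sub, eval_mul, eval_X, eval_add, eval_C, eval_pow] at h0 h1 h3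
    have h4 : y 0 = 0 ∨ y 0 = 1 := by
      have : y 0 * (y 0 - 1) = 0 := by linarith
      rcases mul_eq_zero.1 this with h | h
      · exact Or.inl h
      · exact Or.inr (by linarith)
    rcases h4 with h4 | h4
    · rw [h4] at h3
      exact ⟨y 2, by linarith⟩
    · rw [h4] at h1
      have h5 : F.eval (2 ^ (2 ^ gexp n 1)) = 0 := by
        have h6 := sq_nonneg (F.eval (2 ^ (2 ^ gexp n 1)))
        have h7 := sq_nonneg (y 1)
        have h8 : (F.eval (2 ^ (2 ^ gexp n 1))) ^ 2 = 0 := by linarith
        exact pow_eq_zero_iff (two_ne_zero) |>.1 h8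
      rw [hzero h5]
      exact ⟨0, by simp⟩

section
variable {α : Type} [Enc α]

@[fun_prop]
theorem PTF.okb {n k : α → ℕ} {g : α → Gate} (hn : PTF n) (hk : PTF k) (hg : PTF g) :
    PTF (fun a => okb (n a) (k a) (g a)) := by
  unfold MP_859ada_lc.okb
  fun_prop

@[fun_prop]
theorem PTF.wfb {n : α → ℕ} {p : α → List Gate} (hn : PTF n) (hp : PTF p) :
    PTF (fun a => wfb (n a) (p a)) := by
  unfold MP_859ada_lc.wfb
  fun_prop

@[fun_prop]
theorem PTF.eqBit {j : α → ℕ} (hj : PTF j) : PTF (fun a => eqBit (j a)) := by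
  unfold MP_859ada_lc.eqBit
  fun_prop

@[fun_prop]
theorem PTF.backA {n K : α → ℕ} {p : α → List Gate} (hn : PTF n) (hK : PTF K) (hp : PTF p) :
    PTF (fun a => backA (n a) (K a) (p a)) := by
  unfold MP_859ada_lc.backA
  fun_prop

@[fun_prop]
theorem PTF.backB {n : α → ℕ} {p : α → List Gate} (hn : PTF n) (hp : PTF p) :
    PTF (fun a => backB (n a) (p a)) := by
  unfold MP_859ada_lc.backB
  fun_prop

end

theorem ptf_rootToTri : PTF rootToTri := by
  unfold rootToTri
  fun_prop

end Pool.Agent.Work.MP_859ada_lc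

end

section

/-!
# MP_859ada_lc: universal evaluation of straight-line programs given by bits
-/

set_option autoImplicit false

namespace Pool.Agent.Work.MP_859ada_lc

open Pool.Agent.PT

/-! ### Clauses -/

/-- The equation `Y^2 + ∏ (1 - literal) = 0` for a clause; `Y` is the variable `s`. -/
def clP (idx : Nm → ℕ) (s : ℕ) (c : List (Bool × Nm)) : List Gate :=
  [.var s, .mul 0 0, .one] ++ ((List.range c.length).flatMap (fun i =>
    [.var (idx (c.getD i (true, (0, 0, 0, 0))).2), .sub 2 (3 + i * 3),
      .mul (2 + i * 3) (if (c.getD i (true, (0, 0, 0, 0))).1 = true then 4 + i * 3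
        else 3 + i * 3)]) ++ [.add 1 (2 + c.length * 3)])

/-- One minus the value of a literal. -/
def litv {A : Type*} [CommRing A] (idx : Nm → ℕ) (x : ℕ → A) (l : Bool × Nm) : A :=
  if l.1 = true then 1 - x (idx l.2) else x (idx l.2)

section

variable {idx : Nm → ℕ} {s n : ℕ} {c : List (Bool × Nm)}

theorem length_clP : (clP idx s c).length = 4 + c.length * 3 := by
  unfold clP
  rw [List.length_append, List.length_append, length_flatMap_range (W := 3) (fun _ _ => rfl)]
  simp
  omega

theorem clP_wf (hs : s < n) (hidx : ∀ l ∈ c, idx l.2 < n) : WF n (clP idx s c) := by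
  rw [wf_iff]
  unfold clP
  rw [allAt_append, allAt_append, length_flatMap_range (W := 3) (fun _ _ => rfl),
    allAt_flatMap_range _ (W := 3) (fun _ _ => rfl)]
  simp only [allAt_cons, allAt_nil, Gate.Ok, and_true, Nat.zero_add, List.length_cons,
    List.length_nil]
  refine ⟨⟨hs, by omega⟩, fun i hi => ⟨?_, ⟨by omega, by omega⟩, by omega, ?_⟩,
    ⟨by omega, by omega⟩⟩
  · rw [List.getD_eq_getElem _ _ hi]
    exact hidx _ (List.getElem_mem hi)
  · split_ifs <;> omega

theorem clP_value {A : Type*} [CommRing A] (hs : s < n) (hidx : ∀ l ∈ c, idx l.2 < n)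
    (x : ℕ → A) : value x (clP idx s c) = x s ^ 2 + (c.map (litv idx x)).prod := by
  have hM := models_self (clP_wf hs hidx) x
  rw [value_eq_getD, length_clP]
  generalize hv : (fun i' => (vals x (clP idx s c)).getD i' 0) = v at hM
  have hv' : ∀ i', (vals x (clP idx s c)).getD i' 0 = v i' := fun i' => by rw [← hv]
  rw [hv']
  simp only [hv'] at hM
  clear hv hv'
  unfold clP at hM
  rw [allAt_append, allAt_append, length_flatMap_range (W := 3) (fun _ _ => rfl),
    allAt_flatMap_range _ (W := 3) (fun _ _ => rfl)] at hM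
  simp only [allAt_cons, allAt_nil, Gate.eqv, and_true, Nat.zero_add, List.length_cons,
    List.length_nil] at hM
  obtain ⟨⟨h1, h2, h3⟩, h4, h5⟩ := hM
  rw [show 1 + 1 = 2 by rfl] at h3 h4 h5
  rw [show 2 + 1 = 3 by rfl] at h4 h5
  have key : ∀ i ≤ c.length, v (2 + i * 3) = ((c.take i).map (litv idx x)).prod := by
    intro i
    induction i with
    | zero => intro _; simpa using h3
    | succ i ih =>
      intro hi
      obtain ⟨g1, g2, g3⟩ := h4 i (by omega)
      have ih' := ih (by omega)
      rw [List.getD_eq_getElem _ _ (by omega)] at g1 g3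
      rw [show 2 + (i + 1) * 3 = 3 + i * 3 + 1 + 1 by ring, g3, ih', List.take_add_one,
        List.map_append, List.prod_append]
      congr 1
      rw [List.getElem?_eq_getElem (by omega)]
      simp only [Option.toList_some, List.map_cons, List.map_nil, List.prod_cons, List.prod_nil,
        mul_one, litv]
      split_ifs with h
      · rw [show 4 + i * 3 = 3 + i * 3 + 1 by ring, g2, h3, g1]
      · exact g1
  rw [show 4 + c.length * 3 - 1 = 3 + c.length * 3 by omega, h5, h2, h1, key _ le_rfl,
    List.take_length, sq]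

end

/-! ### Universal programs -/

/-- All gates. -/
def glist (N : ℕ) : List Gate :=
  .one :: ((List.range N).map .var ++ (List.range N).flatMap (fun i =>
    (List.range N).flatMap (fun i' => [.add i i', .sub i i', .mul i i'])))

theorem mem_glist_of_ok {N k : ℕ} {g : Gate} (h : g.Ok N k) (hk : k ≤ N) : g ∈ glist N := by
  unfold glist
  rw [List.mem_cons, List.mem_append, List.mem_flatMap]
  cases g with
  | one => left; rfl
  | var i => right; left; exact List.mem_map.2 ⟨i, List.mem_range.2 h, rfl⟩
  | add i i' =>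
    right; right
    refine ⟨i, List.mem_range.2 (by have := h.1; omega), List.mem_flatMap.2
      ⟨i', List.mem_range.2 (by have := h.2; omega), by simp⟩⟩
  | sub i i' =>
    right; right
    refine ⟨i, List.mem_range.2 (by have := h.1; omega), List.mem_flatMap.2
      ⟨i', List.mem_range.2 (by have := h.2; omega), by simp⟩⟩
  | mul i i' =>
    right; right
    refine ⟨i, List.mem_range.2 (by have := h.1; omega), List.mem_flatMap.2
      ⟨i', List.mem_range.2 (by have := h.2; omega), by simp⟩⟩

/-- Position of the value of the gate `i`, seen from the gate `k`. -/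
def gpos (G k i : ℕ) : ℕ := if i < k then 1 + (i + 1) * (G * 4) else 1

/-- The copy of a gate. -/
def gU (G o j k : ℕ) : Gate → Gate
  | .one => .one
  | .var i => if i ≤ j then .var (o + i) else .sub 0 0
  | .add i i' => .add (gpos G k i) (gpos G k i')
  | .sub i i' => .sub (gpos G k i) (gpos G k i')
  | .mul i i' => .mul (gpos G k i) (gpos G k i')

/-- The universal program. -/
def uP (N : ℕ) (bi : ℕ → ℕ) (o j : ℕ) : List Gate :=
  [.one, .sub 0 0] ++ (List.range N).flatMap (fun k =>
    (List.range (glist N).length).flatMap (fun l =>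
      [gU (glist N).length o j k ((glist N).getD l .one),
        .var (bi (k * (glist N).length + l)),
        .mul (2 + k * ((glist N).length * 4) + l * 4) (3 + k * ((glist N).length * 4) + l * 4),
        .add (if l = 0 then 1 else 1 + k * ((glist N).length * 4) + l * 4)
          (4 + k * ((glist N).length * 4) + l * 4)]))

theorem length_uP (N : ℕ) (bi : ℕ → ℕ) (o j : ℕ) :
    (uP N bi o j).length = 2 + N * ((glist N).length * 4) := by
  unfold uP
  rw [List.length_append, length_flatMap_range (W := (glist N).length * 4)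
    (fun _ _ => length_flatMap_range (W := 4) (fun _ _ => rfl))]
  simp

theorem gpos_lt {G k i : ℕ} : gpos G k i < 2 + k * (G * 4) := by
  unfold gpos
  split_ifs with h
  · have := Nat.mul_le_mul_right (G * 4) (show i + 1 ≤ k by omega)
    omega
  · omega

theorem uP_wf {N n : ℕ} {bi : ℕ → ℕ} {o j : ℕ} (hj : o + j < n)
    (hbi : ∀ t < N * (glist N).length, bi t < n) : WF n (uP N bi o j) := by
  rw [wf_iff]
  unfold uP
  rw [allAt_append, allAt_flatMap_range _ (W := (glist N).length * 4)
    (fun _ _ => length_flatMap_range (W := 4) (fun _ _ => rfl))]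
  simp only [allAt_cons, allAt_nil, Gate.Ok, and_true, Nat.zero_add, List.length_cons,
    List.length_nil]
  refine ⟨⟨trivial, by omega⟩, fun k hk => ?_⟩
  rw [allAt_flatMap_range _ (W := 4) (fun _ _ => rfl)]
  intro l hl
  simp only [allAt_cons, allAt_nil, Gate.Ok, and_true]
  refine ⟨?_, ?_, ⟨by omega, by omega⟩, ?_, by omega⟩
  · have h1 : ∀ i, gpos (glist N).length k i < 1 + 1 + k * ((glist N).length * 4) + l * 4 := by
      intro i
      have := gpos_lt (G := (glist N).length) (k := k) (i := i)
      omega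
    cases (glist N).getD l .one with
    | one => trivial
    | var i =>
      simp only [gU]
      split_ifs with hi
      · exact (show o + i < n by omega)
      · exact ⟨by omega, by omega⟩
    | add i i' => exact ⟨h1 i, h1 i'⟩
    | sub i i' => exact ⟨h1 i, h1 i'⟩
    | mul i i' => exact ⟨h1 i, h1 i'⟩
  · apply hbi
    have := Nat.mul_le_mul_right (glist N).length (show k + 1 ≤ N by omega)
    rw [Nat.succ_mul] at this
    omega
  · split_ifs <;> omega

theorem glist_pos (N : ℕ) : 1 ≤ (glist N).length := by unfold glist; simp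

section eqv
variable {A : Type*} [CommRing A] (x v : ℕ → A)
theorem eqv_one : Gate.eqv x v .one = 1 := rfl
theorem eqv_var (i : ℕ) : Gate.eqv x v (.var i) = x i := rfl
theorem eqv_add (i j : ℕ) : Gate.eqv x v (.add i j) = v i + v j := rfl
theorem eqv_sub (i j : ℕ) : Gate.eqv x v (.sub i j) = v i - v j := rfl
theorem eqv_mul (i j : ℕ) : Gate.eqv x v (.mul i j) = v i * v j := rfl
end eqv

theorem uP_value {A : Type*} [CommRing A] {N n : ℕ} (hN : 1 ≤ N) {bi : ℕ → ℕ} {o j : ℕ}
    (hj : o + j < n) (hbi : ∀ t < N * (glist N).length, bi t < n) {q : List Gate}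
    (hq : q.length = N) (hmem : ∀ k (h : k < q.length), q[k] ∈ glist N) {x : ℕ → A}
    (hx : ∀ k < N, ∀ l < (glist N).length, x (bi (k * (glist N).length + l)) =
      if (glist N).idxOf (q.getD k .one) = l then 1 else 0) :
    value x (uP N bi o j) = value (fun i => if i ≤ j then x (o + i) else 0) q := by
  have hM := models_self (uP_wf (N := N) hj hbi) x
  rw [value_eq_getD, length_uP]
  generalize hv : (fun i' => (vals x (uP N bi o j)).getD i' 0) = v at hM
  have hv' : ∀ i', (vals x (uP N bi o j)).getD i' 0 = v i' := fun i' => by rw [← hv]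
  rw [hv']
  simp only [hv'] at hM
  clear hv hv'
  obtain ⟨G, hG⟩ : ∃ G, G = (glist N).length := ⟨_, rfl⟩
  have hGpos : 1 ≤ G := by rw [hG]; exact glist_pos N
  unfold uP at hM
  rw [allAt_append, allAt_flatMap_range _ (W := (glist N).length * 4)
    (fun _ _ => length_flatMap_range (W := 4) (fun _ _ => rfl))] at hM
  simp only [← hG] at hM hx ⊢
  simp only [allAt_cons, allAt_nil, eqv_one, eqv_sub, and_true, Nat.zero_add, List.length_cons,
    List.length_nil, sub_self] at hM
  obtain ⟨⟨h1, h2⟩, h3⟩ := hM
  rw [show 1 + 1 = 2 by rfl] at h3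
  obtain ⟨x', hx'⟩ : ∃ x' : ℕ → A, x' = fun i => if i ≤ j then x (o + i) else 0 := ⟨_, rfl⟩
  rw [← hx']
  have key : ∀ k < N, v (1 + (k + 1) * (G * 4)) = (vals x' q).getD k 0 := by
    intro k
    induction k using Nat.strong_induction_on with
    | _ k ih =>
      intro hk
      have h4 := h3 k hk
      rw [allAt_flatMap_range _ (W := 4) (fun _ _ => rfl)] at h4
      simp only [allAt_cons, allAt_nil, eqv_var, eqv_mul, eqv_add, and_true] at h4
      have hkq : k < q.length := by omega
      have hxk := hx k hk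
      rw [List.getD_eq_getElem _ _ hkq] at hxk
      obtain ⟨l0, hl0⟩ : ∃ l0, l0 = (glist N).idxOf (q[k]) := ⟨_, rfl⟩
      rw [← hl0] at hxk
      have hl0lt : l0 < G := by rw [hl0, hG]; exact List.idxOf_lt_length_of_mem (hmem k hkq)
      obtain ⟨B, hB⟩ : ∃ B, B = k * (G * 4) := ⟨_, rfl⟩
      rw [← hB] at h4
      have hterm : ∀ l < G, v (2 + B + l * 4 + 1 + 1) =
          if l0 = l then v (2 + B + l0 * 4) else 0 := by
        intro l hl
        obtain ⟨g1, g2, g3, g4⟩ := h4 l hl
        rw [g3, show 3 + B + l * 4 = 2 + B + l * 4 + 1 by ring, g2, hxk l hl]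
        split_ifs with h5
        · rw [h5, mul_one]
        · rw [mul_zero]
      have hsum : ∀ l < G, v (5 + B + l * 4) =
          if l0 ≤ l then v (2 + B + l0 * 4) else 0 := by
        intro l
        induction l with
        | zero =>
          intro hl
          obtain ⟨g1, g2, g3, g4⟩ := h4 0 hl
          rw [if_pos rfl] at g4
          rw [show 5 + B + 0 * 4 = 2 + B + 0 * 4 + 1 + 1 + 1 by ring, g4, h2, zero_add,
            show 4 + B + 0 * 4 = 2 + B + 0 * 4 + 1 + 1 by ring, hterm 0 hl]
          by_cases h5 : l0 = 0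
          · rw [if_pos h5, if_pos (by omega)]
          · rw [if_neg h5, if_neg (by omega)]
        | succ l ihl =>
          intro hl
          obtain ⟨g1, g2, g3, g4⟩ := h4 (l + 1) hl
          rw [if_neg (by omega)] at g4
          rw [show 5 + B + (l + 1) * 4 = 2 + B + (l + 1) * 4 + 1 + 1 + 1 by ring, g4,
            show 1 + B + (l + 1) * 4 = 5 + B + l * 4 by ring, ihl (by omega),
            show 4 + B + (l + 1) * 4 = 2 + B + (l + 1) * 4 + 1 + 1 by ring, hterm (l + 1) hl]
          rcases Nat.lt_trichotomy l0 (l + 1) with h5 | h5 | h5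
          · rw [if_pos (by omega), if_neg (by omega), if_pos (by omega), add_zero]
          · rw [if_neg (by omega), if_pos h5, if_pos (by omega), zero_add]
          · rw [if_neg (by omega), if_neg (by omega), if_neg (by omega), add_zero]
      have hlast := hsum (G - 1) (by omega)
      rw [if_pos (by omega)] at hlast
      have e1 : 1 + (k + 1) * (G * 4) = 5 + B + (G - 1) * 4 := by
        rw [Nat.succ_mul, ← hB]; omega
      rw [e1, hlast]
      obtain ⟨g1, -, -, -⟩ := h4 l0 hl0lt
      have e2 : (glist N).getD l0 .one = q[k] := by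
        rw [List.getD_eq_getElem _ _ (by rw [← hG]; exact hl0lt)]
        simp only [hl0]
        exact List.getElem_idxOf _
      rw [g1, e2, vals_getD_eq x' q hkq]
      have href : ∀ i, v (gpos G k i) = (vals x' (q.take k)).getD i 0 := by
        intro i
        rw [vals_getD_take]
        unfold gpos
        split_ifs with hi
        · exact ih i hi (by omega)
        · exact h2
      cases q[k] with
      | one => rfl
      | var i =>
        simp only [gU, Gate.val, hx']
        split_ifs
        · rfl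
        · rw [eqv_sub, sub_self]
      | add i j => simp only [gU, Gate.eqv, Gate.val, href]
      | sub i j => simp only [gU, Gate.eqv, Gate.val, href]
      | mul i j => simp only [gU, Gate.eqv, Gate.val, href]
  have h5 := key (N - 1) (by omega)
  rw [value_eq_getD, hq, ← h5]
  congr 1
  obtain ⟨N', rfl⟩ : ∃ N', N = N' + 1 := ⟨N - 1, by omega⟩
  rw [Nat.add_sub_cancel]
  omega

/-! ### Padding -/

/-- The program `q`, with exactly `N` gates; the variables after `j` are removed. -/
def padP (N j : ℕ) (q : List Gate) : List Gate :=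
  [.one, .sub 0 0] ++ copyB (N - 2) 1 2 (fun i => if i ≤ j then .var i else .sub 0 0) q

section pad
variable {N j : ℕ} {q : List Gate}

theorem length_padP (hq : q.length + 3 ≤ N) : (padP N j q).length = N := by
  unfold padP
  rw [List.length_append, length_copyB (by omega)]
  simp
  omega

theorem padP_wf : WF (j + 1) (padP N j q) := by
  rw [wf_iff]
  unfold padP
  rw [allAt_append]
  simp only [allAt_cons, allAt_nil, Gate.Ok, and_true, List.length_cons, List.length_nil,
    Nat.zero_add]
  refine ⟨⟨trivial, ⟨by omega, by omega⟩⟩, copyB_ok (by omega) (fun k => ?_)⟩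
  split_ifs
  · exact (show k < j + 1 by omega)
  · exact ⟨by omega, by omega⟩

theorem padP_mem (hq : q.length + 3 ≤ N) (hj : j < N) (k : ℕ) (h : k < (padP N j q).length) :
    (padP N j q)[k] ∈ glist N := by
  have h1 := padP_wf (N := N) (j := j) (q := q) k h
  rw [length_padP hq] at h
  refine mem_glist_of_ok (k := k) ?_ (by omega)
  generalize (padP N j q)[k] = g at h1
  cases g with
  | one => trivial
  | var i => exact lt_of_lt_of_le h1 hj
  | add i j => exact h1
  | sub i j => exact h1
  | mul i j => exact h1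

theorem padP_value {A : Type*} [CommRing A] (hq : q.length + 3 ≤ N) (x : ℕ → A) :
    value x (padP N j q) = value (fun i => if i ≤ j then x i else 0) q := by
  have hM := models_self (padP_wf (N := N) (j := j) (q := q)) x
  rw [value_eq_getD, length_padP hq]
  generalize hv : (fun i' => (vals x (padP N j q)).getD i' 0) = v at hM
  have hv' : ∀ i', (vals x (padP N j q)).getD i' 0 = v i' := fun i' => by rw [← hv]
  rw [hv']
  simp only [hv'] at hM
  clear hv hv'
  unfold padP at hM
  rw [allAt_append] at hM
  simp only [allAt_cons, allAt_nil, eqv_one, eqv_sub, and_true, Nat.zero_add, List.length_cons,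
    List.length_nil, sub_self] at hM
  obtain ⟨⟨h1, h2⟩, h3⟩ := hM
  have hV := copyB_value h3 h2 (by omega) (by omega)
    (x' := fun i => if i ≤ j then x i else 0) (fun k => by
      split_ifs
      · rfl
      · rw [eqv_sub, sub_self])
  rw [← hV]
  congr 1
  omega

end pad

end Pool.Agent.Work.MP_859ada_lc

end

section

/-!
# MP_859ada_lc: the universal triangular system
-/

set_option autoImplicit false

namespace Pool.Agent.Work.MP_859ada_lc

open Polynomial Pool.Agent.PT

/-- The equations of `l`, for the variables `o, o + 1, ...`. -/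
def TriAt (y : ℕ → ℝ) (o : ℕ) (l : List (List Gate)) : Prop :=
  ∀ j (h : j < l.length), polyAt y (o + j) l[j] ≠ 0 ∧ (polyAt y (o + j) l[j]).eval (y (o + j)) = 0

theorem tri_iff (l : List (List Gate)) : TRI l ↔ ∃ y, TriAt y 0 l := by
  unfold TRI TriAt
  simp only [Nat.zero_add]

theorem triAt_nil (y : ℕ → ℝ) (o : ℕ) : TriAt y o [] ↔ True := by simp [TriAt]

theorem triAt_cons (y : ℕ → ℝ) (o : ℕ) (p : List Gate) (l : List (List Gate)) :
    TriAt y o (p :: l) ↔ (polyAt y o p ≠ 0 ∧ (polyAt y o p).eval (y o) = 0) ∧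
      TriAt y (o + 1) l := by
  constructor
  · intro h
    refine ⟨h 0 (by simp), fun k hk => ?_⟩
    have := h (k + 1) (by simpa using hk)
    rw [List.getElem_cons_succ, show o + (k + 1) = o + 1 + k by ring] at this
    exact this
  · rintro ⟨h0, h1⟩ k hk
    cases k with
    | zero => exact h0
    | succ k =>
      have := h1 k (by simpa using hk)
      rw [List.getElem_cons_succ, show o + (k + 1) = o + 1 + k by ring]
      exact this

theorem triAt_append (y : ℕ → ℝ) (o : ℕ) (l l' : List (List Gate)) :
    TriAt y o (l ++ l') ↔ TriAt y o l ∧ TriAt y (o + l.length) l' := by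
  induction l generalizing o with
  | nil => simp [triAt_nil]
  | cons p l ih =>
    rw [List.cons_append, triAt_cons, triAt_cons, ih, List.length_cons,
      show o + 1 + l.length = o + (l.length + 1) by ring]
    tauto

theorem triAt_map_range (y : ℕ → ℝ) (o N : ℕ) (g : ℕ → List Gate) :
    TriAt y o ((List.range N).map g) ↔
      ∀ k < N, polyAt y (o + k) (g k) ≠ 0 ∧ (polyAt y (o + k) (g k)).eval (y (o + k)) = 0 := by
  unfold TriAt
  simp

/-- All names. -/
def vlist (φ : List (List (Bool × Nm))) (nm : ℕ → Nm) (M : ℕ) : List Nm :=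
  φ.flatten.map Prod.snd ++ (List.range M).map nm

/-- The universal system. -/
def uSys (N : ℕ) (φ : List (List (Bool × Nm))) (nm : ℕ → Nm) (V : List Nm) : List (List Gate) :=
  (List.range V.length).map eqBit ++
  ((List.range φ.length).map (fun c => clP (fun ν => V.idxOf ν) (V.length + c) (φ.getD c [])) ++
  (List.range N).map (fun j => uP N (fun t => V.idxOf (nm (j * (N * (glist N).length) + t)))
    (V.length + φ.length) j))

/-- The valuation `v` describes the programs `q j`. -/
def Desc (N : ℕ) (nm : ℕ → Nm) (v : Nm → Bool) (q : ℕ → List Gate) : Prop :=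
  ∀ j < N, (q j).length = N ∧ (∀ k (h : k < (q j).length), (q j)[k] ∈ glist N) ∧
    ∀ k < N, ∀ l < (glist N).length,
      (v (nm (j * (N * (glist N).length) + (k * (glist N).length + l))) = true ↔
        (glist N).idxOf ((q j).getD k .one) = l)

section usys

variable {N M : ℕ} {φ : List (List (Bool × Nm))} {nm : ℕ → Nm} {V : List Nm}

theorem flat_lt {N G k l : ℕ} (hk : k < N) (hl : l < G) : k * G + l < N * G := by
  have := Nat.mul_le_mul_right G (show k + 1 ≤ N by omega)
  rw [Nat.succ_mul] at this
  omega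

/-- The main equations. -/
theorem polyAt_uP (hN : 1 ≤ N) (hV : V = vlist φ nm M) (hM : N * (N * (glist N).length) ≤ M)
    {v : Nm → Bool} {q : ℕ → List Gate} (hD : Desc N nm v q) {y : ℕ → ℝ}
    (hy : ∀ ν ∈ V, y (V.idxOf ν) = if v ν = true then 1 else 0) {j : ℕ} (hj : j < N) :
    polyAt y (V.length + φ.length + j)
      (uP N (fun t => V.idxOf (nm (j * (N * (glist N).length) + t))) (V.length + φ.length) j) =
      polyAt (fun i => y (V.length + φ.length + i)) j (q j) := by
  obtain ⟨h1, h2, h3⟩ := hD j hj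
  have hmem : ∀ t < N * (glist N).length, nm (j * (N * (glist N).length) + t) ∈ V := by
    intro t ht
    rw [hV]
    unfold vlist
    rw [List.mem_append]
    right
    refine List.mem_map.2 ⟨_, List.mem_range.2 ?_, rfl⟩
    exact lt_of_lt_of_le (flat_lt hj ht) hM
  have hlt : ∀ t < N * (glist N).length,
      V.idxOf (nm (j * (N * (glist N).length) + t)) < V.length := fun t ht =>
    List.idxOf_lt_length_of_mem (hmem t ht)
  rw [polyAt, uP_value hN (n := V.length + φ.length + j + 1) (by omega)
    (fun t ht => by have := hlt t ht; omega) h1 h2, polyAt]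
  · refine value_congr fun i _ => ?_
    split_ifs <;> first | rfl | omega
  · intro k hk l hl
    have h4 := flat_lt hk hl
    have h5 := hlt _ h4
    rw [if_pos (by omega), hy _ (hmem _ h4)]
    have h6 := h3 k hk l hl
    by_cases h7 : (glist N).idxOf ((q j).getD k .one) = l
    · rw [if_pos (h6.2 h7), if_pos h7, map_one]
    · rw [if_neg (fun h => h7 (h6.1 h)), if_neg h7, map_zero]

/-- The clause equations. -/
theorem polyAt_clP (hV : V = vlist φ nm M) (y : ℕ → ℝ) {c : ℕ} (hc : c < φ.length) :
    polyAt y (V.length + c) (clP (fun ν => V.idxOf ν) (V.length + c) (φ.getD c [])) =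
      X ^ 2 + C (((φ[c]).map (litv (fun ν => V.idxOf ν) y)).prod) := by
  have hmem : ∀ l ∈ φ[c], V.idxOf l.2 < V.length := by
    intro l hl
    apply List.idxOf_lt_length_of_mem
    rw [hV]
    unfold vlist
    rw [List.mem_append]
    left
    exact List.mem_map.2 ⟨l, List.mem_flatten.2 ⟨_, List.getElem_mem hc, hl⟩, rfl⟩
  rw [List.getD_eq_getElem _ _ hc, polyAt,
    clP_value (n := V.length + c + 1) (by omega) (fun l hl => by have := hmem l hl; omega)]
  rw [if_neg (by omega), if_pos rfl, map_list_prod, List.map_map]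
  congr 2
  refine List.map_congr_left fun l hl => ?_
  have := hmem l hl
  simp only [litv, Function.comp]
  rw [if_pos (show V.idxOf l.2 < V.length + c by omega)]
  split_ifs
  · rw [map_sub, map_one]
  · rfl

theorem X_sq_add_C_ne (c : ℝ) : (X ^ 2 + C c : ℝ[X]) ≠ 0 := by
  intro h
  have := congrArg (fun p => p.coeff 2) h
  simp [coeff_X_pow] at this

theorem X_sub_ne : (X * X - X : ℝ[X]) ≠ 0 := by
  intro h0
  have := congrArg (fun q => q.eval 2) h0
  norm_num at this

theorem prod_bits_nonneg {ι : Type*} {l : List ι} {f : ι → ℝ} (h : ∀ a ∈ l, f a = 0 ∨ f a = 1) :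
    0 ≤ (l.map f).prod := by
  apply List.prod_nonneg
  intro b hb
  obtain ⟨a, ha, rfl⟩ := List.mem_map.1 hb
  rcases h a ha with h | h <;> rw [h] <;> norm_num

theorem uSys_sound (hN : 1 ≤ N) (hV : V = vlist φ nm M) (hM : N * (N * (glist N).length) ≤ M)
    (h : TRI (uSys N φ nm V)) : ∃ v : Nm → Bool, SatBy v φ ∧ ∀ q : ℕ → List Gate,
      Desc N nm v q → ∃ y, TriAt y 0 ((List.range N).map q) := by
  classical
  obtain ⟨y, hy⟩ := (tri_iff _).1 h
  unfold uSys at hy
  rw [triAt_append, triAt_append, triAt_map_range, triAt_map_range, triAt_map_range] at hy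
  simp only [List.length_map, List.length_range, Nat.zero_add] at hy
  obtain ⟨h1, h2, h3⟩ := hy
  have hbit : ∀ k < V.length, y k = 0 ∨ y k = 1 := by
    intro k hk
    have := (h1 k hk).2
    rw [polyAt_eqBit] at this
    simp only [eval_sub, eval_mul, eval_X] at this
    have h4 : y k * (y k - 1) = 0 := by linarith
    rcases mul_eq_zero.1 h4 with h5 | h5
    · exact Or.inl h5
    · exact Or.inr (by linarith)
  obtain ⟨v, hv⟩ : ∃ v : Nm → Bool, v = fun ν => decide (y (V.idxOf ν) = 1) := ⟨_, rfl⟩
  have hvy : ∀ ν ∈ V, y (V.idxOf ν) = if v ν = true then 1 else 0 := by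
    intro ν hν
    have h4 := hbit _ (List.idxOf_lt_length_of_mem hν)
    rw [hv]
    simp only [decide_eq_true_eq]
    split_ifs with h5
    · exact h5
    · exact h4.resolve_right h5
  refine ⟨v, ?_, fun q hq => ⟨fun i => y (V.length + φ.length + i), ?_⟩⟩
  · intro c hc
    obtain ⟨i, hi, rfl⟩ := List.getElem_of_mem hc
    have h4 := (h2 i hi).2
    rw [polyAt_clP hV y hi] at h4
    simp only [eval_add, eval_pow, eval_X, eval_C] at h4
    have hlit : ∀ l ∈ φ[i], litv (fun ν => V.idxOf ν) y l = if v l.2 = l.1 then 0 else 1 := by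
      intro l hl
      have h5 := hvy l.2 (by
        rw [hV]
        unfold vlist
        rw [List.mem_append]
        left
        exact List.mem_map.2 ⟨l, List.mem_flatten.2 ⟨_, List.getElem_mem hi, hl⟩, rfl⟩)
      unfold litv
      rw [h5]
      cases l.1 <;> cases v l.2 <;> simp
    have h5 : 0 ≤ ((φ[i]).map (litv (fun ν => V.idxOf ν) y)).prod := by
      apply prod_bits_nonneg
      intro l hl
      rw [hlit l hl]
      split_ifs
      · exact Or.inl rfl
      · exact Or.inr rfl
    have h6 : ((φ[i]).map (litv (fun ν => V.idxOf ν) y)).prod = 0 := by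
      have := sq_nonneg (y (V.length + i))
      linarith
    rw [List.prod_eq_zero_iff] at h6
    obtain ⟨l, hl, h7⟩ := List.mem_map.1 h6
    rw [hlit l hl] at h7
    refine ⟨l, hl, ?_⟩
    by_contra h8
    rw [if_neg h8] at h7
    exact one_ne_zero h7
  · rw [triAt_map_range]
    intro j hj
    have h4 := h3 j hj
    rw [polyAt_uP hN hV hM hq hvy hj] at h4
    rw [Nat.zero_add]
    exact h4

theorem uSys_complete (hN : 1 ≤ N) (hV : V = vlist φ nm M)
    (hM : N * (N * (glist N).length) ≤ M) {v : Nm → Bool} (hv : SatBy v φ)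
    {q : ℕ → List Gate} (hq : Desc N nm v q) {y₀ : ℕ → ℝ}
    (hy₀ : TriAt y₀ 0 ((List.range N).map q)) : TRI (uSys N φ nm V) := by
  classical
  obtain ⟨y, hy⟩ : ∃ y : ℕ → ℝ, y = fun k => if k < V.length then
      (if v (V.getD k (0, 0, 0, 0)) = true then 1 else 0) else
      if k < V.length + φ.length then 0 else y₀ (k - (V.length + φ.length)) := ⟨_, rfl⟩
  have hbit : ∀ k < V.length, y k = 0 ∨ y k = 1 := by
    intro k hk
    rw [hy]
    dsimp only
    rw [if_pos hk]
    split_ifs
    · exact Or.inr rfl
    · exact Or.inl rfl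
  have hvy : ∀ ν ∈ V, y (V.idxOf ν) = if v ν = true then 1 else 0 := by
    intro ν hν
    have h4 := List.idxOf_lt_length_of_mem hν
    rw [hy]
    dsimp only
    rw [if_pos h4, List.getD_eq_getElem _ _ h4, List.getElem_idxOf]
  refine (tri_iff _).2 ⟨y, ?_⟩
  unfold uSys
  rw [triAt_append, triAt_append, triAt_map_range, triAt_map_range, triAt_map_range]
  simp only [List.length_map, List.length_range, Nat.zero_add]
  refine ⟨fun k hk => ?_, fun i hi => ?_, fun j hj => ?_⟩
  · rw [polyAt_eqBit]
    refine ⟨X_sub_ne, ?_⟩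
    simp only [eval_sub, eval_mul, eval_X]
    rcases hbit k hk with h | h <;> rw [h] <;> norm_num
  · rw [polyAt_clP hV y hi]
    refine ⟨X_sq_add_C_ne _, ?_⟩
    simp only [eval_add, eval_pow, eval_X, eval_C]
    have h0 : y (V.length + i) = 0 := by
      rw [hy]
      dsimp only
      rw [if_neg (by omega), if_pos (by omega)]
    rw [h0]
    obtain ⟨l, hl, hvl⟩ := hv _ (List.getElem_mem hi)
    have h5 := hvy l.2 (by
        rw [hV]
        unfold vlist
        rw [List.mem_append]
        left
        exact List.mem_map.2 ⟨l, List.mem_flatten.2 ⟨_, List.getElem_mem hi, hl⟩, rfl⟩)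
    have h6 : ((φ[i]).map (litv (fun ν => V.idxOf ν) y)).prod = 0 := by
      rw [List.prod_eq_zero_iff]
      refine List.mem_map.2 ⟨l, hl, ?_⟩
      unfold litv
      rw [h5, hvl]
      cases l.1 <;> simp
    rw [h6]
    norm_num
  · rw [polyAt_uP hN hV hM hq hvy hj]
    rw [triAt_map_range] at hy₀
    have h4 := hy₀ j hj
    rw [Nat.zero_add] at h4
    have h5 : (fun i => y (V.length + φ.length + i)) = y₀ := by
      funext i
      rw [hy]
      dsimp only
      rw [if_neg (by omega), if_neg (by omega), Nat.add_sub_cancel_left]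
    rw [h5]
    have h6 : y (V.length + φ.length + j) = y₀ j := congrFun h5 j
    rw [h6]
    exact h4

end usys

end Pool.Agent.Work.MP_859ada_lc

end

section

/-!
# MP_859ada_lc: triangular systems are closed under nondeterministic reductions
-/

set_option autoImplicit false

namespace Pool.Agent.Work.MP_859ada_lc

open Polynomial Pool.Agent.PT

/-- The bits which describe the programs `q j`. -/
def codeBits (N : ℕ) (q : ℕ → List Gate) : List Bool :=
  (List.range (N * (N * (glist N).length))).map (fun t => decide ((glist N).idxOf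
    ((q (t / (N * (glist N).length))).getD (t % (N * (glist N).length) / (glist N).length) .one) =
      t % (N * (glist N).length) % (glist N).length))

theorem codeBits_get {N : ℕ} {q : ℕ → List Gate} {j k l : ℕ} (hj : j < N) (hk : k < N)
    (hl : l < (glist N).length) :
    (codeBits N q).getD (j * (N * (glist N).length) + (k * (glist N).length + l)) false =
      decide ((glist N).idxOf ((q j).getD k .one) = l) := by
  have h1 := flat_lt hk hl
  have h2 := flat_lt hj h1
  rw [List.getD_eq_getElem _ _ (by unfold codeBits; simpa using h2)]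
  unfold codeBits
  rw [List.getElem_map, List.getElem_range]
  have e1 : (j * (N * (glist N).length) + (k * (glist N).length + l)) / (N * (glist N).length) =
      j := by
    rw [Nat.mul_comm, Nat.mul_add_div (by omega), Nat.div_eq_of_lt h1, Nat.add_zero]
  have e2 : (j * (N * (glist N).length) + (k * (glist N).length + l)) % (N * (glist N).length) =
      k * (glist N).length + l := by
    rw [Nat.mul_comm, Nat.mul_add_mod, Nat.mod_eq_of_lt h1]
  have e3 : (k * (glist N).length + l) / (glist N).length = k := by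
    rw [Nat.mul_comm, Nat.mul_add_div (by omega), Nat.div_eq_of_lt hl, Nat.add_zero]
  have e4 : (k * (glist N).length + l) % (glist N).length = l := by
    rw [Nat.mul_comm, Nat.mul_add_mod, Nat.mod_eq_of_lt hl]
  rw [e1, e2, e3, e4]

theorem length_codeBits (N : ℕ) (q : ℕ → List Gate) :
    (codeBits N q).length = N * (N * (glist N).length) := by
  unfold codeBits; simp

/-- The padded system. -/
def padS (N : ℕ) (S : List (List Gate)) (j : ℕ) : List Gate := padP N j (S.getD j [.var j])

theorem polyAt_padP {N j : ℕ} {q : List Gate} (hq : q.length + 3 ≤ N) (y : ℕ → ℝ) :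
    polyAt y j (padP N j q) = polyAt y j q := by
  rw [polyAt, padP_value hq, polyAt]
  refine value_congr fun i _ => ?_
  split_ifs <;> first | rfl | omega

theorem polyAt_var (y : ℕ → ℝ) (j : ℕ) : polyAt y j [.var j] = X := by
  simp [polyAt, value, vals, Gate.val]

theorem padS_len {N : ℕ} {S : List (List Gate)} (hlen : ∀ p ∈ S, p.length + 3 ≤ N)
    (hN : 4 ≤ N) (j : ℕ) : (S.getD j [.var j]).length + 3 ≤ N := by
  rcases Nat.lt_or_ge j S.length with h | h
  · rw [List.getD_eq_getElem _ _ h]
    exact hlen _ (List.getElem_mem h)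
  · rw [List.getD_eq_default _ _ h]
    simpa using hN

theorem pad_tri {N : ℕ} {S : List (List Gate)} (hS : S.length ≤ N)
    (hlen : ∀ p ∈ S, p.length + 3 ≤ N) (hN : 4 ≤ N) :
    TRI S ↔ ∃ y, TriAt y 0 ((List.range N).map (padS N S)) := by
  constructor
  · rintro ⟨y, hy⟩
    refine ⟨fun k => if k < S.length then y k else 0, ?_⟩
    rw [triAt_map_range]
    intro j hj
    rw [Nat.zero_add]
    unfold padS
    rw [polyAt_padP (padS_len hlen hN j)]
    rcases Nat.lt_or_ge j S.length with h | h
    · rw [List.getD_eq_getElem _ _ h, if_pos h, polyAt_congr (y' := y) (fun k hk =>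
        if_pos (by omega))]
      exact hy j h
    · rw [List.getD_eq_default _ _ h, polyAt_var, if_neg (by omega)]
      exact ⟨X_ne_zero, eval_X⟩
  · rintro ⟨y, hy⟩
    rw [triAt_map_range] at hy
    refine ⟨y, fun j hj => ?_⟩
    have h1 := hy j (by omega)
    rw [Nat.zero_add] at h1
    unfold padS at h1
    rw [polyAt_padP (padS_len hlen hN j), List.getD_eq_getElem _ _ hj] at h1
    exact h1

theorem desc_padS {N : ℕ} {S : List (List Gate)} (hlen : ∀ p ∈ S, p.length + 3 ≤ N)
    (hN : 4 ≤ N) {nm : ℕ → Nm} {v : Nm → Bool}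
    (hv : ∀ t < N * (N * (glist N).length), v (nm t) = (codeBits N (padS N S)).getD t false) :
    Desc N nm v (padS N S) := by
  intro j hj
  have h1 := padS_len hlen hN j
  refine ⟨length_padP h1, fun k hk => padP_mem h1 hj k hk, fun k hk l hl => ?_⟩
  rw [hv _ (flat_lt hj (flat_lt hk hl)), codeBits_get hj hk hl, decide_eq_true_eq]

/-! ### Polynomial time -/

section
variable {α : Type} [Enc α]

@[fun_prop]
theorem PTF.glist {N : α → ℕ} (hN : PTF N) : PTF (fun a => glist (N a)) := by
  unfold MP_859ada_lc.glist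
  refine PTF.cons (PTF.const _) (PTF.append (by fun_prop) ?_)
  refine PTF.flatMap' ?_ (by fun_prop)
  refine PTF.flatMap' ?_ (by fun_prop)
  fun_prop

@[fun_prop]
theorem PTF.gpos {G k i : α → ℕ} (hG : PTF G) (hk : PTF k) (hi : PTF i) :
    PTF (fun a => gpos (G a) (k a) (i a)) := by
  unfold MP_859ada_lc.gpos
  fun_prop

@[fun_prop]
theorem PTF.gU {G o j k : α → ℕ} {g : α → Gate} (hG : PTF G) (ho : PTF o) (hj : PTF j)
    (hk : PTF k) (hg : PTF g) : PTF (fun a => gU (G a) (o a) (j a) (k a) (g a)) := by
  have h2 : PTF (fun a => if (g a).code.1 = 0 then Gate.one else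
      if (g a).code.1 = 1 then (if (g a).code.2.1 ≤ j a then Gate.var (o a + (g a).code.2.1) else
        Gate.sub 0 0) else
      if (g a).code.1 = 2 then Gate.add (MP_859ada_lc.gpos (G a) (k a) (g a).code.2.1)
        (MP_859ada_lc.gpos (G a) (k a) (g a).code.2.2) else
      if (g a).code.1 = 3 then Gate.sub (MP_859ada_lc.gpos (G a) (k a) (g a).code.2.1)
        (MP_859ada_lc.gpos (G a) (k a) (g a).code.2.2) else
      Gate.mul (MP_859ada_lc.gpos (G a) (k a) (g a).code.2.1)
        (MP_859ada_lc.gpos (G a) (k a) (g a).code.2.2)) := by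
    fun_prop
  refine h2.congr (fun a => ?_)
  cases g a <;> simp [Gate.code, MP_859ada_lc.gU]

theorem PTF.uP {N o j : α → ℕ} {bi : α → ℕ → ℕ} (hN : PTF N)
    (hbi : PTF (fun p : α × ℕ => bi p.1 p.2)) (ho : PTF o) (hj : PTF j) :
    PTF (fun a => uP (N a) (bi a) (o a) (j a)) := by
  unfold MP_859ada_lc.uP
  refine PTF.append (PTF.const _) (PTF.flatMap' ?_ (by fun_prop))
  refine PTF.flatMap' ?_ (by fun_prop)
  have h1 : PTF (fun p : (α × ℕ) × ℕ => bi p.1.1
      (p.1.2 * (MP_859ada_lc.glist (N p.1.1)).length + p.2)) :=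
    PTF.comp (f := fun p : α × ℕ => bi p.1 p.2)
      (g := fun p : (α × ℕ) × ℕ => (p.1.1, p.1.2 * (MP_859ada_lc.glist (N p.1.1)).length + p.2))
      hbi (by fun_prop)
  fun_prop

@[fun_prop]
theorem PTF.idxOfNm {f : α → Nm} {l : α → List Nm} (hf : PTF f) (hl : PTF l) :
    PTF (fun a => (l a).idxOf (f a)) := by
  refine (PTF.idxOf hf hl).congr (fun a => ?_)
  have h : ∀ (i1 i2 : BEq Nm) [@LawfulBEq Nm i1] [@LawfulBEq Nm i2] (x : Nm) (l : List Nm),
      @List.idxOf Nm i1 x l = @List.idxOf Nm i2 x l := by
    intro i1 i2 _ _ x l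
    rw [lawful_beq_subsingleton i1 i2]
  exact @h instBEqOfDecidableEq instBEqProd _ _ _ _

theorem PTF.clP {s : α → ℕ} {idx : α → Nm → ℕ} {c : α → List (Bool × Nm)}
    (hidx : PTF (fun p : α × Nm => idx p.1 p.2)) (hs : PTF s) (hc : PTF c) :
    PTF (fun a => clP (idx a) (s a) (c a)) := by
  unfold MP_859ada_lc.clP
  have h1 : PTF (fun p : α × ℕ => idx p.1 ((c p.1).getD p.2 (true, (0, 0, 0, 0))).2) :=
    PTF.comp (f := fun p : α × Nm => idx p.1 p.2)
      (g := fun p : α × ℕ => (p.1, ((c p.1).getD p.2 (true, (0, 0, 0, 0))).2))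
      hidx (by fun_prop)
  fun_prop

theorem PTF.uSys {N : α → ℕ} {φ : α → List (List (Bool × Nm))} {nm : α → ℕ → Nm}
    {V : α → List Nm} (hN : PTF N) (hφ : PTF φ) (hnm : PTF (fun p : α × ℕ => nm p.1 p.2))
    (hV : PTF V) : PTF (fun a => uSys (N a) (φ a) (nm a) (V a)) := by
  unfold MP_859ada_lc.uSys
  refine PTF.append (by fun_prop) (PTF.append ?_ ?_)
  · refine PTF.map' ?_ (by fun_prop)
    exact PTF.clP (α := α × ℕ) (idx := fun p ν => (V p.1).idxOf ν) (by fun_prop) (by fun_prop)
      (by fun_prop)
  · refine PTF.map' ?_ (by fun_prop)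
    have h1 : PTF (fun p : (α × ℕ) × ℕ => nm p.1.1
        (p.1.2 * (N p.1.1 * (MP_859ada_lc.glist (N p.1.1)).length) + p.2)) :=
      PTF.comp (f := fun p : α × ℕ => nm p.1 p.2)
        (g := fun p : (α × ℕ) × ℕ => (p.1.1,
          p.1.2 * (N p.1.1 * (MP_859ada_lc.glist (N p.1.1)).length) + p.2))
        hnm (by fun_prop)
    exact PTF.uP (α := α × ℕ) (bi := fun p t => (V p.1).idxOf (nm p.1
        (p.2 * (N p.1 * (MP_859ada_lc.glist (N p.1)).length) + t))) (by fun_prop) (by fun_prop)
        (by fun_prop) (by fun_prop)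

theorem PTF.vlist {M : α → ℕ} {φ : α → List (List (Bool × Nm))} {nm : α → ℕ → Nm}
    (hφ : PTF φ) (hnm : PTF (fun p : α × ℕ => nm p.1 p.2)) (hM : PTF M) :
    PTF (fun a => vlist (φ a) (nm a) (M a)) := by
  unfold MP_859ada_lc.vlist
  fun_prop

theorem PTF.codeBits {N : α → ℕ} {q : α → ℕ → List Gate} (hN : PTF N)
    (hq : PTF (fun p : α × ℕ => q p.1 p.2)) : PTF (fun a => codeBits (N a) (q a)) := by
  unfold MP_859ada_lc.codeBits
  refine PTF.map' ?_ (by fun_prop)
  have h1 : PTF (fun p : α × ℕ => q p.1 (p.2 / (N p.1 * (MP_859ada_lc.glist (N p.1)).length))) :=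
    PTF.comp (f := fun p : α × ℕ => q p.1 p.2)
      (g := fun p : α × ℕ => (p.1, p.2 / (N p.1 * (MP_859ada_lc.glist (N p.1)).length)))
      hq (by fun_prop)
  fun_prop

@[fun_prop]
theorem PTF.padS {N j : α → ℕ} {S : α → List (List Gate)} (hN : PTF N) (hS : PTF S)
    (hj : PTF j) : PTF (fun a => padS (N a) (S a) (j a)) := by
  unfold MP_859ada_lc.padS padP
  fun_prop

end

/-- **Closure under nondeterminism.** -/
theorem np_closure {α : Type} [Enc α] {P : α → Prop} {R : α × List Bool → Bool} (hR : PTF R)
    {S : α × List Bool → List (List Gate)} (hS : PTF S) {m : α → ℕ} (hm : PTF m)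
    (hP : ∀ a, P a ↔ ∃ w, w.length = m a ∧ R (a, w) = true ∧ TRI (S (a, w))) :
    ∃ F : α → List (List Gate), PTF F ∧ ∀ a, P a ↔ TRI (F a) := by
  -- a bound for the sizes
  obtain ⟨k, hk⟩ := hS.size
  have hmP : PB m := hm.size.mono (fun a => by rw [sz_nat]; omega)
  have hB1 : PB (fun a => (sz a + (4 * m a + 1) + 1 + 2) ^ k) :=
    (((PB.sz.add (((PB.const 4).mul hmP).add (PB.const 1))).add (PB.const 1)).add
      (PB.const 2)).pow k
  obtain ⟨N₀, hN₀, hN₀'⟩ := hB1.exists_ptf
  have hbound : ∀ a w, w.length = m a → sz (S (a, w)) ≤ N₀ a := by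
    intro a w hw
    refine (hk (a, w)).trans (le_trans (Nat.pow_le_pow_left ?_ _) (hN₀' a))
    rw [sz_pair]
    have := Pool.Agent.Work.MP_46935e_lc.sz_bits w
    omega
  obtain ⟨N, hNdef⟩ : ∃ N : α → ℕ, N = fun a => N₀ a + 4 := ⟨_, rfl⟩
  have hN : PTF N := by rw [hNdef]; fun_prop
  have hN4 : ∀ a, 4 ≤ N a := fun a => by rw [hNdef]; dsimp only; omega
  have hlen : ∀ a w, w.length = m a → ∀ p ∈ S (a, w), p.length + 3 ≤ N a := by
    intro a w hw p hp
    have h1 := hbound a w hw
    have h2 := sz_le_of_mem hp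
    have h3 := length_le_sz p
    rw [hNdef]
    dsimp only
    omega
  have hcard : ∀ a w, w.length = m a → (S (a, w)).length ≤ N a := by
    intro a w hw
    have h1 := hbound a w hw
    have h3 := length_le_sz (S (a, w))
    rw [hNdef]
    dsimp only
    omega
  obtain ⟨B, hBdef⟩ : ∃ B : α → ℕ, B = fun a => N a * (N a * (glist (N a)).length) := ⟨_, rfl⟩
  have hB : PTF B := by rw [hBdef]; fun_prop
  -- the relation
  have hR' : PTF (fun p : α × List Bool => R (p.1, p.2.drop (B p.1)) &&
      decide (p.2.take (B p.1) = codeBits (N p.1) (padS (N p.1) (S (p.1, p.2.drop (B p.1)))))) := by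
    have h1 : PTF (fun p : α × List Bool => R (p.1, p.2.drop (B p.1))) :=
      PTF.comp (f := R) (g := fun p : α × List Bool => (p.1, p.2.drop (B p.1))) hR (by fun_prop)
    have h2 : PTF (fun p : α × List Bool => S (p.1, p.2.drop (B p.1))) :=
      PTF.comp (f := S) (g := fun p : α × List Bool => (p.1, p.2.drop (B p.1))) hS (by fun_prop)
    have h3 : PTF (fun p : α × List Bool =>
        codeBits (N p.1) (padS (N p.1) (S (p.1, p.2.drop (B p.1))))) :=
      PTF.codeBits (by fun_prop) (by fun_prop)
    fun_prop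
  have hM : PTF (fun a => B a + m a) := by fun_prop
  obtain ⟨f, nm, hf, hnm, hsound, hcomplete⟩ := sat_link hR' hM
  have hnm' : PTF (fun p : α × ℕ => (fun a t => nm (a, t)) p.1 p.2) := hnm
  refine ⟨fun a => uSys (N a) (f a) (fun t => nm (a, t))
    (vlist (f a) (fun t => nm (a, t)) (B a + m a)),
    PTF.uSys hN hf hnm' (PTF.vlist hf hnm' hM), fun a => ?_⟩
  have hNa := hN4 a
  have hMa : N a * (N a * (glist (N a)).length) ≤ B a + m a := by rw [hBdef]; dsimp only; omega
  have hBa : B a = N a * (N a * (glist (N a)).length) := by rw [hBdef]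
  rw [hP]
  constructor
  · rintro ⟨w, hw, hRw, hT⟩
    obtain ⟨q, hq⟩ : ∃ q, q = padS (N a) (S (a, w)) := ⟨_, rfl⟩
    have hl : (codeBits (N a) q).length = B a := by rw [length_codeBits, hBa]
    have hdrop : (codeBits (N a) q ++ w).drop (B a) = w := by
      rw [← hl, List.drop_left]
    have htake : (codeBits (N a) q ++ w).take (B a) = codeBits (N a) q := by
      rw [← hl, List.take_left]
    obtain ⟨v, hv, hvj⟩ := hcomplete a (codeBits (N a) q ++ w)
      (by rw [List.length_append, hl, hw]) (by
        dsimp only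
        rw [hdrop, htake, hRw, hq]
        simp)
    have hD : Desc (N a) (fun t => nm (a, t)) v q := by
      rw [hq]
      refine desc_padS (hlen a w hw) hNa (fun t ht => ?_)
      rw [← hBa] at ht
      rw [hvj t (by omega), ← hq, List.getD_append _ _ _ _ (by rw [hl]; exact ht)]
    obtain ⟨y, hy⟩ := (pad_tri (hcard a w hw) (hlen a w hw) hNa).1 hT
    rw [← hq] at hy
    exact uSys_complete (by omega) rfl hMa hv hD hy
  · intro hT
    obtain ⟨v, hv, hvq⟩ := uSys_sound (by omega) rfl hMa hT
    have h1 := hsound a v hv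
    obtain ⟨u, hu⟩ : ∃ u, u = (List.range (B a + m a)).map (fun j => v (nm (a, j))) := ⟨_, rfl⟩
    rw [← hu] at h1
    dsimp only at h1
    rw [Bool.and_eq_true, decide_eq_true_eq] at h1
    obtain ⟨h2, h3⟩ := h1
    have hul : u.length = B a + m a := by rw [hu]; simp
    have hw : (u.drop (B a)).length = m a := by rw [List.length_drop]; omega
    refine ⟨u.drop (B a), hw, h2, ?_⟩
    rw [pad_tri (hcard a _ hw) (hlen a _ hw) hNa]
    apply hvq
    refine desc_padS (hlen a _ hw) hNa (fun t ht => ?_)
    rw [← hBa] at ht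
    rw [← h3, List.getD_eq_getElem _ _ (by rw [List.length_take]; omega), List.getElem_take]
    simp only [hu, List.getElem_map, List.getElem_range]

end Pool.Agent.Work.MP_859ada_lc

end

section

/-!
# MP_859ada_lc: conjunctions of triangular systems, and the sign of an integer
-/

set_option autoImplicit false

namespace Pool.Agent.Work.MP_859ada_lc

open Polynomial Pool.Agent.PT

/-- Shift of the variables of a gate. -/
def gshift (o : ℕ) : Gate → Gate
  | .var i => .var (o + i)
  | g => g

/-- Shift of the variables of a program. -/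
def pshift (o : ℕ) (p : List Gate) : List Gate := p.map (gshift o)

theorem vals_pshift {A : Type*} [CommRing A] (x : ℕ → A) (o : ℕ) (p : List Gate) :
    vals x (pshift o p) = vals (fun i => x (o + i)) p := by
  unfold pshift
  induction p using List.reverseRecOn with
  | nil => rfl
  | append_singleton p g ih =>
    rw [List.map_append, List.map_cons, List.map_nil, vals_concat, vals_concat, ih]
    congr 2
    cases g <;> rfl

theorem polyAt_pshift (y : ℕ → ℝ) (o j : ℕ) (p : List Gate) :
    polyAt y (o + j) (pshift o p) = polyAt (fun i => y (o + i)) j p := by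
  unfold polyAt value
  rw [vals_pshift]
  congr 2
  funext i
  split_ifs <;> first | rfl | omega

theorem triAt_pshift (y : ℕ → ℝ) (o o' : ℕ) (l : List (List Gate)) :
    TriAt y (o + o') (l.map (pshift o)) ↔ TriAt (fun i => y (o + i)) o' l := by
  unfold TriAt
  simp only [List.length_map, List.getElem_map, Nat.add_assoc, polyAt_pshift]

/-- The conjunction of triangular systems. -/
def conjS (L : List (List (List Gate))) : List (List Gate) :=
  (List.range L.length).flatMap (fun k =>
    (L.getD k []).map (pshift (((L.take k).map List.length).sum)))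

theorem conjS_concat (L : List (List (List Gate))) (S : List (List Gate)) :
    conjS (L ++ [S]) = conjS L ++ S.map (pshift ((L.map List.length).sum)) := by
  unfold conjS
  rw [List.length_append, List.length_singleton, List.range_succ, List.flatMap_append]
  congr 1
  · refine List.flatMap_congr (fun k hk => ?_)
    have hk' : k < L.length := List.mem_range.1 hk
    rw [List.getD_append _ _ _ _ hk', List.take_append_of_le_length hk'.le]
  · simp

theorem length_conjS (L : List (List (List Gate))) :
    (conjS L).length = (L.map List.length).sum := by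
  induction L using List.reverseRecOn with
  | nil => rfl
  | append_singleton L S ih =>
    rw [conjS_concat, List.length_append, ih]
    simp

/-- Solutions depend on finitely many variables. -/
theorem triAt_congr {y y' : ℕ → ℝ} {o : ℕ} {l : List (List Gate)}
    (h : ∀ k < o + l.length, y k = y' k) (hy : TriAt y o l) : TriAt y' o l := by
  intro j hj
  have h1 := hy j hj
  rw [polyAt_congr (y' := y') (fun k hk => h k (by omega)), h (o + j) (by omega)] at h1
  exact h1

theorem conjS_iff (L : List (List (List Gate))) : TRI (conjS L) ↔ ∀ S ∈ L, TRI S := by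
  induction L using List.reverseRecOn with
  | nil => simp [conjS, tri_iff, triAt_nil]
  | append_singleton L S ih =>
    rw [conjS_concat, tri_iff]
    simp only [List.mem_append, List.mem_singleton, or_imp, forall_and, forall_eq]
    rw [← ih, tri_iff, tri_iff]
    simp only [triAt_append, length_conjS, Nat.zero_add]
    obtain ⟨o, ho⟩ : ∃ o, o = (L.map List.length).sum := ⟨_, rfl⟩
    rw [← ho]
    constructor
    · rintro ⟨y, h1, h2⟩
      refine ⟨⟨y, h1⟩, ⟨fun i => y (o + i), ?_⟩⟩
      exact (triAt_pshift y o 0 S).1 h2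
    · rintro ⟨⟨y, h1⟩, ⟨y', h2⟩⟩
      refine ⟨fun k => if k < o then y k else y' (k - o), ?_, ?_⟩
      · refine triAt_congr (fun k hk => ?_) h1
        rw [Nat.zero_add, length_conjS, ← ho] at hk
        rw [if_pos hk]
      · refine (triAt_pshift _ o 0 S).2 (triAt_congr (fun k _ => ?_) h2)
        rw [if_neg (by omega), Nat.add_sub_cancel_left]

section
variable {α : Type} [Enc α]

@[fun_prop]
theorem PTF.gshift {o : α → ℕ} {g : α → Gate} (ho : PTF o) (hg : PTF g) :
    PTF (fun a => gshift (o a) (g a)) := by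
  have h2 : PTF (fun a => if (g a).code.1 = 1 then Gate.var (o a + (g a).code.2.1) else g a) := by
    fun_prop
  refine h2.congr (fun a => ?_)
  cases g a <;> simp [Gate.code, MP_859ada_lc.gshift]

@[fun_prop]
theorem PTF.pshift {o : α → ℕ} {p : α → List Gate} (ho : PTF o) (hp : PTF p) :
    PTF (fun a => pshift (o a) (p a)) := by
  unfold MP_859ada_lc.pshift
  fun_prop

@[fun_prop]
theorem PTF.conjS {L : α → List (List (List Gate))} (hL : PTF L) :
    PTF (fun a => conjS (L a)) := by
  unfold MP_859ada_lc.conjS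
  fun_prop

end

/-! ### The sign of an integer -/

/-- The equation `N Y^2 - 1 = 0`. -/
def posEq (p : List Gate) : List Gate :=
  [.one, .sub 0 0] ++ (copyB (p.length + 1) 1 2 (fun _ => .sub 0 0) p ++
    [.var 0, .mul (p.length + 3) (p.length + 3), .mul (p.length + 2) (p.length + 4),
      .sub (p.length + 5) 0])

/-- The equation `Y^2 + N = 0`. -/
def npEq (p : List Gate) : List Gate :=
  [.one, .sub 0 0] ++ (copyB (p.length + 1) 1 2 (fun _ => .sub 0 0) p ++
    [.var 0, .mul (p.length + 3) (p.length + 3), .add (p.length + 2) (p.length + 4)])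

theorem posEq_wf (p : List Gate) : WF 1 (posEq p) := by
  rw [wf_iff]
  unfold posEq
  rw [allAt_append, allAt_append, length_copyB (by omega)]
  simp only [allAt_cons, allAt_nil, Gate.Ok, and_true, List.length_cons, List.length_nil,
    Nat.zero_add]
  exact ⟨⟨trivial, ⟨by omega, by omega⟩⟩, copyB_ok (by omega) (fun k => ⟨by omega, by omega⟩),
    by omega, ⟨by omega, by omega⟩, ⟨by omega, by omega⟩, ⟨by omega, by omega⟩⟩

theorem npEq_wf (p : List Gate) : WF 1 (npEq p) := by
  rw [wf_iff]
  unfold npEq
  rw [allAt_append, allAt_append, length_copyB (by omega)]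
  simp only [allAt_cons, allAt_nil, Gate.Ok, and_true, List.length_cons, List.length_nil,
    Nat.zero_add]
  exact ⟨⟨trivial, ⟨by omega, by omega⟩⟩, copyB_ok (by omega) (fun k => ⟨by omega, by omega⟩),
    by omega, ⟨by omega, by omega⟩, ⟨by omega, by omega⟩⟩

theorem posEq_value {A : Type*} [CommRing A] (p : List Gate) (x : ℕ → A) :
    value x (posEq p) = value (fun _ => 0) p * x 0 ^ 2 - 1 := by
  have hM := models_self (posEq_wf p) x
  have hl : (posEq p).length = p.length + 7 := by
    unfold posEq
    rw [List.length_append, List.length_append, length_copyB (by omega)]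
    simp
    omega
  rw [value_eq_getD, hl]
  generalize hv : (fun i' => (vals x (posEq p)).getD i' 0) = v at hM
  have hv' : ∀ i', (vals x (posEq p)).getD i' 0 = v i' := fun i' => by rw [← hv]
  rw [hv']
  simp only [hv'] at hM
  clear hv hv'
  unfold posEq at hM
  rw [allAt_append, allAt_append, length_copyB (by omega)] at hM
  simp only [allAt_cons, allAt_nil, eqv_one, eqv_sub, eqv_var, eqv_mul, and_true, Nat.zero_add,
    List.length_cons, List.length_nil, sub_self] at hM
  obtain ⟨⟨h1, h2⟩, h3, h4, h5, h6, h7⟩ := hM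
  have hV := copyB_value h3 h2 (by omega) (by omega) (x' := fun _ => 0) (fun _ => by
    rw [eqv_sub, sub_self])
  rw [show 1 + 1 = 2 by rfl] at h4 h5 h6 h7 hV
  rw [show 2 + (p.length + 1) - 1 = p.length + 2 by omega] at hV
  rw [show 2 + (p.length + 1) = p.length + 3 by ring] at h4 h5 h6 h7
  rw [h4, show p.length + 3 + 1 = p.length + 4 by ring] at h5
  rw [show p.length + 3 + 1 + 1 = p.length + 5 by ring, hV, h5] at h6
  rw [show p.length + 3 + 1 + 1 + 1 = p.length + 7 - 1 by omega, h6, h1] at h7
  rw [h7]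
  ring

theorem npEq_value {A : Type*} [CommRing A] (p : List Gate) (x : ℕ → A) :
    value x (npEq p) = x 0 ^ 2 + value (fun _ => 0) p := by
  have hM := models_self (npEq_wf p) x
  have hl : (npEq p).length = p.length + 6 := by
    unfold npEq
    rw [List.length_append, List.length_append, length_copyB (by omega)]
    simp
    omega
  rw [value_eq_getD, hl]
  generalize hv : (fun i' => (vals x (npEq p)).getD i' 0) = v at hM
  have hv' : ∀ i', (vals x (npEq p)).getD i' 0 = v i' := fun i' => by rw [← hv]
  rw [hv']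
  simp only [hv'] at hM
  clear hv hv'
  unfold npEq at hM
  rw [allAt_append, allAt_append, length_copyB (by omega)] at hM
  simp only [allAt_cons, allAt_nil, eqv_one, eqv_sub, eqv_var, eqv_mul, eqv_add, and_true,
    Nat.zero_add, List.length_cons, List.length_nil, sub_self] at hM
  obtain ⟨⟨h1, h2⟩, h3, h4, h5, h6⟩ := hM
  have hV := copyB_value h3 h2 (by omega) (by omega) (x' := fun _ => 0) (fun _ => by
    rw [eqv_sub, sub_self])
  rw [show 1 + 1 = 2 by rfl] at h4 h5 h6 hV
  rw [show 2 + (p.length + 1) - 1 = p.length + 2 by omega] at hV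
  rw [show 2 + (p.length + 1) = p.length + 3 by ring] at h4 h5 h6
  rw [h4, show p.length + 3 + 1 = p.length + 4 by ring] at h5
  rw [show p.length + 3 + 1 + 1 = p.length + 6 - 1 by omega, hV, h5] at h6
  rw [h6]
  ring

/-- The triangular system for `PosSLP p`. -/
def posT (p : List Gate) : List (List Gate) := if wfb 0 p = true then [posEq p] else [[.one]]

/-- The triangular system for `¬ PosSLP p`. -/
def negT (p : List Gate) : List (List Gate) := if wfb 0 p = true then [npEq p] else []

theorem tri_single (p : List Gate) : TRI [p] ↔ ∃ t : ℝ, polyAt (fun _ => (0 : ℝ)) 0 p ≠ 0 ∧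
    (polyAt (fun _ => (0 : ℝ)) 0 p).eval t = 0 := by
  rw [tri_iff]
  simp only [triAt_cons, triAt_nil, and_true]
  have h : ∀ y : ℕ → ℝ, polyAt y 0 p = polyAt (fun _ => 0) 0 p := fun y =>
    polyAt_congr (fun k hk => absurd hk (by omega)) p
  simp only [h]
  constructor
  · rintro ⟨y, h1⟩; exact ⟨y 0, h1⟩
  · rintro ⟨t, h1⟩; exact ⟨fun _ => t, h1⟩

theorem value_intCast (p : List Gate) : value (fun _ => (0 : ℝ[X])) p =
    C ((value (fun _ => (0 : ℤ)) p : ℤ) : ℝ) := by
  have := value_map ((C : ℝ →+* ℝ[X]).comp (Int.castRingHom ℝ)) (fun _ => (0 : ℤ)) p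
  simp only [RingHom.comp_apply, map_zero] at this
  rw [this]
  rfl

theorem posT_iff (p : List Gate) : TRI (posT p) ↔ PosSLP p := by
  unfold posT PosSLP
  split_ifs with h
  swap
  · exact iff_of_false not_tri_one (fun h1 => h ((wfb_iff 0 p).2 h1.1))
  rw [wfb_iff] at h
  rw [tri_single, polyAt, posEq_value, value_intCast]
  simp only [lt_irrefl, if_false, if_true]
  generalize value (fun _ => (0 : ℤ)) p = N
  constructor
  · rintro ⟨t, -, h1⟩
    simp only [eval_sub, eval_mul, eval_C, eval_pow, eval_X, eval_one] at h1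
    refine ⟨h, ?_⟩
    by_contra hcon
    push Not at hcon
    have h2 : (N : ℝ) ≤ 0 := by exact_mod_cast hcon
    nlinarith [sq_nonneg t]
  · rintro ⟨-, h1⟩
    have h2 : (0 : ℝ) < N := by exact_mod_cast h1
    refine ⟨1 / Real.sqrt N, ?_, ?_⟩
    · intro h0
      have := congrArg (fun q => q.eval 0) h0
      simp at this
    · simp only [eval_sub, eval_mul, eval_C, eval_pow, eval_X, eval_one]
      rw [div_pow, one_pow, Real.sq_sqrt h2.le]
      field_simp
      ring

theorem negT_iff (p : List Gate) : TRI (negT p) ↔ ¬ PosSLP p := by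
  unfold negT PosSLP
  split_ifs with h
  swap
  · refine iff_of_true ((tri_iff _).2 ⟨fun _ => 0, (triAt_nil _ _).2 trivial⟩)
      (fun h1 => h ((wfb_iff 0 p).2 h1.1))
  rw [wfb_iff] at h
  rw [tri_single, polyAt, npEq_value, value_intCast]
  simp only [lt_irrefl, if_false, if_true]
  generalize value (fun _ => (0 : ℤ)) p = N
  constructor
  · rintro ⟨t, -, h1⟩ ⟨-, h2⟩
    simp only [eval_add, eval_C, eval_pow, eval_X] at h1
    have h3 : (0 : ℝ) < N := by exact_mod_cast h2
    nlinarith [sq_nonneg t]
  · intro h1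
    have h2 : (N : ℝ) ≤ 0 := by
      by_contra hcon
      push Not at hcon
      exact h1 ⟨h, by exact_mod_cast hcon⟩
    refine ⟨Real.sqrt (-N), X_sq_add_C_ne _, ?_⟩
    simp only [eval_add, eval_C, eval_pow, eval_X]
    rw [Real.sq_sqrt (by linarith)]
    ring

section
variable {α : Type} [Enc α]

@[fun_prop]
theorem PTF.posT {p : α → List Gate} (hp : PTF p) : PTF (fun a => posT (p a)) := by
  unfold MP_859ada_lc.posT posEq
  fun_prop

@[fun_prop]
theorem PTF.negT {p : α → List Gate} (hp : PTF p) : PTF (fun a => negT (p a)) := by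
  unfold MP_859ada_lc.negT npEq
  fun_prop

@[fun_prop]
theorem PTF.rootToTri {p : α → List Gate} (hp : PTF p) : PTF (fun a => rootToTri (p a)) :=
  ptf_rootToTri.comp hp

end

end Pool.Agent.Work.MP_859ada_lc

end

section

/-!
# MP_859ada_lc: bit encodings, polynomial-time reductions, nondeterministic reductions
-/

set_option autoImplicit false

namespace Pool.Agent.Work.MP_859ada_lc

open Polynomial Pool.Agent.PT Turing Pool.Agent.Work.MP_46935e_lc

/-! ### Decoding -/

/-- One step of the decoding of numbers. -/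
def numStep (s : ℕ × List ℕ) (b : Bool) : ℕ × List ℕ :=
  if b = true then (s.1 + 1, s.2) else (0, s.2 ++ [s.1])

/-- Decoding of numbers. -/
def decNums (s : List Bool) : List ℕ := (s.foldl numStep (0, [])).2

theorem foldl_numStep_replicate (k c : ℕ) (acc : List ℕ) :
    (List.replicate k true).foldl numStep (c, acc) = (c + k, acc) := by
  induction k generalizing c with
  | zero => rfl
  | succ k ih =>
    rw [List.replicate_succ, List.foldl_cons]
    have : numStep (c, acc) true = (c + 1, acc) := by simp [numStep]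
    rw [this, ih]
    congr 1
    omega

theorem foldl_numStep (l acc : List ℕ) :
    (encNums l).foldl numStep (0, acc) = (0, acc ++ l) := by
  induction l generalizing acc with
  | nil => simp [encNums]
  | cons k l ih =>
    have h : encNums (k :: l) = (List.replicate k true ++ [false]) ++ encNums l := by
      simp [encNums]
    rw [h, List.foldl_append, List.foldl_append, foldl_numStep_replicate]
    have h2 : List.foldl numStep (0 + k, acc) [false] = (0, acc ++ [k]) := by
      simp [numStep]
    rw [h2, ih]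
    simp

theorem decNums_encNums (l : List ℕ) : decNums (encNums l) = l := by
  unfold decNums
  rw [foldl_numStep]
  simp

@[fun_prop]
theorem PTF.encNums {α : Type} [Enc α] {l : α → List ℕ} (hl : PTF l) :
    PTF (fun a => encNums (l a)) := by
  unfold MP_859ada_lc.encNums
  fun_prop

@[fun_prop]
theorem PTF.decNums {α : Type} [Enc α] {s : α → List Bool} (hs : PTF s) :
    PTF (fun a => decNums (s a)) := by
  have h : PTF (fun s : List Bool => MP_859ada_lc.decNums s) := by
    unfold MP_859ada_lc.decNums
    have h1 := PTF.foldl_add (l := fun s : List Bool => s)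
      (init := fun _ : List Bool => ((0 : ℕ), ([] : List ℕ)))
      (step := fun p : List Bool × ((ℕ × List ℕ) × Bool) => numStep p.2.1 p.2.2) PTF.id
      (PTF.const _) (by unfold numStep; fun_prop) (fun _ => 4) (PB.const _) (fun a s b _ => by
        obtain ⟨c, acc⟩ := s
        show sz (numStep (c, acc) b) ≤ _
        have h2 := sz_append acc [c]
        rw [sz_cons, sz_nil] at h2
        have h0 := sz_nat 0
        have h3 := sz_nat c
        have h4 := sz_nat (c + 1)
        unfold numStep
        split_ifs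
        · simp only [sz_pair]; omega
        · simp only [sz_pair]; omega)
    exact PTF.snd.comp h1
  exact h.comp hs

/-- From the code to the gate. -/
def ofCode (t i j : ℕ) : Gate :=
  if t = 0 then .one else if t = 1 then .var i else if t = 2 then .add i j else
    if t = 3 then .sub i j else .mul i j

theorem ofCode_code (g : Gate) : ofCode g.code.1 g.code.2.1 g.code.2.2 = g := by
  cases g <;> simp [ofCode, Gate.code]

@[fun_prop]
theorem PTF.ofCode {α : Type} [Enc α] {t i j : α → ℕ} (ht : PTF t) (hi : PTF i) (hj : PTF j) :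
    PTF (fun a => ofCode (t a) (i a) (j a)) := by
  unfold MP_859ada_lc.ofCode
  fun_prop

theorem getD_flatMap {β γ : Type*} {W : ℕ} {f : β → List γ} (hf : ∀ b, (f b).length = W)
    (l : List β) (d : γ) {i r : ℕ} (hi : i < l.length) (hr : r < W) :
    (l.flatMap f).getD (i * W + r) d = (f l[i]).getD r d := by
  induction l generalizing i with
  | nil => simp at hi
  | cons b l ih =>
    rw [List.flatMap_cons]
    cases i with
    | zero =>
      rw [Nat.zero_mul, Nat.zero_add, List.getD_append _ _ _ _ (by rw [hf]; exact hr)]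
      rfl
    | succ i =>
      rw [List.getD_append_right _ _ _ _ (by rw [hf, Nat.succ_mul]; omega), hf,
        show (i + 1) * W + r - W = i * W + r by rw [Nat.succ_mul]; omega,
        ih (by simpa using hi)]
      rfl

theorem length_flatMap' {β γ : Type*} {W : ℕ} {f : β → List γ} (hf : ∀ b, (f b).length = W)
    (l : List β) : (l.flatMap f).length = l.length * W := by
  induction l with
  | nil => simp
  | cons b l ih => rw [List.flatMap_cons, List.length_append, ih, hf, List.length_cons]; ring

/-- Decoding of programs. -/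
def decProg (s : List Bool) : List Gate :=
  (List.range ((decNums s).length / 3)).map (fun i => ofCode ((decNums s).getD (i * 3 + 0) 0)
    ((decNums s).getD (i * 3 + 1) 0) ((decNums s).getD (i * 3 + 2) 0))

theorem decProg_encProg (p : List Gate) : decProg (encProg p) = p := by
  unfold decProg encProg
  rw [decNums_encNums, length_flatMap' (W := 3) (fun _ => rfl)]
  rw [Nat.mul_div_cancel _ (by norm_num)]
  refine List.ext_getElem (by simp) fun i h1 h2 => ?_
  rw [List.getElem_map, List.getElem_range,
    getD_flatMap (W := 3) (fun _ => rfl) _ _ h2 (by norm_num),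
    getD_flatMap (W := 3) (fun _ => rfl) _ _ h2 (by norm_num),
    getD_flatMap (W := 3) (fun _ => rfl) _ _ h2 (by norm_num)]
  exact ofCode_code _

@[fun_prop]
theorem PTF.encProg {α : Type} [Enc α] {p : α → List Gate} (hp : PTF p) :
    PTF (fun a => encProg (p a)) := by
  unfold MP_859ada_lc.encProg
  fun_prop

@[fun_prop]
theorem PTF.decProg {α : Type} [Enc α] {s : α → List Bool} (hs : PTF s) :
    PTF (fun a => decProg (s a)) := by
  unfold MP_859ada_lc.decProg
  fun_prop

/-- The gates of a system with the indices of their programs. -/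
def decQuads (l : List ℕ) : List (ℕ × Gate) :=
  (List.range (l.length / 4)).map (fun i => (l.getD (i * 4 + 0) 0,
    ofCode (l.getD (i * 4 + 1) 0) (l.getD (i * 4 + 2) 0) (l.getD (i * 4 + 3) 0)))

/-- Decoding of systems. -/
def decSys (s : List Bool) : List (List Gate) :=
  (List.range ((decNums s).headD 0)).map (fun j =>
    ((decQuads (decNums s).tail).filter (fun q => decide (q.1 = j))).map (fun q => q.2))

theorem decQuads_eq (l : List (ℕ × Gate)) :
    decQuads (l.flatMap (fun q => [q.1, q.2.code.1, q.2.code.2.1, q.2.code.2.2])) = l := by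
  unfold decQuads
  rw [length_flatMap' (W := 4) (fun _ => rfl), Nat.mul_div_cancel _ (by norm_num)]
  refine List.ext_getElem (by simp) fun i h1 h2 => ?_
  rw [List.getElem_map, List.getElem_range,
    getD_flatMap (W := 4) (fun _ => rfl) _ _ h2 (by norm_num),
    getD_flatMap (W := 4) (fun _ => rfl) _ _ h2 (by norm_num),
    getD_flatMap (W := 4) (fun _ => rfl) _ _ h2 (by norm_num),
    getD_flatMap (W := 4) (fun _ => rfl) _ _ h2 (by norm_num)]
  have := ofCode_code (l[i].2)
  simp only [List.getD_cons_zero, List.getD_cons_succ]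
  rw [this]

theorem decSys_encSys (l : List (List Gate)) : decSys (encSys l) = l := by
  unfold decSys encSys
  rw [decNums_encNums]
  simp only [List.headD_cons, List.tail_cons]
  have h1 : (List.range l.length).flatMap (fun j => (l.getD j []).flatMap
      (fun g => [j, g.code.1, g.code.2.1, g.code.2.2])) =
      ((List.range l.length).flatMap (fun j => (l.getD j []).map (fun g => (j, g)))).flatMap
        (fun q => [q.1, q.2.code.1, q.2.code.2.1, q.2.code.2.2]) := by
    rw [List.flatMap_assoc]
    refine List.flatMap_congr fun j _ => ?_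
    rw [List.flatMap_map]
  rw [h1, decQuads_eq]
  refine List.ext_getElem (by simp) fun j h2 h3 => ?_
  rw [List.getElem_map, List.getElem_range]
  have key : ∀ m ≤ l.length, (((List.range m).flatMap (fun j => (l.getD j []).map
      (fun g => (j, g)))).filter (fun q => decide (q.1 = j))).map (fun q => q.2) =
      if j < m then l[j] else [] := by
    intro m
    induction m with
    | zero => intro _; simp
    | succ m ih =>
      intro hm
      rw [List.range_succ, List.flatMap_append, List.filter_append, List.map_append,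
        ih (by omega)]
      simp only [List.flatMap_cons, List.flatMap_nil, List.append_nil, List.filter_map,
        List.map_map]
      rcases Nat.lt_trichotomy j m with h4 | h4 | h4
      · rw [if_pos h4, if_pos (by omega)]
        have : (List.filter ((fun q : ℕ × Gate => decide (q.1 = j)) ∘ fun g => (m, g))
            (l.getD m [])) = [] := by
          rw [List.filter_eq_nil_iff]
          intro g _
          simp only [Function.comp, decide_eq_true_eq]
          omega
        rw [this]
        simp
      · rw [if_neg (by omega), if_pos (by omega), List.nil_append]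
        subst h4
        have : (List.filter ((fun q : ℕ × Gate => decide (q.1 = j)) ∘ fun g => (j, g))
            (l.getD j [])) = l.getD j [] := by
          rw [List.filter_eq_self]
          intro g _
          simp
        rw [this, List.getD_eq_getElem _ _ h3]
        have h5 : ((fun q : ℕ × Gate => q.2) ∘ fun g => (j, g)) = id := rfl
        rw [h5, List.map_id]
      · rw [if_neg (by omega), if_neg (by omega), List.nil_append]
        have : (List.filter ((fun q : ℕ × Gate => decide (q.1 = j)) ∘ fun g => (m, g))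
            (l.getD m [])) = [] := by
          rw [List.filter_eq_nil_iff]
          intro g _
          simp only [Function.comp, decide_eq_true_eq]
          omega
        rw [this]
        simp
  rw [key l.length le_rfl, if_pos h3]

@[fun_prop]
theorem PTF.encSys {α : Type} [Enc α] {l : α → List (List Gate)} (hl : PTF l) :
    PTF (fun a => encSys (l a)) := by
  unfold MP_859ada_lc.encSys
  fun_prop

@[fun_prop]
theorem PTF.decSys {α : Type} [Enc α] {s : α → List Bool} (hs : PTF s) :
    PTF (fun a => decSys (s a)) := by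
  unfold MP_859ada_lc.decSys decQuads
  fun_prop

theorem encPair_eq (p : List Bool × List Bool) : encPair p = dl p.1 ++ p.2 := by
  unfold encPair
  rw [dl_eq, List.append_assoc]
  rfl

theorem ptf_encPair : PTF encPair := by
  unfold encPair
  fun_prop

theorem dec2_encPair (p : List Bool × List Bool) : dec2 (encPair p) = p := by
  rw [encPair_eq, dec2_dl]

/-! ### Composition with polynomial-time functions -/

theorem comp_tm2 {α β γ : Type} [Enc β] [Enc γ] {ea : α → List Bool} {eb : β → List Bool}
    {ec : γ → List Bool} {f : α → β} (h : Nonempty (TM2ComputableInPolyTime ea eb f))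
    {d : List Bool → β} (hd : PTF d) (hdb : ∀ b, d (eb b) = b) {g : β → γ} (hg : PTF g)
    (hec : PTF ec) : Nonempty (TM2ComputableInPolyTime ea ec (fun a => g (f a))) := by
  obtain ⟨M⟩ := h
  obtain ⟨R, hR, hRs⟩ := clock M.tm M.inputAlphabet M.outputAlphabet
  have h1 : PTF (fun s : List Bool => R (M.time.eval s.length, s)) :=
    hR.comp ((ptf_eval M.time PTF.id.length).pair PTF.id)
  have h2 : PTF (fun s : List Bool => match R (M.time.eval s.length, s) with
      | some y => d y
      | none => d []) :=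
    (PTF.option_case (o := fun s : List Bool => R (M.time.eval s.length, s))
      (f := fun _ => d []) (g := fun p : List Bool × List Bool => d p.2) h1 (PTF.const _)
      (hd.comp PTF.snd)).congr (fun a => by
        cases R (M.time.eval a.length, a) <;> rfl)
  refine tm2_of (hec.comp (hg.comp h2)) (fun a => ?_)
  have h3 : R (M.time.eval (ea a).length, ea a) = some (eb (f a)) :=
    (hRs _ _ _).2 ⟨M.outputsFun a⟩
  rw [h3]
  dsimp only
  rw [hdb]

end Pool.Agent.Work.MP_859ada_lc

end

section

/-!
# MP_859ada_lc: sign conditions for one real number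
-/

set_option autoImplicit false

namespace Pool.Agent.Work.MP_859ada_lc

open Polynomial Pool.Agent.PT

/-- One block of the product: `b_i + (1 - b_i) h_i(Y)`. -/
def sgBlock (n i : ℕ) (h : List Gate) : List Gate :=
  copyB n 1 (4 + i * (n + 5)) (fun _ => .mul 2 0) h ++
    [.var i, .sub 0 (4 + i * (n + 5) + n), .mul (4 + i * (n + 5) + n + 1)
      (4 + i * (n + 5) + n - 1), .add (4 + i * (n + 5) + n) (4 + i * (n + 5) + n + 2),
      .mul (4 + i * (n + 5) - 1) (4 + i * (n + 5) + n + 3)]

/-- The equation `c Y + (1 - c) ∏ (b_i + (1 - b_i) h_i(Y)) = 0`; `Y` is the variable `s`, `c` is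
the variable `r` and `b_i` is the variable `i < r`. -/
def sgA (n r s : ℕ) (hs : ℕ → List Gate) : List Gate :=
  [.one, .sub 0 0, .var s, .one] ++ ((List.range r).flatMap (fun i => sgBlock n i (hs i)) ++
    [.var r, .sub 0 (4 + r * (n + 5)), .mul (4 + r * (n + 5)) 2,
      .mul (4 + r * (n + 5) + 1) (4 + r * (n + 5) - 1),
      .add (4 + r * (n + 5) + 2) (4 + r * (n + 5) + 3)])

/-- The equation `2 x - α - β - 2 (d - d') = 0`. -/
def sgX (r : ℕ) : List Gate :=
  [.var (r + 5), .add 0 0, .var (r + 3), .sub 1 2, .var (r + 4), .sub 3 4, .var (r + 1),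
    .var (r + 2), .sub 6 7, .add 8 8, .sub 5 9]

/-- The equation `Y ^ 2 + h(x) ^ 2 = 0`. -/
def sgE (n t s : ℕ) (h : List Gate) : List Gate :=
  [.one, .sub 0 0, .var t] ++ (copyB n 1 3 (fun _ => .mul 2 0) h ++
    [.var s, .mul (n + 3) (n + 3), .mul (n + 2) (n + 2), .add (n + 4) (n + 5)])

/-- The equation `h(x) Y ^ 2 - 1 = 0`. -/
def sgP (n t s : ℕ) (h : List Gate) : List Gate :=
  [.one, .sub 0 0, .var t] ++ (copyB n 1 3 (fun _ => .mul 2 0) h ++
    [.var s, .mul (n + 3) (n + 3), .mul (n + 2) (n + 4), .sub (n + 5) 0])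

section vals

variable {n r s t N : ℕ} {hs : ℕ → List Gate} {h : List Gate}

theorem length_sgBlock (hl : h.length ≤ n) (i : ℕ) : (sgBlock n i h).length = n + 5 := by
  unfold sgBlock
  rw [List.length_append, length_copyB hl]
  simp

theorem length_sgA (hl : ∀ i, (hs i).length ≤ n) :
    (sgA n r s hs).length = 4 + r * (n + 5) + 5 := by
  unfold sgA
  rw [List.length_append, List.length_append,
    length_flatMap_range (W := n + 5) (fun i _ => length_sgBlock (hl i) i)]
  simp
  omega

theorem sgA_wf (hl : ∀ i, (hs i).length ≤ n) (hrs : r < s) (hsN : s < N) :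
    WF N (sgA n r s hs) := by
  rw [wf_iff]
  unfold sgA
  rw [allAt_append, allAt_append,
    length_flatMap_range (W := n + 5) (fun i _ => length_sgBlock (hl i) i),
    allAt_flatMap_range _ (W := n + 5) (fun i _ => length_sgBlock (hl i) i)]
  simp only [allAt_cons, allAt_nil, Gate.Ok, and_true, Nat.zero_add, List.length_cons,
    List.length_nil]
  refine ⟨⟨trivial, ⟨by omega, by omega⟩, hsN⟩, fun i hi => ?_, by omega,
    ⟨by omega, by omega⟩, ⟨by omega, by omega⟩, ⟨by omega, by omega⟩, ⟨by omega, by omega⟩⟩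
  unfold sgBlock
  rw [show 1 + 1 + 1 + 1 + i * (n + 5) = 4 + i * (n + 5) by ring, allAt_append,
    length_copyB (hl i)]
  simp only [allAt_cons, allAt_nil, and_true]
  refine ⟨copyB_ok (by omega) (fun k => ⟨by omega, by omega⟩), by omega,
    ⟨by omega, by omega⟩, ⟨by omega, by omega⟩, ⟨by omega, by omega⟩, ⟨by omega, by omega⟩⟩

theorem sgA_value {A : Type*} [CommRing A] (hn : 1 ≤ n) (hl : ∀ i, (hs i).length ≤ n)
    (hrs : r < s) (x : ℕ → A) : value x (sgA n r s hs) = x r * x s + (1 - x r) *
      ∏ i ∈ Finset.range r, (x i + (1 - x i) * value (fun _ => x s) (hs i)) := by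
  have hM := models_self (sgA_wf (N := s + 1) hl hrs (by omega)) x
  rw [value_eq_getD, length_sgA hl]
  generalize hv : (fun i' => (vals x (sgA n r s hs)).getD i' 0) = v at hM
  have hv' : ∀ i', (vals x (sgA n r s hs)).getD i' 0 = v i' := fun i' => by rw [← hv]
  rw [hv']
  simp only [hv'] at hM
  clear hv hv'
  unfold sgA at hM
  rw [allAt_append, allAt_append,
    length_flatMap_range (W := n + 5) (fun i _ => length_sgBlock (hl i) i),
    allAt_flatMap_range _ (W := n + 5) (fun i _ => length_sgBlock (hl i) i)] at hM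
  simp only [allAt_cons, allAt_nil, eqv_one, eqv_sub, eqv_var, eqv_mul, eqv_add, and_true,
    Nat.zero_add, List.length_cons, List.length_nil, sub_self] at hM
  obtain ⟨⟨h0, h1, h2, h3⟩, h4, h5, h6, h7, h8, h9⟩ := hM
  rw [show 1 + 1 = 2 by rfl] at h2 h3 h4 h5 h6 h7 h8 h9
  rw [show 2 + 1 = 3 by rfl] at h3 h4 h5 h6 h7 h8 h9
  rw [show 3 + 1 = 4 by rfl] at h4 h5 h6 h7 h8 h9
  have key : ∀ i ≤ r, v (4 + i * (n + 5) - 1) =
      ∏ i ∈ Finset.range i, (x i + (1 - x i) * value (fun _ => x s) (hs i)) := by
    intro i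
    induction i with
    | zero => intro _; simpa using h3
    | succ i ih =>
      intro hi
      have ih' := ih (by omega)
      have h10 := h4 i (by omega)
      unfold sgBlock at h10
      rw [allAt_append, length_copyB (hl i)] at h10
      simp only [allAt_cons, allAt_nil, eqv_sub, eqv_var, eqv_mul, eqv_add, and_true] at h10
      have e1 : 4 + (i + 1) * (n + 5) - 1 = 4 + i * (n + 5) + n + 4 := by
        rw [Nat.succ_mul]; omega
      rw [e1]
      generalize 4 + i * (n + 5) = B at h10 ih' ⊢
      obtain ⟨g0, g1, g2, g3, g4, g5⟩ := h10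
      have hV := copyB_value g0 h1 (hl i) hn (x' := fun _ => x s) (fun _ => by
        rw [eqv_mul, h2, h0, mul_one])
      rw [g1, h0] at g2
      rw [show B + n + 1 + 1 = B + n + 2 by ring, g2, hV] at g3
      rw [show B + n + 1 + 1 + 1 = B + n + 3 by ring, g1, g3] at g4
      rw [show B + n + 1 + 1 + 1 + 1 = B + n + 4 by ring, g4, ih'] at g5
      rw [g5, Finset.prod_range_succ]
  rw [h5, h0] at h6
  rw [show 4 + r * (n + 5) + 1 + 1 = 4 + r * (n + 5) + 2 by ring, h5, h2] at h7
  rw [show 4 + r * (n + 5) + 1 + 1 + 1 = 4 + r * (n + 5) + 3 by ring, h6, key r le_rfl] at h8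
  rw [show 4 + r * (n + 5) + 1 + 1 + 1 + 1 = 4 + r * (n + 5) + 5 - 1 by omega, h7, h8] at h9
  rw [h9]

theorem sgX_value {A : Type*} [CommRing A] (x : ℕ → A) :
    value x (sgX r) = 2 * x (r + 5) - (x (r + 3) + x (r + 4) + 2 * (x (r + 1) - x (r + 2))) := by
  simp [sgX, value, vals, Gate.val]
  ring

theorem sgE_wf (hl : h.length ≤ n) (ht : t < N) (hsN : s < N) : WF N (sgE n t s h) := by
  rw [wf_iff]
  unfold sgE
  rw [allAt_append, allAt_append, length_copyB hl]
  simp only [allAt_cons, allAt_nil, Gate.Ok, and_true, Nat.zero_add, List.length_cons,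
    List.length_nil]
  exact ⟨⟨trivial, ⟨by omega, by omega⟩, ht⟩, copyB_ok (by omega)
    (fun k => ⟨by omega, by omega⟩), hsN, ⟨by omega, by omega⟩, ⟨by omega, by omega⟩,
    ⟨by omega, by omega⟩⟩

theorem sgP_wf (hl : h.length ≤ n) (ht : t < N) (hsN : s < N) : WF N (sgP n t s h) := by
  rw [wf_iff]
  unfold sgP
  rw [allAt_append, allAt_append, length_copyB hl]
  simp only [allAt_cons, allAt_nil, Gate.Ok, and_true, Nat.zero_add, List.length_cons,
    List.length_nil]
  exact ⟨⟨trivial, ⟨by omega, by omega⟩, ht⟩, copyB_ok (by omega)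
    (fun k => ⟨by omega, by omega⟩), hsN, ⟨by omega, by omega⟩, ⟨by omega, by omega⟩,
    ⟨by omega, by omega⟩⟩

theorem sgE_value {A : Type*} [CommRing A] (hn : 1 ≤ n) (hl : h.length ≤ n) (x : ℕ → A) :
    value x (sgE n t s h) = x s ^ 2 + value (fun _ => x t) h ^ 2 := by
  have hM := models_self (sgE_wf (N := t + s + 1) (t := t) (s := s) hl (by omega) (by omega)) x
  have hlen : (sgE n t s h).length = n + 7 := by
    unfold sgE
    rw [List.length_append, List.length_append, length_copyB hl]
    simp
    omega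
  rw [value_eq_getD, hlen]
  generalize hv : (fun i' => (vals x (sgE n t s h)).getD i' 0) = v at hM
  have hv' : ∀ i', (vals x (sgE n t s h)).getD i' 0 = v i' := fun i' => by rw [← hv]
  rw [hv']
  simp only [hv'] at hM
  clear hv hv'
  unfold sgE at hM
  rw [allAt_append, allAt_append, length_copyB hl] at hM
  simp only [allAt_cons, allAt_nil, eqv_one, eqv_sub, eqv_var, eqv_mul, eqv_add, and_true,
    Nat.zero_add, List.length_cons, List.length_nil, sub_self] at hM
  obtain ⟨⟨h0, h1, h2⟩, h3, h4, h5, h6, h7⟩ := hM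
  have hV := copyB_value h3 h1 hl hn (x' := fun _ => x t) (fun _ => by
    rw [eqv_mul, h2, h0, mul_one])
  rw [show 1 + 1 + 1 + n = n + 3 by ring] at h4 h5 h6 h7
  rw [show 1 + 1 + 1 + n - 1 = n + 2 by omega] at hV
  rw [h4, show n + 3 + 1 = n + 4 by ring] at h5
  rw [show n + 3 + 1 + 1 = n + 5 by ring, hV] at h6
  rw [show n + 3 + 1 + 1 + 1 = n + 7 - 1 by omega, h5, h6] at h7
  rw [h7]
  ring

theorem sgP_value {A : Type*} [CommRing A] (hn : 1 ≤ n) (hl : h.length ≤ n) (x : ℕ → A) :
    value x (sgP n t s h) = value (fun _ => x t) h * x s ^ 2 - 1 := by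
  have hM := models_self (sgP_wf (N := t + s + 1) (t := t) (s := s) hl (by omega) (by omega)) x
  have hlen : (sgP n t s h).length = n + 7 := by
    unfold sgP
    rw [List.length_append, List.length_append, length_copyB hl]
    simp
    omega
  rw [value_eq_getD, hlen]
  generalize hv : (fun i' => (vals x (sgP n t s h)).getD i' 0) = v at hM
  have hv' : ∀ i', (vals x (sgP n t s h)).getD i' 0 = v i' := fun i' => by rw [← hv]
  rw [hv']
  simp only [hv'] at hM
  clear hv hv'
  unfold sgP at hM
  rw [allAt_append, allAt_append, length_copyB hl] at hM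
  simp only [allAt_cons, allAt_nil, eqv_one, eqv_sub, eqv_var, eqv_mul, and_true,
    Nat.zero_add, List.length_cons, List.length_nil, sub_self] at hM
  obtain ⟨⟨h0, h1, h2⟩, h3, h4, h5, h6, h7⟩ := hM
  have hV := copyB_value h3 h1 hl hn (x' := fun _ => x t) (fun _ => by
    rw [eqv_mul, h2, h0, mul_one])
  rw [show 1 + 1 + 1 + n = n + 3 by ring] at h4 h5 h6 h7
  rw [show 1 + 1 + 1 + n - 1 = n + 2 by omega] at hV
  rw [h4, show n + 3 + 1 = n + 4 by ring] at h5
  rw [show n + 3 + 1 + 1 = n + 5 by ring, hV, h5] at h6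
  rw [show n + 3 + 1 + 1 + 1 = n + 7 - 1 by omega, h6, h0] at h7
  rw [h7]
  ring

end vals

/-! ### Sample points -/

/-- The polynomial of a program, in one real variable. -/
noncomputable def rp (h : List Gate) : ℝ[X] := value (fun _ => X) h

theorem rp_eval (h : List Gate) (z : ℝ) : (rp h).eval z = value (fun _ => z) h := by
  have := value_map (evalRingHom z) (fun _ => (X : ℝ[X])) h
  rw [coe_evalRingHom, eval_X] at this
  exact this.symm

theorem rp_C (h : List Gate) (z : ℝ) : value (fun _ => (C z : ℝ[X])) h = C ((rp h).eval z) := by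
  have := value_map (C : ℝ →+* ℝ[X]) (fun _ => z) h
  rw [rp_eval, ← this]

/-- The sign does not change between roots. -/
theorem pos_of_pos {q : ℝ[X]} {z x : ℝ} (h : ∀ u ∈ Set.uIcc z x, q.eval u ≠ 0)
    (hz : 0 < q.eval z) : 0 < q.eval x := by
  by_contra hcon
  push Not at hcon
  have hc : ContinuousOn (fun u => q.eval u) (Set.uIcc z x) := q.continuous.continuousOn
  have h0 : (0 : ℝ) ∈ Set.uIcc (q.eval z) (q.eval x) := Set.mem_uIcc.2 (Or.inr ⟨hcon, hz.le⟩)
  obtain ⟨u, hu, hu0⟩ := intermediate_value_uIcc hc h0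
  exact h u hu hu0

/-- **Sample points**: every component of the complement of a finite set `T` contains a number of
the form `(α + β) / 2 + d - d'`, with `α, β ∈ T`. -/
theorem sample (T : Finset ℝ) (hT : T.Nonempty) {z : ℝ} (hz : z ∉ T) :
    ∃ α ∈ T, ∃ β ∈ T, ∃ d d' : ℝ, (d = 0 ∨ d = 1) ∧ (d' = 0 ∨ d' = 1) ∧
      ∀ u ∈ Set.uIcc z ((α + β) / 2 + (d - d')), u ∉ T := by
  classical
  by_cases h1 : (T.filter (· < z)).Nonempty
  · obtain ⟨α, hα, hα'⟩ : ∃ α ∈ T.filter (· < z), ∀ b ∈ T.filter (· < z), b ≤ α :=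
      ⟨_, Finset.max'_mem _ h1, fun b hb => Finset.le_max' _ b hb⟩
    rw [Finset.mem_filter] at hα
    by_cases h2 : (T.filter (z < ·)).Nonempty
    · obtain ⟨β, hβ, hβ'⟩ : ∃ β ∈ T.filter (z < ·), ∀ b ∈ T.filter (z < ·), β ≤ b :=
        ⟨_, Finset.min'_mem _ h2, fun b hb => Finset.min'_le _ b hb⟩
      rw [Finset.mem_filter] at hβ
      refine ⟨α, hα.1, β, hβ.1, 0, 0, Or.inl rfl, Or.inl rfl, fun u hu huT => ?_⟩
      rw [Set.mem_uIcc] at hu
      rcases lt_trichotomy u z with h3 | h3 | h3
      · have := hα' u (Finset.mem_filter.2 ⟨huT, h3⟩)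
        rcases hu with hu | hu <;> linarith [hu.1, hu.2, hα.2, hβ.2]
      · exact hz (h3 ▸ huT)
      · have := hβ' u (Finset.mem_filter.2 ⟨huT, h3⟩)
        rcases hu with hu | hu <;> linarith [hu.1, hu.2, hα.2, hβ.2]
    · refine ⟨α, hα.1, α, hα.1, 1, 0, Or.inr rfl, Or.inl rfl, fun u hu huT => ?_⟩
      rw [Set.mem_uIcc] at hu
      rcases lt_trichotomy u z with h3 | h3 | h3
      · have := hα' u (Finset.mem_filter.2 ⟨huT, h3⟩)
        rcases hu with hu | hu <;> linarith [hu.1, hu.2, hα.2]
      · exact hz (h3 ▸ huT)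
      · exact h2 ⟨u, Finset.mem_filter.2 ⟨huT, h3⟩⟩
  · by_cases h2 : (T.filter (z < ·)).Nonempty
    · obtain ⟨β, hβ, hβ'⟩ : ∃ β ∈ T.filter (z < ·), ∀ b ∈ T.filter (z < ·), β ≤ b :=
        ⟨_, Finset.min'_mem _ h2, fun b hb => Finset.min'_le _ b hb⟩
      rw [Finset.mem_filter] at hβ
      refine ⟨β, hβ.1, β, hβ.1, 0, 1, Or.inl rfl, Or.inr rfl, fun u hu huT => ?_⟩
      rw [Set.mem_uIcc] at hu
      rcases lt_trichotomy u z with h3 | h3 | h3
      · exact h1 ⟨u, Finset.mem_filter.2 ⟨huT, h3⟩⟩
      · exact hz (h3 ▸ huT)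
      · have := hβ' u (Finset.mem_filter.2 ⟨huT, h3⟩)
        rcases hu with hu | hu <;> linarith [hu.1, hu.2, hβ.2]
    · obtain ⟨a, ha⟩ := hT
      exfalso
      rcases lt_trichotomy a z with h3 | h3 | h3
      · exact h1 ⟨a, Finset.mem_filter.2 ⟨ha, h3⟩⟩
      · exact hz (h3 ▸ ha)
      · exact h2 ⟨a, Finset.mem_filter.2 ⟨ha, h3⟩⟩

/-! ### The system -/

/-- The triangular system for the sign conditions `q = 0` for `q ∈ E` and `q > 0` for `q ∈ P`. -/
def signSys (E P : List (List Gate)) : List (List Gate) :=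
  (List.range (E.length + P.length + 3)).map eqBit ++
  ([sgA (nOf (E ++ P)) (E.length + P.length) (E.length + P.length + 3)
      (fun i => (E ++ P).getD i []),
    sgA (nOf (E ++ P)) (E.length + P.length) (E.length + P.length + 4)
      (fun i => (E ++ P).getD i []),
    sgX (E.length + P.length)] ++
  ((List.range E.length).map (fun i => sgE (nOf (E ++ P)) (E.length + P.length + 5)
      (E.length + P.length + 6 + i) ((E ++ P).getD i [])) ++
  (List.range P.length).map (fun i => sgP (nOf (E ++ P)) (E.length + P.length + 5)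
      (E.length + P.length + 6 + E.length + i) ((E ++ P).getD (E.length + i) []))))

section sys

variable {n r : ℕ} {hs : ℕ → List Gate}

theorem polyAt_sgA (hn : 1 ≤ n) (hl : ∀ i, (hs i).length ≤ n) {s : ℕ} (hrs : r < s)
    (y : ℕ → ℝ) : polyAt y s (sgA n r s hs) = C (y r) * X + C (1 - y r) *
      ∏ i ∈ Finset.range r, (C (y i) + C (1 - y i) * rp (hs i)) := by
  rw [polyAt, sgA_value hn hl hrs]
  rw [if_pos hrs, if_neg (lt_irrefl s), if_pos rfl, C_sub, C_1]
  congr 2
  refine Finset.prod_congr rfl fun i hi => ?_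
  rw [Finset.mem_range] at hi
  rw [if_pos (by omega), C_sub, C_1]
  rfl

theorem polyAt_sgX (y : ℕ → ℝ) : polyAt y (r + 5) (sgX r) =
    2 * X - C (y (r + 3) + y (r + 4) + 2 * (y (r + 1) - y (r + 2))) := by
  rw [polyAt, sgX_value]
  rw [if_neg (by omega), if_pos rfl, if_pos (by omega), if_pos (by omega), if_pos (by omega),
    if_pos (by omega)]
  simp only [C_add, C_mul, C_sub]
  rfl

theorem polyAt_sgE (hn : 1 ≤ n) {h : List Gate} (hl : h.length ≤ n) {t s : ℕ} (hts : t < s)
    (y : ℕ → ℝ) : polyAt y s (sgE n t s h) = X ^ 2 + C ((rp h).eval (y t) ^ 2) := by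
  rw [polyAt, sgE_value hn hl]
  rw [if_neg (lt_irrefl s), if_pos rfl, if_pos hts, rp_C, C_pow]

theorem polyAt_sgP (hn : 1 ≤ n) {h : List Gate} (hl : h.length ≤ n) {t s : ℕ} (hts : t < s)
    (y : ℕ → ℝ) : polyAt y s (sgP n t s h) = C ((rp h).eval (y t)) * X ^ 2 - 1 := by
  rw [polyAt, sgP_value hn hl]
  rw [if_neg (lt_irrefl s), if_pos rfl, if_pos hts, rp_C]

end sys

theorem two_X_sub_C_ne (c : ℝ) : (2 * X - C c : ℝ[X]) ≠ 0 := by
  intro h0
  have h1 := congrArg (fun p => p.eval 0) h0
  have h2 := congrArg (fun p => p.eval 1) h0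
  simp at h1 h2
  linarith

/-- **Sign conditions for one real number reduce to triangular systems.** -/
theorem signSys_iff (E P : List (List Gate)) : TRI (signSys E P) ↔
    ∃ z : ℝ, (∀ q ∈ E, value (fun _ => z) q = 0) ∧ ∀ q ∈ P, 0 < value (fun _ => z) q := by
  obtain ⟨r, hr⟩ : ∃ r, r = E.length + P.length := ⟨_, rfl⟩
  obtain ⟨n, hn⟩ : ∃ n, n = nOf (E ++ P) := ⟨_, rfl⟩
  obtain ⟨hs, hhs⟩ : ∃ hs : ℕ → List Gate, hs = fun i => (E ++ P).getD i [] := ⟨_, rfl⟩
  have hl : ∀ i, (hs i).length ≤ n := fun i => by rw [hhs, hn]; exact length_le_nOf _ i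
  have hn1 : 1 ≤ n := by rw [hn]; unfold nOf; omega
  have hE : ∀ i (h : i < E.length), (E ++ P).getD i [] = E[i] := by
    intro i h
    rw [List.getD_append _ _ _ _ h, List.getD_eq_getElem _ _ h]
  have hP : ∀ i (h : i < P.length), (E ++ P).getD (E.length + i) [] = P[i] := by
    intro i h
    rw [List.getD_append_right _ _ _ _ (by omega), Nat.add_sub_cancel_left,
      List.getD_eq_getElem _ _ h]
  have hhsE : ∀ i, (E ++ P).getD i [] = hs i := fun i => by rw [hhs]
  rw [tri_iff]
  unfold signSys
  rw [← hr, ← hn, ← hhs]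
  simp only [triAt_append, triAt_map_range, triAt_cons, triAt_nil, List.length_map,
    List.length_range, List.length_cons, List.length_nil, Nat.zero_add, and_true]
  have e1 : ∀ y : ℕ → ℝ, polyAt y (r + 3) (sgA n r (r + 3) hs) = C (y r) * X + C (1 - y r) *
      ∏ i ∈ Finset.range r, (C (y i) + C (1 - y i) * rp (hs i)) := fun y =>
    polyAt_sgA hn1 hl (by omega) y
  have e2 : ∀ y : ℕ → ℝ, polyAt y (r + 3 + 1) (sgA n r (r + 4) hs) = C (y r) * X + C (1 - y r) *
      ∏ i ∈ Finset.range r, (C (y i) + C (1 - y i) * rp (hs i)) := fun y =>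
    polyAt_sgA hn1 hl (by omega) y
  have e3 : ∀ y : ℕ → ℝ, polyAt y (r + 3 + 1 + 1) (sgX r) =
      2 * X - C (y (r + 3) + y (r + 4) + 2 * (y (r + 1) - y (r + 2))) := fun y => polyAt_sgX y
  have e4 : ∀ (y : ℕ → ℝ) (i : ℕ), polyAt y (r + 3 + (0 + 1 + 1 + 1) + i)
      (sgE n (r + 5) (r + 6 + i) ((E ++ P).getD i [])) =
      X ^ 2 + C ((rp (hs i)).eval (y (r + 5)) ^ 2) := by
    intro y i
    rw [hhsE, show r + 3 + (0 + 1 + 1 + 1) + i = r + 6 + i by ring]
    exact polyAt_sgE hn1 (hl i) (by omega) y
  have e5 : ∀ (y : ℕ → ℝ) (i : ℕ), polyAt y (r + 3 + (0 + 1 + 1 + 1) + E.length + i)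
      (sgP n (r + 5) (r + 6 + E.length + i) ((E ++ P).getD (E.length + i) [])) =
      C ((rp (hs (E.length + i))).eval (y (r + 5))) * X ^ 2 - 1 := by
    intro y i
    rw [hhsE, show r + 3 + (0 + 1 + 1 + 1) + E.length + i = r + 6 + E.length + i by ring]
    exact polyAt_sgP hn1 (hl _) (by omega) y
  have e0 : ∀ (y : ℕ → ℝ) (i : ℕ), polyAt y i (eqBit i) = X * X - X := fun y i =>
    polyAt_eqBit i y
  simp only [e0, e1, e2, e3, e4, e5]
  constructor
  · rintro ⟨y, h1, -, h3, h4⟩
    refine ⟨y (r + 5), fun q hq => ?_, fun q hq => ?_⟩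
    · obtain ⟨i, hi, rfl⟩ := List.getElem_of_mem hq
      have h5 := (h3 i hi).2
      simp only [eval_add, eval_pow, eval_X, eval_C] at h5
      rw [← hhsE, hE i hi, rp_eval] at h5
      have h6 := sq_nonneg (y (r + 3 + (0 + 1 + 1 + 1) + i))
      have h7 := sq_nonneg (value (fun _ => y (r + 5)) E[i])
      exact pow_eq_zero_iff (two_ne_zero) |>.1 (by linarith)
    · obtain ⟨i, hi, rfl⟩ := List.getElem_of_mem hq
      have h5 := (h4 i hi).2
      simp only [eval_sub, eval_mul, eval_pow, eval_X, eval_C, eval_one] at h5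
      rw [← hhsE, hP i hi, rp_eval] at h5
      by_contra hcon
      push Not at hcon
      nlinarith [sq_nonneg (y (r + 3 + (0 + 1 + 1 + 1) + E.length + i))]
  · rintro ⟨z, hzE, hzP⟩
    classical
    obtain ⟨b, hb⟩ : ∃ b : ℕ → ℝ, b = fun i => if rp (hs i) = 0 then 1 else 0 := ⟨_, rfl⟩
    obtain ⟨Q, hQ⟩ : ∃ Q : ℝ[X], Q = ∏ i ∈ Finset.range r, (C (b i) + C (1 - b i) * rp (hs i)) :=
      ⟨_, rfl⟩
    have hfac : ∀ i, C (b i) + C (1 - b i) * rp (hs i) = if rp (hs i) = 0 then 1 else rp (hs i) := by
      intro i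
      rw [hb]
      dsimp only
      split_ifs with h
      · rw [h]; simp
      · simp
    have hQ0 : Q ≠ 0 := by
      rw [hQ, Finset.prod_ne_zero_iff]
      intro i _
      rw [hfac]
      split_ifs with h
      · exact one_ne_zero
      · exact h
    have hQroot : ∀ i < r, rp (hs i) ≠ 0 → ∀ u, (rp (hs i)).eval u = 0 → u ∈ Q.roots.toFinset := by
      intro i hi h0 u hu
      rw [Multiset.mem_toFinset, mem_roots hQ0, IsRoot, hQ, eval_prod]
      refine Finset.prod_eq_zero (Finset.mem_range.2 hi) ?_
      rw [hfac, if_neg h0]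
      exact hu
    have hidxE : ∀ q ∈ E, ∃ i < r, hs i = q := by
      intro q hq
      obtain ⟨i, hi, rfl⟩ := List.getElem_of_mem hq
      exact ⟨i, by omega, by rw [← hhsE, hE i hi]⟩
    have hidxP : ∀ q ∈ P, ∃ i < r, hs i = q := by
      intro q hq
      obtain ⟨i, hi, rfl⟩ := List.getElem_of_mem hq
      exact ⟨E.length + i, by omega, by rw [← hhsE, hP i hi]⟩
    have htrans : ∀ x : ℝ, (∀ u ∈ Set.uIcc z x, u ∉ Q.roots.toFinset) →
        (∀ q ∈ E, value (fun _ => x) q = 0) ∧ ∀ q ∈ P, 0 < value (fun _ => x) q := by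
      intro x hx
      refine ⟨fun q hq => ?_, fun q hq => ?_⟩
      · obtain ⟨i, hi, rfl⟩ := hidxE q hq
        have h1 := hzE _ hq
        rw [← rp_eval] at h1 ⊢
        by_cases h0 : rp (hs i) = 0
        · rw [h0, eval_zero]
        · exact absurd (hQroot i hi h0 z h1) (hx z Set.left_mem_uIcc)
      · obtain ⟨i, hi, rfl⟩ := hidxP q hq
        have h1 := hzP _ hq
        rw [← rp_eval] at h1 ⊢
        refine pos_of_pos (fun u hu h2 => ?_) h1
        have h0 : rp (hs i) ≠ 0 := by
          intro h0
          rw [h0, eval_zero] at h1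
          exact lt_irrefl _ h1
        exact hx u hu (hQroot i hi h0 u h2)
    obtain ⟨c, α, β, d, d', hc, hd, hd', hx⟩ : ∃ c α β d d' : ℝ,
        ((c = 1 ∧ α = 0 ∧ β = 0) ∨ (c = 0 ∧ Q.eval α = 0 ∧ Q.eval β = 0)) ∧
        (d = 0 ∨ d = 1) ∧ (d' = 0 ∨ d' = 1) ∧
        (∀ q ∈ E, value (fun _ => (α + β) / 2 + (d - d')) q = 0) ∧
        ∀ q ∈ P, 0 < value (fun _ => (α + β) / 2 + (d - d')) q := by
      by_cases hT : Q.roots.toFinset.Nonempty
      · by_cases hz : z ∈ Q.roots.toFinset
        · have hz2 : Q.eval z = 0 := by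
            rw [Multiset.mem_toFinset, mem_roots hQ0] at hz
            exact hz
          have e : (z + z) / 2 + ((0 : ℝ) - 0) = z := by ring
          refine ⟨0, z, z, 0, 0, Or.inr ⟨rfl, hz2, hz2⟩, Or.inl rfl, Or.inl rfl, ?_⟩
          rw [e]
          exact ⟨hzE, hzP⟩
        · obtain ⟨α, hα, β, hβ, d, d', hd, hd', hu⟩ := sample _ hT hz
          rw [Multiset.mem_toFinset, mem_roots hQ0] at hα hβ
          exact ⟨0, α, β, d, d', Or.inr ⟨rfl, hα, hβ⟩, hd, hd', htrans _ hu⟩
      · rw [Finset.not_nonempty_iff_eq_empty] at hT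
        exact ⟨1, 0, 0, 0, 0, Or.inl ⟨rfl, rfl, rfl⟩, Or.inl rfl, Or.inl rfl,
          htrans _ (fun u _ => by rw [hT]; simp)⟩
    obtain ⟨x, hxdef⟩ : ∃ x, x = (α + β) / 2 + (d - d') := ⟨_, rfl⟩
    rw [← hxdef] at hx
    obtain ⟨hxE, hxP⟩ := hx
    obtain ⟨y, hy⟩ : ∃ y : ℕ → ℝ, y = fun k => if k < r then b k else if k = r then c else
        if k = r + 1 then d else if k = r + 2 then d' else if k = r + 3 then α else
        if k = r + 4 then β else if k = r + 5 then x else
        if k < r + 6 + E.length then 0 else 1 / Real.sqrt ((rp (hs (k - (r + 6)))).eval x) :=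
      ⟨_, rfl⟩
    have y0 : ∀ i < r, y i = b i := fun i hi => by rw [hy]; simp only [if_pos hi]
    have yr : y r = c := by rw [hy]; simp
    have yr1 : y (r + 1) = d := by rw [hy]; simp
    have yr2 : y (r + 2) = d' := by rw [hy]; simp
    have yr3 : y (r + 3) = α := by rw [hy]; simp
    have yr4 : y (r + 4) = β := by rw [hy]; simp
    have yr5 : y (r + 5) = x := by rw [hy]; simp
    have yrE : ∀ i < E.length, y (r + 6 + i) = 0 := by
      intro i hi
      rw [hy]
      dsimp only
      rw [if_neg (by omega), if_neg (by omega), if_neg (by omega), if_neg (by omega),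
        if_neg (by omega), if_neg (by omega), if_neg (by omega), if_pos (by omega)]
    have yrP : ∀ i, y (r + 6 + E.length + i) =
        1 / Real.sqrt ((rp (hs (E.length + i))).eval x) := by
      intro i
      rw [hy]
      dsimp only
      rw [if_neg (by omega), if_neg (by omega), if_neg (by omega), if_neg (by omega),
        if_neg (by omega), if_neg (by omega), if_neg (by omega), if_neg (by omega),
        show r + 6 + E.length + i - (r + 6) = E.length + i by omega]
    have hprod : ∏ i ∈ Finset.range r, (C (y i) + C (1 - y i) * rp (hs i)) = Q := by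
      rw [hQ]
      refine Finset.prod_congr rfl fun i hi => ?_
      rw [y0 i (Finset.mem_range.1 hi)]
    refine ⟨y, ?_, ?_, ?_, ?_⟩
    · intro k hk
      refine ⟨X_sub_ne, ?_⟩
      simp only [eval_sub, eval_mul, eval_X]
      have hbit : y k = 0 ∨ y k = 1 := by
        rcases Nat.lt_or_ge k r with h | h
        · rw [y0 k h, hb]
          dsimp only
          split_ifs
          · exact Or.inr rfl
          · exact Or.inl rfl
        · obtain rfl | rfl | rfl : k = r ∨ k = r + 1 ∨ k = r + 2 := by omega
          · rw [yr]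
            rcases hc with hc | hc
            · exact Or.inr hc.1
            · exact Or.inl hc.1
          · rw [yr1]; exact hd
          · rw [yr2]; exact hd'
      rcases hbit with h | h <;> rw [h] <;> norm_num
    · rw [hprod, show r + 3 + 1 = r + 4 by ring, show r + 4 + 1 = r + 5 by ring, yr, yr1, yr2,
        yr3, yr4, yr5]
      refine ⟨?_, ?_, two_X_sub_C_ne _, ?_⟩
      · rcases hc with ⟨h1, h2, h3⟩ | ⟨h1, h2, h3⟩
        · rw [h1, h2]; simp
        · rw [h1]; simp [hQ0, h2]
      · rcases hc with ⟨h1, h2, h3⟩ | ⟨h1, h2, h3⟩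
        · rw [h1, h3]; simp
        · rw [h1]; simp [hQ0, h3]
      · simp only [eval_sub, eval_mul, eval_X, eval_C, eval_ofNat]
        rw [hxdef]
        ring
    · intro i hi
      refine ⟨X_sq_add_C_ne _, ?_⟩
      simp only [eval_add, eval_pow, eval_X, eval_C]
      rw [show r + 3 + (0 + 1 + 1 + 1) + i = r + 6 + i by ring, yrE i hi, yr5, ← hhsE, hE i hi,
        rp_eval, hxE _ (List.getElem_mem hi)]
      norm_num
    · intro i hi
      have hpos : 0 < (rp (hs (E.length + i))).eval x := by
        rw [← hhsE, hP i hi, rp_eval]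
        exact hxP _ (List.getElem_mem hi)
      rw [show r + 3 + (0 + 1 + 1 + 1) + E.length + i = r + 6 + E.length + i by ring, yrP, yr5]
      refine ⟨?_, ?_⟩
      · intro h0
        have := congrArg (fun q => q.eval 0) h0
        simp at this
      · simp only [eval_sub, eval_mul, eval_C, eval_pow, eval_X, eval_one]
        rw [div_pow, one_pow, Real.sq_sqrt hpos.le]
        field_simp
        ring

end Pool.Agent.Work.MP_859ada_lc

end
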